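import Pool.Agent.Helper12.CommAlg

/-!
Finitely generated groups of complex matrices: if all eigenvalues are roots of unity then their
orders are bounded; if all elements have finite order then the group is finite.
-/

set_option autoImplicit false

open Matrix Polynomial

namespace Helper12.Sc

/-- A field of finite type over the integers in which a prime number vanishes is finite. -/
theorem finite_of_natCast_eq_zero {A k : Type*} [CommRing A] [Algebra.FiniteType ℤ A] [Field k]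
    (f : A →+* k) (hf : Function.Surjective f) {p : ℕ}
    (hp : p.Prime) (h : f (p : A) = 0) : Finite k := by
  have : Fact p.Prime := ⟨hp⟩
  have hc : CharP k p := (CharP.charP_iff_prime_eq_zero hp).2 (by rw [← map_natCast f, h])
  let := ZMod.algebra k p
  have : IsScalarTower ℤ (ZMod p) k := by
    refine IsScalarTower.of_algebraMap_eq (fun x => ?_)
    simp
  have : Algebra.FiniteType ℤ k := Algebra.FiniteType.of_surjective f.toIntAlgHom hf
  have : Algebra.FiniteType (ZMod p) k := Algebra.FiniteType.of_restrictScalars_finiteType ℤ _ _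
  have : Module.Finite (ZMod p) k := finite_of_finite_type_of_isJacobsonRing _ _
  exact Module.finite_of_finite (ZMod p)

theorem finite_quotient {A : Type*} [CommRing A] [Algebra.FiniteType ℤ A] {m : Ideal A}
    (hm : m.IsMaximal) {p : ℕ} (hp : p.Prime) (h : (p : A) ∈ m) : Finite (A ⧸ m) :=
  @finite_of_natCast_eq_zero A (A ⧸ m) _ _ (Ideal.Quotient.field m) (Ideal.Quotient.mk m)
    Ideal.Quotient.mk_surjective p hp (Ideal.Quotient.eq_zero_iff_mem.2 h)

/-- maximal ideals over large primes, with finite residue fields -/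
theorem exists_two_maximal (A : Type*) [CommRing A] [IsDomain A] [CharZero A]
    [Algebra.FiniteType ℤ A] : ∃ (p₁ p₂ : ℕ) (m₁ m₂ : Ideal A), p₁.Prime ∧ p₂.Prime ∧ p₁ ≠ p₂ ∧
      m₁.IsMaximal ∧ m₂.IsMaximal ∧ (p₁ : A) ∈ m₁ ∧ (p₂ : A) ∈ m₂ := by
  have key : ∀ᶠ p : ℕ in Filter.atTop, p.Prime → ∃ m : Ideal A, m.IsMaximal ∧ (p : A) ∈ m := by
    filter_upwards [eventually_exists_prime_notMem (1 : A) one_ne_zero] with p hp hpp
    obtain ⟨P, hP, hpP, _⟩ := hp hpp
    obtain ⟨m, hm, hPm⟩ := Ideal.exists_le_maximal P hP.ne_top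
    exact ⟨m, hm, hPm hpP⟩
  obtain ⟨n, hn⟩ := Filter.eventually_atTop.1 key
  obtain ⟨p₁, h1, hp₁⟩ := Nat.exists_infinite_primes n
  obtain ⟨p₂, h2, hp₂⟩ := Nat.exists_infinite_primes (p₁ + 1)
  obtain ⟨m₁, hm₁, hpm₁⟩ := hn p₁ h1 hp₁
  obtain ⟨m₂, hm₂, hpm₂⟩ := hn p₂ (by omega) hp₂
  exact ⟨p₁, p₂, m₁, m₂, hp₁, hp₂, by omega, hm₁, hm₂, hpm₁, hpm₂⟩

/-- An eigenvalue of prime order of a matrix which is congruent to one. -/
theorem prime_of_congr_one {A : Type*} [CommRing A] [IsDomain A] [Algebra A ℂ]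
    (hinj : Function.Injective (algebraMap A ℂ)) {r : ℕ} (g : Matrix (Fin r) (Fin r) A)
    {m : Ideal A} (hm : m.IsMaximal) (hg : g.map (Ideal.Quotient.mk m) = 1) {p ℓ k : ℕ}
    (hp : p.Prime) (hpm : (p : A) ∈ m) (hℓ : ℓ.Prime) {z : ℂ}
    (hz : (g.map (algebraMap A ℂ)).charpoly.IsRoot z) (hξ : IsPrimitiveRoot (z ^ k) ℓ) :
    ℓ = p := by
  have hz' : aeval z g.charpoly = 0 := by
    rw [aeval_def, eval₂_eq_eval_map, ← charpoly_map]
    exact hz
  have hzi : IsIntegral A z := ⟨g.charpoly, charpoly_monic g, by rw [← aeval_def]; exact hz'⟩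
  let B := integralClosure A ℂ
  let zB : B := ⟨z, hzi⟩
  have hinjB : Function.Injective (algebraMap B ℂ) := Subtype.val_injective
  obtain ⟨M, hM, hMm⟩ := Ideal.exists_ideal_over_maximal_of_isIntegral (S := B) m (by
    intro x hx
    have h1 : algebraMap A ℂ x = 0 := by
      rw [IsScalarTower.algebraMap_apply A B ℂ, (RingHom.mem_ker).1 hx, map_zero]
    have h2 : x = 0 := hinj (by rw [h1, map_zero])
    rw [h2]
    exact m.zero_mem)
  let π : B →+* B ⧸ M := Ideal.Quotient.mk M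
  have hpi : π zB = 1 := by
    have h1 : aeval zB g.charpoly = 0 := by
      apply hinjB
      rw [map_zero, ← aeval_algebraMap_apply]
      exact hz'
    have h2 : (g.map (π.comp (algebraMap A B))).charpoly.eval (π zB) = 0 := by
      have h3 := congrArg π h1
      rw [map_zero, aeval_def, hom_eval₂, eval₂_eq_eval_map, ← charpoly_map] at h3
      exact h3
    have h4 : g.map (π.comp (algebraMap A B)) = 1 := by
      ext i j
      have h5 : g i j - (1 : Matrix (Fin r) (Fin r) A) i j ∈ m := by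
        rw [← Ideal.Quotient.eq_zero_iff_mem, map_sub, sub_eq_zero]
        have h6 := congrFun (congrFun hg i) j
        rw [Matrix.map_apply] at h6
        rw [h6, Matrix.one_apply, Matrix.one_apply]
        split_ifs <;> simp
      rw [← hMm, Ideal.mem_comap, ← Ideal.Quotient.eq_zero_iff_mem, map_sub, map_sub,
        sub_eq_zero] at h5
      rw [Matrix.map_apply]
      refine Eq.trans h5 ?_
      rw [Matrix.one_apply, Matrix.one_apply]
      split_ifs <;> simp
    rw [h4, charpoly_one, eval_pow, eval_sub, eval_X, eval_one] at h2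
    exact sub_eq_zero.1 (eq_zero_of_pow_eq_zero h2)
  have hℓM : (ℓ : B) ∈ M := by
    have h1 : (∑ i ∈ Finset.range ℓ, (zB ^ k) ^ i) = 0 := by
      apply hinjB
      rw [map_zero, map_sum]
      have := hξ.geom_sum_eq_zero hℓ.one_lt
      rw [← this]
      apply Finset.sum_congr rfl
      intro i _
      rw [map_pow, map_pow]
      rfl
    have h2 := congrArg π h1
    rw [map_sum, map_zero] at h2
    simp only [map_pow, hpi, one_pow, Finset.sum_const, Finset.card_range, nsmul_eq_mul,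
      mul_one] at h2
    rw [← Ideal.Quotient.eq_zero_iff_mem, map_natCast]
    exact h2
  have hpM : (p : B) ∈ M := by
    have h1 : (p : A) ∈ M.comap (algebraMap A B) := by rw [hMm]; exact hpm
    rw [Ideal.mem_comap, map_natCast] at h1
    exact h1
  exact prime_unique_of_mem hM.ne_top hℓ hp hℓM hpM

/-- The entries of a matrix and of its inverse are in a subalgebra. -/
def EntIn {r : ℕ} (A : Subalgebra ℤ ℂ) (g : GL (Fin r) ℂ) : Prop :=
  (∀ i j, (g : Matrix (Fin r) (Fin r) ℂ) i j ∈ A) ∧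
    ∀ i j, ((g⁻¹ : GL (Fin r) ℂ) : Matrix (Fin r) (Fin r) ℂ) i j ∈ A

theorem EntIn.mul {r : ℕ} {A : Subalgebra ℤ ℂ} {g h : GL (Fin r) ℂ} (hg : EntIn A g)
    (hh : EntIn A h) : EntIn A (g * h) := by
  constructor
  · intro i j
    rw [Units.val_mul, Matrix.mul_apply]
    exact Subalgebra.sum_mem _ fun k _ => A.mul_mem (hg.1 i k) (hh.1 k j)
  · intro i j
    rw [_root_.mul_inv_rev, Units.val_mul, Matrix.mul_apply]
    exact Subalgebra.sum_mem _ fun k _ => A.mul_mem (hh.2 i k) (hg.2 k j)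

theorem entIn_one {r : ℕ} (A : Subalgebra ℤ ℂ) : EntIn A (1 : GL (Fin r) ℂ) := by
  have h : ∀ i j, ((1 : GL (Fin r) ℂ) : Matrix (Fin r) (Fin r) ℂ) i j ∈ A := by
    intro i j
    rw [Units.val_one, Matrix.one_apply]
    split_ifs
    · exact A.one_mem
    · exact A.zero_mem
  exact ⟨h, by rw [inv_one]; exact h⟩

theorem EntIn.inv {r : ℕ} {A : Subalgebra ℤ ℂ} {g : GL (Fin r) ℂ} (hg : EntIn A g) :
    EntIn A g⁻¹ := ⟨hg.2, by rw [inv_inv]; exact hg.1⟩

/-- The entries of a finitely generated group of matrices are in a finitely generated ring. -/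
theorem exists_subalgebra {r : ℕ} (H : Subgroup (GL (Fin r) ℂ)) (hH : H.FG) :
    ∃ A : Subalgebra ℤ ℂ, Algebra.FiniteType ℤ A ∧ ∀ h ∈ H, EntIn A h := by
  obtain ⟨S, hS⟩ := hH
  let E : Set ℂ := ⋃ g ∈ (S : Set (GL (Fin r) ℂ)), ⋃ i, ⋃ j,
    {(g : Matrix (Fin r) (Fin r) ℂ) i j, ((g⁻¹ : GL (Fin r) ℂ) : Matrix (Fin r) (Fin r) ℂ) i j}
  have hE : E.Finite := by
    refine Set.Finite.biUnion S.finite_toSet fun g _ => ?_
    refine Set.finite_iUnion fun i => Set.finite_iUnion fun j => ?_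
    exact Set.toFinite _
  refine ⟨Algebra.adjoin ℤ E, ?_, ?_⟩
  · rw [← Subalgebra.fg_iff_finiteType, Subalgebra.fg_def]
    exact ⟨E, hE, rfl⟩
  · intro h hh
    rw [← hS] at hh
    induction hh using Subgroup.closure_induction with
    | mem g hg =>
      constructor
      · intro i j
        apply Algebra.subset_adjoin
        exact Set.mem_biUnion hg (Set.mem_iUnion.2 ⟨i, Set.mem_iUnion.2 ⟨j, Or.inl rfl⟩⟩)
      · intro i j
        apply Algebra.subset_adjoin
        exact Set.mem_biUnion hg (Set.mem_iUnion.2 ⟨i, Set.mem_iUnion.2 ⟨j, Or.inr rfl⟩⟩)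
    | one => exact entIn_one _
    | mul x y _ _ hx hy => exact hx.mul hy
    | inv x _ hx => exact hx.inv

/-- A homomorphism to a finite group whose kernel has no eigenvalue of finite order but one. -/
theorem exists_finite_quotient (r : ℕ) (H : Subgroup (GL (Fin r) ℂ)) (hH : H.FG) :
    ∃ (F : Type) (_ : Group F) (_ : Finite F) (ρ : H →* F), ∀ h : H, ρ h = 1 →
      ∀ z : ℂ, ((h : GL (Fin r) ℂ) : Matrix (Fin r) (Fin r) ℂ).charpoly.IsRoot z →
        ∀ n > 0, z ^ n = 1 → z = 1 := by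
  obtain ⟨A, hA, hAH⟩ := exists_subalgebra H hH
  obtain ⟨p₁, p₂, m₁, m₂, hp₁, hp₂, hne, hm₁, hm₂, hpm₁, hpm₂⟩ := exists_two_maximal A
  have hf1 := finite_quotient hm₁ hp₁ hpm₁
  have hf2 := finite_quotient hm₂ hp₂ hpm₂
  let ρ₀ : H →* Matrix (Fin r) (Fin r) A :=
    { toFun := fun h => Matrix.of fun i j =>
        ⟨((h : GL (Fin r) ℂ) : Matrix (Fin r) (Fin r) ℂ) i j, (hAH h h.2).1 i j⟩
      map_one' := by
        ext i j
        change (1 : Matrix (Fin r) (Fin r) ℂ) i j = _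
        rw [Matrix.one_apply, Matrix.one_apply]
        split_ifs <;> rfl
      map_mul' := by
        intro x y
        ext i j
        rw [Matrix.mul_apply, AddSubmonoidClass.coe_finsetSum]
        change ((((x : GL (Fin r) ℂ) : Matrix (Fin r) (Fin r) ℂ) *
          ((y : GL (Fin r) ℂ) : Matrix (Fin r) (Fin r) ℂ)) i j : ℂ) = _
        rw [Matrix.mul_apply]
        rfl }
  have hρ₀ : ∀ h : H, (ρ₀ h).map (algebraMap A ℂ) = ((h : GL (Fin r) ℂ) : Matrix _ _ ℂ) := by
    intro h
    ext i j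
    rfl
  let ρ₁ : H →* (Matrix (Fin r) (Fin r) (A ⧸ m₁))ˣ :=
    (((Ideal.Quotient.mk m₁).mapMatrix : Matrix (Fin r) (Fin r) A →+* _).toMonoidHom.comp
      ρ₀).toHomUnits
  let ρ₂ : H →* (Matrix (Fin r) (Fin r) (A ⧸ m₂))ˣ :=
    (((Ideal.Quotient.mk m₂).mapMatrix : Matrix (Fin r) (Fin r) A →+* _).toMonoidHom.comp
      ρ₀).toHomUnits
  refine ⟨(Matrix (Fin r) (Fin r) (A ⧸ m₁))ˣ × (Matrix (Fin r) (Fin r) (A ⧸ m₂))ˣ, inferInstance,
    ?_, ρ₁.prod ρ₂, ?_⟩
  · infer_instance
  · intro h hh z hz n hn hzn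
    by_contra hz1
    have e1 : ρ₁ h = 1 := (Prod.ext_iff.1 hh).1
    have e2 : ρ₂ h = 1 := (Prod.ext_iff.1 hh).2
    have e1' : (ρ₀ h).map (Ideal.Quotient.mk m₁) = 1 := congrArg Units.val e1
    have e2' : (ρ₀ h).map (Ideal.Quotient.mk m₂) = 1 := congrArg Units.val e2
    have ho : orderOf z ≠ 1 := by rwa [ne_eq, orderOf_eq_one_iff]
    have ho' : orderOf z ≠ 0 := by
      rw [ne_eq, orderOf_eq_zero_iff, not_not, isOfFinOrder_iff_pow_eq_one]
      exact ⟨n, hn, hzn⟩
    obtain ⟨ℓ, hℓ, hℓd⟩ := Nat.exists_prime_and_dvd ho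
    obtain ⟨k, hk⟩ := hℓd
    have hξ : IsPrimitiveRoot (z ^ k) ℓ := by
      have h1 := IsPrimitiveRoot.orderOf z
      refine h1.pow (Nat.pos_of_ne_zero ho') ?_
      rw [hk, mul_comm]
    rw [← hρ₀] at hz
    have hinj : Function.Injective (algebraMap A ℂ) := Subtype.val_injective
    have f1 := prime_of_congr_one hinj (ρ₀ h) hm₁ e1' hp₁ hpm₁ hℓ hz hξ
    have f2 := prime_of_congr_one hinj (ρ₀ h) hm₂ e2' hp₂ hpm₂ hℓ hz hξ
    exact hne (f1.symm.trans f2)

theorem isRoot_pow {r : ℕ} {g : Matrix (Fin r) (Fin r) ℂ} {z : ℂ} (hz : g.charpoly.IsRoot z)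
    (n : ℕ) : (g ^ n).charpoly.IsRoot (z ^ n) := by
  rw [← Matrix.mem_spectrum_iff_isRoot_charpoly] at hz ⊢
  exact spectrum.pow_mem_pow g n hz

/-- **Bounded orders of the eigenvalues.** -/
theorem fg_bounded (r : ℕ) (H : Subgroup (GL (Fin r) ℂ)) (hH : H.FG)
    (hev : ∀ h ∈ H, ∀ z : ℂ, (h : Matrix (Fin r) (Fin r) ℂ).charpoly.IsRoot z →
      ∃ n > 0, z ^ n = 1) :
    ∃ N > 0, ∀ h ∈ H, ∀ z : ℂ, (h : Matrix (Fin r) (Fin r) ℂ).charpoly.IsRoot z → z ^ N = 1 := by
  obtain ⟨F, _, _, ρ, hρ⟩ := exists_finite_quotient r H hH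
  refine ⟨Nat.card F, Nat.card_pos, ?_⟩
  intro h hh z hz
  obtain ⟨n, hn, hzn⟩ := hev h hh z hz
  refine hρ (⟨h, hh⟩ ^ Nat.card F) ?_ (z ^ Nat.card F) ?_ n hn ?_
  · rw [map_pow, pow_card_eq_one']
  · have := isRoot_pow hz (Nat.card F)
    simpa using this
  · rw [← pow_mul, mul_comm, pow_mul, hzn, one_pow]

/-- **Burnside-Schur**: a finitely generated torsion group of complex matrices is finite. -/
theorem fg_torsion_finite (r : ℕ) (H : Subgroup (GL (Fin r) ℂ)) (hH : H.FG)
    (ht : ∀ h ∈ H, IsOfFinOrder h) : Finite H := by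
  obtain ⟨F, _, _, ρ, hρ⟩ := exists_finite_quotient r H hH
  refine Finite.of_injective ρ ((injective_iff_map_eq_one ρ).2 ?_)
  intro h hh
  obtain ⟨n, hn, hhn⟩ := isOfFinOrder_iff_pow_eq_one.1 (ht h h.2)
  set g : Matrix (Fin r) (Fin r) ℂ := ((h : GL (Fin r) ℂ) : Matrix (Fin r) (Fin r) ℂ) with hg
  have hgn : g ^ n = 1 := by
    rw [hg, ← Units.val_pow_eq_pow_val, hhn, Units.val_one]
  have hroot : ∀ z : ℂ, g.charpoly.IsRoot z → z = 1 := by
    intro z hz
    refine hρ h hh z hz n hn ?_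
    have h1 := isRoot_pow hz n
    rw [hgn, charpoly_one, IsRoot, eval_pow, eval_sub, eval_X, eval_one] at h1
    exact sub_eq_zero.1 (eq_zero_of_pow_eq_zero h1)
  have hnil : IsNilpotent (g - 1) := by
    have h1 : g.charpoly = (X - C 1) ^ Multiset.card g.charpoly.roots := by
      have h2 := (IsAlgClosed.splits g.charpoly).eq_prod_roots
      rw [(charpoly_monic g).leadingCoeff, C_1, one_mul] at h2
      have h3 : g.charpoly.roots = Multiset.replicate (Multiset.card g.charpoly.roots) 1 := by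
        rw [Multiset.eq_replicate]
        refine ⟨rfl, ?_⟩
        intro z hz
        exact hroot z ((mem_roots (charpoly_monic g).ne_zero).1 hz)
      conv_lhs => rw [h2, h3]
      rw [Multiset.map_replicate, Multiset.prod_replicate]
    refine ⟨Multiset.card g.charpoly.roots, ?_⟩
    have h4 := aeval_self_charpoly g
    rw [h1, map_pow, map_sub, aeval_X, aeval_C, map_one] at h4
    exact h4
  have hsum : (∑ i ∈ Finset.range n, g ^ i) * (g - 1) = 0 := by
    rw [geom_sum_mul, hgn, sub_self]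
  have hunit : IsUnit (∑ i ∈ Finset.range n, g ^ i) := by
    have h1 : ∑ i ∈ Finset.range n, g ^ i =
        (n : Matrix (Fin r) (Fin r) ℂ) + ∑ i ∈ Finset.range n, (g ^ i - 1) := by
      rw [Finset.sum_sub_distrib]
      simp
    rw [h1]
    refine IsNilpotent.isUnit_add_left_of_commute ?_ ?_ (Nat.cast_commute n _).symm
    · have h2 : ∑ i ∈ Finset.range n, (g ^ i - 1) =
          (∑ i ∈ Finset.range n, ∑ j ∈ Finset.range i, g ^ j) * (g - 1) := by
        rw [Finset.sum_mul]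
        apply Finset.sum_congr rfl
        intro i _
        rw [geom_sum_mul]
      rw [h2]
      refine Commute.isNilpotent_mul_left ?_ hnil
      refine Commute.sum_left _ _ _ fun i _ => Commute.sum_left _ _ _ fun j _ => ?_
      exact ((Commute.refl g).pow_left j).sub_right (Commute.one_right _)
    · have h3 : (n : Matrix (Fin r) (Fin r) ℂ) = algebraMap ℂ _ (n : ℂ) := by simp
      rw [h3]
      exact (isUnit_iff_ne_zero.2 (by exact_mod_cast hn.ne')).map _
  have hg1 : g - 1 = 0 := (hunit.mul_right_eq_zero).1 hsum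
  apply Subtype.ext
  apply Units.ext
  rw [← hg]
  exact sub_eq_zero.1 hg1

end Helper12.Sc
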