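import Pool.Agent.Helper88.Lattice

set_option autoImplicit false

open Set Module

namespace Pool.Agent.Helper88

variable {ι : Type*} [Fintype ι] [DecidableEq ι]

/-- Normalised tuples. -/
def NormSet (ι : Type*) (r : ℕ) : Set (Fin r → ι → ℝ) :=
  {M | (∃ e₀ : Fin r → ι, ∀ a c, M c (e₀ a) = if a = c then 1 else 0) ∧ ∀ c i, |M c i| ≤ 1}

lemma normSet_compact (r : ℕ) : IsCompact (NormSet ι r) := by
  have hbox : IsCompact {M : Fin r → ι → ℝ | ∀ c i, M c i ∈ Icc (-1 : ℝ) 1} := by
    have h1 : IsCompact (Set.pi univ (fun _ : Fin r => Set.pi univ (fun _ : ι => Icc (-1 : ℝ) 1))) :=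
      isCompact_univ_pi (fun _ => isCompact_univ_pi (fun _ => isCompact_Icc))
    convert h1 using 1
    ext M
    constructor
    · intro h c _ i _
      exact h c i
    · intro h c i
      exact h c (mem_univ _) i (mem_univ _)
  apply hbox.of_isClosed_subset
  · have h2 : NormSet ι r = (⋃ e₀ : Fin r → ι, {M | ∀ a c, M c (e₀ a) = if a = c then 1 else 0}) ∩
        {M | ∀ c i, |M c i| ≤ 1} := by
      ext M
      simp only [NormSet, mem_inter_iff, mem_iUnion]
      rfl
    rw [h2]
    apply IsClosed.inter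
    · apply isClosed_iUnion_of_finite
      intro e₀
      have : {M : Fin r → ι → ℝ | ∀ a c, M c (e₀ a) = if a = c then 1 else 0} =
          ⋂ a, ⋂ c, {M : Fin r → ι → ℝ | M c (e₀ a) = if a = c then 1 else 0} := by
        ext M; simp
      rw [this]
      apply isClosed_iInter
      intro a
      apply isClosed_iInter
      intro c
      apply isClosed_eq _ continuous_const
      fun_prop
    · have : {M : Fin r → ι → ℝ | ∀ c i, |M c i| ≤ 1} =
          ⋂ c, ⋂ i, {M : Fin r → ι → ℝ | |M c i| ≤ 1} := by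
        ext M; simp
      rw [this]
      apply isClosed_iInter
      intro c
      apply isClosed_iInter
      intro i
      apply isClosed_le _ continuous_const
      fun_prop
  · intro M hM c i
    exact abs_le.mp (hM.2 c i)

omit [Fintype ι] [DecidableEq ι] in
lemma normSet_li {r : ℕ} {M : Fin r → ι → ℝ} (hM : M ∈ NormSet ι r) : LinearIndependent ℝ M := by
  obtain ⟨⟨e₀, he₀⟩, _⟩ := hM
  rw [Fintype.linearIndependent_iff]
  intro g hg a
  have h1 := congrFun hg (e₀ a)
  rw [Finset.sum_apply] at h1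
  simp only [Pi.smul_apply, smul_eq_mul, Pi.zero_apply] at h1
  simp_rw [he₀ a] at h1
  simpa using h1

lemma continuous_mnr {r : ℕ} (A : Matrix ι ι ℝ) (e : Fin r → ι) :
    Continuous (fun M : Fin r → ι → ℝ => mnr A M e) := by
  unfold mnr
  apply Continuous.matrix_det
  apply continuous_matrix
  intro a c
  simp only [Matrix.of_apply, Matrix.mulVec, dotProduct]
  fun_prop

/-- Normalisation of an integral tuple. -/
lemma exists_normalised {r : ℕ} (b : Fin r → ι → ℤ)
    (hb : LinearIndependent ℝ (fun c => toR (b c))) :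
    ∃ M ∈ NormSet ι r, ∀ (A : Matrix ι ι ℝ) (e : Fin r → ι),
      |mnr A M e| ≤ |mnr A (fun c => toR (b c)) e| := by
  obtain ⟨e₁, _, he₁⟩ := exists_rows _ hb
  set dt : (Fin r → ι) → ℝ := fun e => |Matrix.det (Matrix.of fun a c => toR (b c) (e a))| with hdt
  obtain ⟨e₀, _, he₀max⟩ := Finset.exists_max_image (Finset.univ : Finset (Fin r → ι)) dt
    ⟨e₁, Finset.mem_univ _⟩
  set B : Matrix (Fin r) (Fin r) ℝ := Matrix.of fun a c => toR (b c) (e₀ a) with hB
  have hdet0 : B.det ≠ 0 := by
    have h1 : 0 < dt e₁ := by rw [hdt]; exact abs_pos.mpr he₁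
    have h2 : 0 < dt e₀ := lt_of_lt_of_le h1 (he₀max e₁ (Finset.mem_univ _))
    exact abs_pos.mp h2
  have hdet1 : 1 ≤ |B.det| := by
    have h1 : B.det = ((Matrix.det (Matrix.of fun a c => b c (e₀ a)) : ℤ) : ℝ) := by
      rw [Int.cast_det]
      congr 1
    rw [h1] at hdet0 ⊢
    have h2 : Matrix.det (Matrix.of fun a c => b c (e₀ a)) ≠ 0 := by
      intro h; apply hdet0; rw [h]; simp
    have h3 := Int.one_le_abs h2
    exact_mod_cast h3
  have hunit : IsUnit B.det := hdet0.isUnit
  set M : Fin r → ι → ℝ := fun c => ∑ c', (B⁻¹).transpose c c' • toR (b c') with hM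
  have hchange : ∀ (A : Matrix ι ι ℝ) (e : Fin r → ι),
      mnr A M e = (B⁻¹).det * mnr A (fun c => toR (b c)) e := by
    intro A e
    rw [mnr_change A (fun c => toR (b c)) M (B⁻¹).transpose (fun c => rfl) e,
      Matrix.det_transpose]
  have hinvdet : |(B⁻¹).det| * |B.det| = 1 := by
    rw [← abs_mul, ← Matrix.det_mul, Matrix.nonsing_inv_mul _ hunit, Matrix.det_one, abs_one]
  have hMe₀ : ∀ a c, M c (e₀ a) = if a = c then 1 else 0 := by
    intro a c
    have h1 : M c (e₀ a) = (B * B⁻¹) a c := by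
      rw [hM, Matrix.mul_apply]
      simp only [Finset.sum_apply, Pi.smul_apply, smul_eq_mul, Matrix.transpose_apply]
      apply Finset.sum_congr rfl
      intro c' _
      rw [mul_comm]
      rfl
    rw [h1, Matrix.mul_nonsing_inv _ hunit, Matrix.one_apply]
  have hent : ∀ c i, |M c i| ≤ 1 := by
    intro c i
    have h1 := hchange (1 : Matrix ι ι ℝ) (Function.update e₀ c i)
    have h2 : mnr (1 : Matrix ι ι ℝ) M (Function.update e₀ c i) = M c i := by
      unfold mnr
      have h3 : (Matrix.of fun a c' => ((1 : Matrix ι ι ℝ).mulVec (M c'))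
          (Function.update e₀ c i a)) =
          (1 : Matrix (Fin r) (Fin r) ℝ).updateRow c (fun c' => M c' i) := by
        ext a c'
        simp only [Matrix.of_apply, Matrix.one_mulVec]
        by_cases hac : a = c
        · subst hac
          rw [Function.update_self, Matrix.updateRow_self]
        · rw [Function.update_of_ne hac, Matrix.updateRow_ne hac, hMe₀, Matrix.one_apply]
      rw [h3, ← Matrix.cramer_transpose_apply, Matrix.transpose_one, Matrix.cramer_one]
      rfl
    rw [h2] at h1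
    rw [h1, abs_mul]
    have h4 : |mnr (1 : Matrix ι ι ℝ) (fun c => toR (b c)) (Function.update e₀ c i)| ≤ |B.det| := by
      have h5 := he₀max (Function.update e₀ c i) (Finset.mem_univ _)
      simp only [hdt] at h5
      unfold mnr
      simp only [Matrix.one_mulVec]
      exact h5
    calc |(B⁻¹).det| * |mnr (1 : Matrix ι ι ℝ) (fun c => toR (b c)) (Function.update e₀ c i)|
        ≤ |(B⁻¹).det| * |B.det| := mul_le_mul_of_nonneg_left h4 (abs_nonneg _)
      _ = 1 := hinvdet
  refine ⟨M, ⟨⟨e₀, hMe₀⟩, hent⟩, ?_⟩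
  intro A e
  rw [hchange, abs_mul]
  have h6 : |(B⁻¹).det| ≤ 1 := by
    have := abs_nonneg (B⁻¹).det
    nlinarith
  have := abs_nonneg (mnr A (fun c => toR (b c)) e)
  nlinarith

/-- Compactness: uniform lower bound for minors of integral tuples. -/
theorem compact_lower {r : ℕ} (T : ℝ → Matrix ι ι ℝ) (J : Finset (ℝ × (Fin r → ι)))
    (h : ∀ M : Fin r → ι → ℝ, LinearIndependent ℝ M → ∃ j ∈ J, mnr (T j.1) M j.2 ≠ 0) :
    ∃ c : ℝ, 0 < c ∧ ∀ b : Fin r → ι → ℤ, LinearIndependent ℝ (fun c => toR (b c)) →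
      ∃ j ∈ J, c ≤ |mnr (T j.1) (fun c => toR (b c)) j.2| := by
  by_cases hne : (NormSet ι r).Nonempty
  · set g : (Fin r → ι → ℝ) → ℝ := fun M => ∑ j ∈ J, |mnr (T j.1) M j.2| with hg
    have hgc : Continuous g := by
      rw [hg]
      apply continuous_finsetSum
      intro j _
      exact (continuous_mnr (T j.1) j.2).abs
    obtain ⟨M₀, hM₀, hmin⟩ := (normSet_compact (ι := ι) r).exists_isMinOn hne hgc.continuousOn
    have hpos : 0 < g M₀ := by
      obtain ⟨j, hj, hj0⟩ := h M₀ (normSet_li hM₀)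
      apply Finset.sum_pos' (fun _ _ => abs_nonneg _)
      exact ⟨j, hj, abs_pos.mpr hj0⟩
    have hJ : 0 < J.card := by
      obtain ⟨j, hj, _⟩ := h M₀ (normSet_li hM₀)
      exact Finset.card_pos.mpr ⟨j, hj⟩
    have hJ' : (0 : ℝ) < J.card := by exact_mod_cast hJ
    refine ⟨g M₀ / J.card, by positivity, ?_⟩
    intro b hb
    obtain ⟨M, hM, hMle⟩ := exists_normalised b hb
    by_contra hcon
    push Not at hcon
    have h1 : g M₀ ≤ g M := hmin hM
    have h2 : g M < g M₀ := by
      calc g M = ∑ j ∈ J, |mnr (T j.1) M j.2| := rfl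
        _ ≤ ∑ j ∈ J, |mnr (T j.1) (fun c => toR (b c)) j.2| :=
            Finset.sum_le_sum (fun j _ => hMle (T j.1) j.2)
        _ < ∑ j ∈ J, g M₀ / J.card := by
            apply Finset.sum_lt_sum_of_nonempty (Finset.card_pos.mp hJ)
            intro j hj
            exact hcon j hj
        _ = g M₀ := by
            rw [Finset.sum_const, nsmul_eq_mul]
            field_simp
    linarith
  · refine ⟨1, one_pos, ?_⟩
    intro b hb
    obtain ⟨M, hM, _⟩ := exists_normalised b hb
    exact absurd ⟨M, hM⟩ hne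

end Pool.Agent.Helper88
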