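import Pool.Agent.Helper88.Est

set_option autoImplicit false

open Set Module Polynomial

namespace Pool.Agent.Helper88

/-- The naive height. -/
def ht (P : ℤ[X]) : ℕ := P.support.sup (fun i => (P.coeff i).natAbs)

lemma coeff_le_ht (P : ℤ[X]) (i : ℕ) : (P.coeff i).natAbs ≤ ht P := by
  by_cases h : i ∈ P.support
  · exact Finset.le_sup (f := fun i => (P.coeff i).natAbs) h
  · rw [notMem_support_iff.mp h]; simp

lemma abs_coeff_le_ht (P : ℤ[X]) (i : ℕ) : |(P.coeff i : ℝ)| ≤ ht P := by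
  have := coeff_le_ht P i
  rw [← Int.cast_abs, ← Nat.cast_natAbs]
  exact_mod_cast this

lemma ht_le {P : ℤ[X]} {K : ℝ} (hK : 0 ≤ K) (h : ∀ i, |(P.coeff i : ℝ)| ≤ K) : (ht P : ℝ) ≤ K := by
  have h1 : ht P ≤ ⌊K⌋₊ := by
    apply Finset.sup_le
    intro i _
    rw [Nat.le_floor_iff hK]
    have := h i
    rw [← Int.cast_abs, ← Nat.cast_natAbs] at this
    exact_mod_cast this
  calc (ht P : ℝ) ≤ (⌊K⌋₊ : ℝ) := by exact_mod_cast h1
    _ ≤ K := Nat.floor_le hK

lemma ht_pos {P : ℤ[X]} (h : P ≠ 0) : 1 ≤ ht P := by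
  have h1 : P.leadingCoeff ≠ 0 := leadingCoeff_ne_zero.mpr h
  have h2 := coeff_le_ht P P.natDegree
  have h3 : 1 ≤ (P.coeff P.natDegree).natAbs := Int.natAbs_pos.mpr h1
  omega

/-- The coefficient vector. -/
def cv (n : ℕ) (P : ℤ[X]) : Fin (n + 1) → ℤ := fun i => P.coeff i

lemma aeval_eq_ev {n : ℕ} {P : ℤ[X]} (hP : P.natDegree ≤ n) (x : ℝ) :
    aeval x P = ev (toR (cv n P)) x := by
  rw [aeval_eq_sum_range' (Nat.lt_succ_of_le hP), ← Fin.sum_univ_eq_sum_range
    (fun i => P.coeff i • x ^ i) (n + 1)]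
  unfold ev
  apply Finset.sum_congr rfl
  intro i _
  simp [toR, cv]

lemma cv_injective {n : ℕ} {P P' : ℤ[X]} (hP : P.natDegree ≤ n) (hP' : P'.natDegree ≤ n)
    (h : cv n P = cv n P') : P = P' := by
  ext i
  rcases Nat.lt_or_ge n i with hi | hi
  · rw [coeff_eq_zero_of_natDegree_lt (by omega), coeff_eq_zero_of_natDegree_lt (by omega)]
  · exact congrFun h ⟨i, by omega⟩

/-- The pairs of the problem. -/
structure IsPair (n : ℕ) (β : ℝ) (P : ℤ[X]) : Prop where
  prim : P.IsPrimitive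
  deg : P.natDegree = n
  root : aeval β P = 0
  mdeg : (minpoly ℚ β).natDegree = n

lemma isPair_of_irreducible {n : ℕ} {β : ℝ} {P : ℤ[X]} (h1 : P.IsPrimitive)
    (h2 : P.natDegree = n) (h3 : aeval β P = 0) (h4 : Irreducible P) : IsPair n β P := by
  refine ⟨h1, h2, h3, ?_⟩
  have h5 : Irreducible (P.map (Int.castRingHom ℚ)) :=
    (IsPrimitive.Int.irreducible_iff_irreducible_map_cast h1).mp h4
  have h6 : aeval β (P.map (Int.castRingHom ℚ)) = 0 := by
    have : aeval β (P.map (algebraMap ℤ ℚ)) = aeval β P := aeval_map_algebraMap ℚ β P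
    rw [← h3, ← this]; rfl
  have h7 := minpoly.eq_of_irreducible h5 h6
  rw [← h7, natDegree_mul_C]
  · rw [natDegree_map_eq_of_injective (RingHom.injective_int _), h2]
  · exact inv_ne_zero (leadingCoeff_ne_zero.mpr h5.ne_zero)

lemma IsPair.ne_zero {n : ℕ} {β : ℝ} {P : ℤ[X]} (h : IsPair n β P) : P ≠ 0 := h.prim.ne_zero

lemma map_root {β : ℝ} {P : ℤ[X]} (h : aeval β P = 0) :
    aeval β (P.map (Int.castRingHom ℚ)) = 0 := by
  have : aeval β (P.map (algebraMap ℤ ℚ)) = aeval β P := aeval_map_algebraMap ℚ β P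
  rw [← h, ← this]; rfl

lemma pair_dvd {n : ℕ} {β : ℝ} {P P' : ℤ[X]} (h : IsPair n β P) (h' : IsPair n β P') : P ∣ P' := by
  rw [IsPrimitive.Int.dvd_iff_map_cast_dvd_map_cast P P' h.prim]
  have hinj : Function.Injective (Int.castRingHom ℚ) := RingHom.injective_int _
  have hne : P.map (Int.castRingHom ℚ) ≠ 0 := by
    rw [Ne, Polynomial.map_eq_zero_iff hinj]; exact h.ne_zero
  have h1 : Associated (minpoly ℚ β) (P.map (Int.castRingHom ℚ)) := by
    apply associated_of_dvd_of_natDegree_le (minpoly.dvd ℚ β (map_root h.root)) hne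
    rw [natDegree_map_eq_of_injective hinj, h.deg, h.mdeg]
  exact h1.symm.dvd.trans (minpoly.dvd ℚ β (map_root h'.root))

lemma pair_unique {n : ℕ} {β : ℝ} {P P' : ℤ[X]} (h : IsPair n β P) (h' : IsPair n β P') :
    P' = P ∨ P' = -P := by
  have h1 : Associated P P' := associated_of_dvd_dvd (pair_dvd h h') (pair_dvd h' h)
  obtain ⟨u, hu⟩ := h1
  obtain ⟨r, hr, hr2⟩ := Polynomial.isUnit_iff.mp u.isUnit
  rcases Int.isUnit_iff.mp hr with h2 | h2
  · left
    rw [← hu, ← hr2, h2]; simp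
  · right
    rw [← hu, ← hr2, h2]; simp

lemma ht_neg (P : ℤ[X]) : ht (-P) = ht P := by
  unfold ht
  simp

/-- Primitive polynomials of bounded height are finite in number. -/
lemma finite_ht (n H : ℕ) : {P : ℤ[X] | P.natDegree ≤ n ∧ ht P ≤ H}.Finite := by
  have h1 : (cv n '' {P : ℤ[X] | P.natDegree ≤ n ∧ ht P ≤ H}).Finite := by
    apply (Set.finite_Icc (fun _ : Fin (n + 1) => -(H : ℤ)) (fun _ => (H : ℤ))).subset
    rintro _ ⟨P, ⟨_, hP⟩, rfl⟩
    constructor
    · intro i
      have := coeff_le_ht P i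
      simp only [cv]
      omega
    · intro i
      have := coeff_le_ht P i
      simp only [cv]
      omega
  apply h1.of_finite_image
  intro P hP P' hP' h
  exact cv_injective hP.1 hP'.1 h

/-- The two irreducibility conditions after division by the content. -/
lemma eisenstein_two {n : ℕ} (hn : 1 ≤ n) {F : ℤ[X]} (hdeg : F.natDegree = n)
    (h1 : ¬ (2 : ℤ) ∣ F.coeff n) (h2 : ∀ i < n, (2 : ℤ) ∣ F.coeff i)
    (h3 : ¬ (4 : ℤ) ∣ F.coeff 0) :
    F.primPart.IsPrimitive ∧ F.primPart.natDegree = n ∧ Irreducible F.primPart ∧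
      (0 < F.content ∧ ∀ i, F.coeff i = F.content * F.primPart.coeff i) := by
  have hF : F ≠ 0 := by
    rintro rfl
    simp at h1
  have hprim := F.isPrimitive_primPart
  have hnat : F.primPart.natDegree = n := by rw [natDegree_primPart, hdeg]
  have hcoef : ∀ i, F.coeff i = F.content * F.primPart.coeff i := by
    intro i
    conv_lhs => rw [F.eq_C_content_mul_primPart]
    rw [coeff_C_mul]
  have hcont0 : F.content ≠ 0 := by
    rw [Ne, content_eq_zero_iff]; exact hF
  have hcontpos : 0 < F.content := by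
    have h4 : normalize F.content = F.content := normalize_content
    have h5 : 0 ≤ F.content := Int.nonneg_of_normalize_eq_self h4
    exact lt_of_le_of_ne h5 (Ne.symm hcont0)
  refine ⟨hprim, hnat, ?_, hcontpos, hcoef⟩
  have hc2 : ¬ (2 : ℤ) ∣ F.content := by
    intro h
    apply h1
    rw [hcoef n]
    exact Dvd.dvd.mul_right h _
  have hlead : ¬ (2 : ℤ) ∣ F.primPart.coeff n := by
    intro h
    apply h1
    rw [hcoef n]
    exact Dvd.dvd.mul_left h _
  have hothers : ∀ i < n, (2 : ℤ) ∣ F.primPart.coeff i := by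
    intro i hi
    have h4 := h2 i hi
    rw [hcoef i] at h4
    exact (Int.prime_two.dvd_mul.mp h4).resolve_left hc2
  have h0 : ¬ (4 : ℤ) ∣ F.primPart.coeff 0 := by
    intro h
    apply h3
    rw [hcoef 0]
    exact Dvd.dvd.mul_left h _
  have hprime : (Ideal.span {(2 : ℤ)}).IsPrime :=
    (Ideal.span_singleton_prime two_ne_zero).mpr Int.prime_two
  apply irreducible_of_eisenstein_criterion hprime
  · rw [Ideal.mem_span_singleton, leadingCoeff, hnat]
    exact hlead
  · intro i hi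
    rw [Ideal.mem_span_singleton]
    apply hothers
    rw [degree_eq_natDegree hprim.ne_zero, hnat] at hi
    exact_mod_cast hi
  · rw [← natDegree_pos_iff_degree_pos, hnat]
    omega
  · rw [Ideal.span_singleton_pow, Ideal.mem_span_singleton]
    norm_num
    exact h0
  · exact hprim

end Pool.Agent.Helper88
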