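import Pool.Agent.Helper88.Pack
import Pool.Agent.Helper88.Poly

set_option autoImplicit false

open Set Module Polynomial

namespace Pool.Agent.Helper88

lemma cv_ofFn {n : ℕ} (v : Fin (n + 1) → ℤ) : cv n (ofFn (n + 1) v) = v := by
  funext i
  unfold cv
  rw [ofFn_coeff_eq_val_of_lt v i.2]

lemma continuous_ev {N : ℕ} (v : Fin N → ℝ) : Continuous (fun t => ev v t) := by
  unfold ev
  apply continuous_finsetSum
  intro i _
  exact continuous_const.mul (continuous_pow _)

/-- Vectors close to a multiple of `(-x, 1, 0, …)` with prescribed residues. -/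
theorem exists_vector {n : ℕ} (hn : 2 ≤ n) {c Q x T L : ℝ} (hc : 0 < c) (hQ : 1 ≤ Q)
    (hG : Good1 n c Q x) (hT : 1 ≤ T) (hcT : c ≤ T) (hTQ : T ≤ Q ^ n)
    (hbig : 2 * (3 * T / c) ^ n < T ^ (n + 1)) :
    ∃ v : Fin (n + 1) → ℤ, (¬ (2 : ℤ) ∣ v (Fin.last n)) ∧ (∀ i, i ≠ Fin.last n → (2 : ℤ) ∣ v i) ∧
      (¬ (4 : ℤ) ∣ v 0) ∧ ∃ e : Fin (n + 1) → ℝ,
        Q ^ n * |ev e x| ≤ 4 * ((n + 1) * T) ∧
        (∀ i, i ≠ 0 → |e i| ≤ 4 * ((n + 1) * T) * Q) ∧
        (∀ t, ev (toR v) t = L * Q * (t - x) + ev e t) ∧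
        (∀ i : Fin (n + 1), (i : ℕ) = 1 → toR v i = L * Q + e i) ∧
        (∀ i : Fin (n + 1), 2 ≤ (i : ℕ) → toR v i = e i) := by
  have hQ0 : 0 < Q := by linarith
  have hlast0 : (Fin.last n) ≠ 0 := by
    intro h
    have := congrArg Fin.val h
    simp at this
    omega
  set one : Fin (n + 1) := ⟨1, by omega⟩ with hone
  have hone0 : one ≠ 0 := by
    intro h
    have := congrArg Fin.val h
    simp [hone] at this
  set p : Fin (n + 1) → ℝ := fun i => if i = 0 then -(L * Q * x) else if i = one then L * Q else 0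
    with hp
  set f : Fin (n + 1) → ℤ := fun i => if i = 0 then 2 else if i = Fin.last n then 1 else 0 with hf
  set q : Fin (n + 1) → ℝ := fun i => (p i - f i) / 4 with hq
  obtain ⟨R, hR1, hR2⟩ := rounding hc hQ hG hT hcT hTQ hbig q
  set v : Fin (n + 1) → ℤ := fun i => f i + 4 * R i with hv
  have hevp : ∀ t, ev p t = L * Q * (t - x) := by
    intro t
    unfold ev
    have hsum : ∑ i : Fin (n + 1), p i * t ^ (i : ℕ) = p 0 * t ^ 0 + p one * t ^ 1 := by
      rw [← Finset.add_sum_erase Finset.univ _ (Finset.mem_univ (0 : Fin (n + 1)))]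
      congr 1
      rw [Finset.sum_eq_single one]
      · intro i hi hi2
        have hi0 : i ≠ 0 := (Finset.mem_erase.mp hi).1
        simp only [hp, if_neg hi0, if_neg hi2, zero_mul]
      · intro h
        exact absurd (Finset.mem_erase.mpr ⟨hone0, Finset.mem_univ _⟩) h
    rw [hsum]
    simp only [hp, if_true, if_neg hone0]
    ring
  set e : Fin (n + 1) → ℝ := (-4 : ℝ) • (q - toR R) with he
  have hve : toR v = p + e := by
    funext i
    simp only [toR, hv, he, hq, Pi.add_apply, Pi.smul_apply, Pi.sub_apply, smul_eq_mul]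
    push_cast
    ring
  refine ⟨v, ?_, ?_, ?_, e, ?_, ?_, ?_, ?_, ?_⟩
  · simp only [hv, hf, if_neg hlast0, if_true]
    omega
  · intro i hi
    simp only [hv, hf, if_neg hi]
    split_ifs <;> omega
  · simp only [hv, hf, if_true]
    omega
  · rw [he, ev_smul, abs_mul]
    have : |(-4 : ℝ)| = 4 := by norm_num
    rw [this]
    calc Q ^ n * (4 * |ev (q - toR R) x|) = 4 * (Q ^ n * |ev (q - toR R) x|) := by ring
      _ ≤ 4 * ((n + 1) * T) := by gcongr
  · intro i hi
    have h1 : e i = (-4) * (q i - R i) := by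
      simp only [he, Pi.smul_apply, Pi.sub_apply, smul_eq_mul, toR]
    rw [h1, abs_mul]
    have : |(-4 : ℝ)| = 4 := by norm_num
    rw [this]
    have := hR2 i hi
    calc 4 * |q i - R i| ≤ 4 * ((n + 1) * T * Q) := by gcongr
      _ = 4 * ((n + 1) * T) * Q := by ring
  · intro t
    rw [hve, ev_add, hevp]
  · intro i hi
    have h1 : i = one := Fin.ext hi
    rw [hve, Pi.add_apply, h1]
    simp only [hp, if_neg hone0, if_true]
  · intro i hi
    have h1 : i ≠ one := by
      rintro rfl
      simp [hone] at hi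
    have h0 : i ≠ 0 := by
      rintro rfl
      simp at hi
    rw [hve, Pi.add_apply]
    simp only [hp, if_neg h0, if_neg h1, zero_add]

/-- Construction of an irreducible polynomial with a very close root. -/
theorem construct {n : ℕ} (hn : 2 ≤ n) {B c : ℝ} (hB : 1 ≤ B) (hc : 0 < c) :
    ∃ K₅ c₀ Q₁ : ℝ, 0 < K₅ ∧ 0 < c₀ ∧ 1 ≤ Q₁ ∧ ∀ Q, Q₁ ≤ Q → ∀ x, |x| + 1 ≤ B →
      Good1 n c Q x → ∃ P : ℤ[X], P.IsPrimitive ∧ P.natDegree = n ∧ Irreducible P ∧
        c₀ * Q ≤ ht P ∧ (ht P : ℝ) ≤ K₅ * Q ∧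
        (∃ α : ℝ, |x - α| ≤ (Q ^ (n + 1))⁻¹ ∧ aeval α P = 0) ∧
        StrictMonoOn (fun t : ℝ => aeval t P) (Icc (x - 1) (x + 1)) := by
  set T : ℝ := max (max 1 c) (2 * (3 / c) ^ n + 1) with hTdef
  have hT1 : 1 ≤ T := (le_max_left _ _).trans (le_max_left _ _)
  have hcT : c ≤ T := (le_max_right _ _).trans (le_max_left _ _)
  have hTbig : 2 * (3 / c) ^ n + 1 ≤ T := le_max_right _ _
  have hT0 : 0 < T := by linarith
  have hbig : 2 * (3 * T / c) ^ n < T ^ (n + 1) := by
    have h1 : 3 * T / c = (3 / c) * T := by ring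
    rw [h1, mul_pow, pow_succ]
    have h2 : 0 < T ^ n := by positivity
    have h3 : 2 * (3 / c) ^ n < T := by linarith
    have h4 := mul_lt_mul_of_pos_right h3 h2
    linarith
  set A : ℝ := 4 * ((n + 1) * T) with hA
  have hn0 : (0 : ℝ) ≤ n := Nat.cast_nonneg _
  have hA0 : 0 < A := by positivity
  have hCB := CB_pos n hB
  set C := CB n B with hC
  set L : ℝ := A * (C + 1) with hL
  have hL0 : 0 < L := by positivity
  set K₅ : ℝ := A + C * (L + A) with hK₅
  have hK₅0 : 0 < K₅ := by positivity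
  have hK₅' : L + A ≤ K₅ := by
    have h1 : 0 ≤ L + A := by positivity
    have h2 := mul_le_mul_of_nonneg_right hCB h1
    linarith
  set m₀ : ℝ := (A + K₅) / c with hm₀
  have hm₀0 : 0 < m₀ := by positivity
  refine ⟨K₅, A * C / m₀, T, hK₅0, by positivity, hT1, ?_⟩
  intro Q hQT x hx hG
  have hQ : 1 ≤ Q := hT1.trans hQT
  have hQ0 : 0 < Q := by linarith
  have hTQ : T ≤ Q ^ n := by
    calc T ≤ Q := hQT
      _ = Q ^ 1 := (pow_one Q).symm
      _ ≤ Q ^ n := pow_le_pow_right₀ hQ (by omega)
  obtain ⟨v, hv1, hv2, hv3, e, he1, he2, he3, he4, he5⟩ :=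
    exists_vector (L := L) hn hc hQ hG hT1 hcT hTQ hbig
  rw [← hA] at he1 he2
  set F : ℤ[X] := ofFn (n + 1) v with hF
  have hcoefF : ∀ i : Fin (n + 1), F.coeff i = v i := fun i => congrFun (cv_ofFn v) i
  have hFdeg : F.natDegree = n := by
    have h1 : F.natDegree < n + 1 := ofFn_natDegree_lt (by omega) v
    have h2 : F.coeff n ≠ 0 := by
      have := hcoefF (Fin.last n)
      rw [Fin.val_last] at this
      rw [this]
      intro h3
      apply hv1
      rw [h3]
      exact dvd_zero _
    have h3 := le_natDegree_of_ne_zero h2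
    omega
  obtain ⟨hP1, hP2, hP3, hg0, hcoef⟩ := eisenstein_two (F := F) (n := n) (by omega) hFdeg (by
    have := hcoefF (Fin.last n)
    rw [Fin.val_last] at this
    rw [this]
    exact hv1) (by
    intro i hi
    have := hcoefF ⟨i, by omega⟩
    simp only at this
    rw [this]
    apply hv2
    intro h
    have := congrArg Fin.val h
    simp at this
    omega) (by
    have := hcoefF 0
    rw [Fin.val_zero] at this
    rw [this]
    exact hv3)
  set P := F.primPart with hP
  set g : ℤ := F.content with hg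
  have hg1 : (1 : ℝ) ≤ g := by exact_mod_cast hg0
  have hg0' : (0 : ℝ) < g := by linarith
  have hcv : ∀ i : Fin (n + 1), (v i : ℝ) = g * (P.coeff i : ℝ) := by
    intro i
    rw [← hcoefF i, hcoef]
    push_cast
    rfl
  have hevP : ∀ t, ev (toR v) t = g * aeval t P := by
    intro t
    rw [aeval_eq_ev hP2.le]
    unfold ev
    rw [Finset.mul_sum]
    apply Finset.sum_congr rfl
    intro i _
    simp only [toR, cv]
    rw [hcv i]
    ring
  have hxB : |x| ≤ B := by linarith
  -- coefficient bounds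
  have hvle : ∀ i, i ≠ 0 → |toR v i| ≤ (L + A) * Q := by
    intro i hi
    have hi0 : (i : ℕ) ≠ 0 := by
      intro h
      exact hi (Fin.ext h)
    have h1 := he2 i hi
    have hLQ : 0 ≤ L * Q := by positivity
    by_cases hi1 : (i : ℕ) = 1
    · rw [he4 i hi1]
      refine (abs_add_le _ _).trans ?_
      rw [abs_of_nonneg hLQ]
      linarith
    · rw [he5 i (by omega)]
      linarith
  have hevx : |ev (toR v) x| ≤ A / Q ^ n := by
    rw [he3, sub_self, mul_zero, zero_add, le_div_iff₀ (by positivity)]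
    linarith
  have hevxA : |ev (toR v) x| ≤ A * Q := by
    refine hevx.trans ?_
    rw [div_le_iff₀ (by positivity)]
    have h1 : 1 ≤ Q * Q ^ n := one_le_mul_of_one_le_of_one_le hQ (one_le_pow₀ hQ)
    have h2 := mul_le_mul_of_nonneg_left h1 hA0.le
    linarith
  have hv0le : |toR v 0| ≤ K₅ * Q := by
    refine (coeff_zero_le hB hxB (by positivity) (toR v) hvle).trans ?_
    rw [← hC, hK₅]
    linarith
  have hvall : ∀ i, |toR v i| ≤ K₅ * Q := by
    intro i
    by_cases hi : i = 0
    · rw [hi]; exact hv0le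
    · refine (hvle i hi).trans ?_
      gcongr
  have hPcoef : ∀ i, |(P.coeff i : ℝ)| ≤ K₅ * Q := by
    intro i
    rcases Nat.lt_or_ge n i with hi | hi
    · rw [coeff_eq_zero_of_natDegree_lt (by omega)]
      simp
      positivity
    · have h1 := hvall ⟨i, by omega⟩
      simp only [toR] at h1
      rw [hcv ⟨i, by omega⟩, abs_mul, abs_of_pos hg0'] at h1
      have h2 : 0 ≤ |(P.coeff i : ℝ)| := abs_nonneg _
      simp only at h1
      have h3 := mul_le_mul_of_nonneg_right hg1 h2
      linarith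
  have hhtle : (ht P : ℝ) ≤ K₅ * Q := ht_le (by positivity) hPcoef
  -- the content is bounded
  have hgm : (g : ℝ) ≤ m₀ := by
    by_contra hcon
    push Not at hcon
    have hne : cv n P ≠ 0 := by
      intro h
      have h1 : P.coeff n = 0 := congrFun h (Fin.last n)
      have h2 : P.leadingCoeff = 0 := by rw [leadingCoeff, hP2]; exact h1
      exact hP1.ne_zero (leadingCoeff_eq_zero.mp h2)
    have hcg : A + K₅ < c * g := by
      rw [hm₀, div_lt_iff₀ hc] at hcon
      linarith
    have h1 : Q ^ n * |ev (toR (cv n P)) x| ≤ c := by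
      have h2 : ev (toR v) x = g * ev (toR (cv n P)) x := by
        rw [hevP, aeval_eq_ev hP2.le]
      have h3 : |ev (toR v) x| = g * |ev (toR (cv n P)) x| := by
        rw [h2, abs_mul, abs_of_pos hg0']
      have h4 : g * (Q ^ n * |ev (toR (cv n P)) x|) ≤ A := by
        have h5 : Q ^ n * |ev (toR v) x| ≤ A := by
          rw [le_div_iff₀ (by positivity)] at hevx
          linarith
        rw [h3] at h5
        linarith
      by_contra h6
      push Not at h6
      have h7 := mul_lt_mul_of_pos_left h6 hg0'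
      linarith
    obtain ⟨i, hi, hi2⟩ := hG _ hne h1
    have h7 := hvall i
    simp only [toR] at h7
    rw [hcv i, abs_mul, abs_of_pos hg0'] at h7
    simp only [cv] at hi2
    have h8 : g * (c * Q) < K₅ * Q := by
      calc g * (c * Q) < g * |(P.coeff i : ℝ)| := by
            apply mul_lt_mul_of_pos_left hi2 hg0'
        _ ≤ K₅ * Q := h7
    have h9 : g * c < K₅ := by
      by_contra h10
      push Not at h10
      have h11 := mul_le_mul_of_nonneg_right h10 hQ0.le
      linarith
    linarith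
  have hhtge : A * C / m₀ * Q ≤ ht P := by
    have h1 := he4 ⟨1, by omega⟩ rfl
    have h2 := he2 ⟨1, by omega⟩ (by
      intro h
      have := congrArg Fin.val h
      simp at this)
    have h3 : A * C * Q ≤ toR v ⟨1, by omega⟩ := by
      rw [h1]
      have := (abs_le.mp h2).1
      rw [hL]
      linarith
    have h4 : toR v ⟨1, by omega⟩ = g * (P.coeff 1 : ℝ) := hcv ⟨1, by omega⟩
    have h5 : (P.coeff 1 : ℝ) ≤ ht P := (le_abs_self _).trans (abs_coeff_le_ht P 1)
    have h6 : A * C * Q ≤ m₀ * ht P := by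
      rw [h4] at h3
      have h7 : (0 : ℝ) ≤ ht P := Nat.cast_nonneg _
      calc A * C * Q ≤ g * (P.coeff 1 : ℝ) := h3
        _ ≤ g * ht P := by gcongr
        _ ≤ m₀ * ht P := by gcongr
    rw [div_mul_eq_mul_div, div_le_iff₀ hm₀0]
    linarith
  -- monotonicity
  have hmono : ∀ s ∈ Icc (x - 1) (x + 1), ∀ t ∈ Icc (x - 1) (x + 1), s ≤ t →
      A * Q * (t - s) ≤ ev (toR v) t - ev (toR v) s := by
    intro s hs t htt hst
    have hsB : |s| ≤ B := by
      have h1 := abs_le.mp (le_refl |x|)
      rw [abs_le]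
      constructor
      · linarith [hs.1]
      · linarith [hs.2]
    have htB : |t| ≤ B := by
      have h1 := abs_le.mp (le_refl |x|)
      rw [abs_le]
      constructor
      · linarith [htt.1]
      · linarith [htt.2]
    have h1 := ev_diff hB hsB htB (by positivity : 0 ≤ A * Q) e he2
    rw [← hC, abs_of_nonneg (by linarith : 0 ≤ t - s)] at h1
    have h2 := (abs_le.mp h1).1
    rw [he3 t, he3 s]
    rw [hL]
    linarith
  have hh0 : 0 < (Q ^ (n + 1))⁻¹ := by positivity
  have hh1 : (Q ^ (n + 1))⁻¹ ≤ 1 := by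
    apply inv_le_one_of_one_le₀
    exact one_le_pow₀ hQ
  set h : ℝ := (Q ^ (n + 1))⁻¹ with hh
  have hAh : A * Q * h = A / Q ^ n := by
    rw [hh, pow_succ]
    field_simp
  refine ⟨P, hP1, hP2, hP3, hhtge, hhtle, ?_, ?_⟩
  · have hup := hmono x ⟨by linarith, by linarith⟩ (x + h) ⟨by linarith, by linarith⟩ (by linarith)
    have hdown := hmono (x - h) ⟨by linarith, by linarith⟩ x ⟨by linarith, by linarith⟩
      (by linarith)
    have h1 := abs_le.mp hevx
    have e1 : x + h - x = h := by ring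
    have e2 : x - (x - h) = h := by ring
    rw [e1, hAh] at hup
    rw [e2, hAh] at hdown
    have h2 : (0 : ℝ) ∈ Icc (ev (toR v) (x - h)) (ev (toR v) (x + h)) := by
      constructor <;> linarith [h1.1, h1.2]
    obtain ⟨α, hα, hα0⟩ := intermediate_value_Icc (by linarith : x - h ≤ x + h)
      (continuous_ev (toR v)).continuousOn h2
    refine ⟨α, ?_, ?_⟩
    · rw [abs_le]
      constructor <;> linarith [hα.1, hα.2]
    · simp only at hα0
      rw [hevP] at hα0
      exact (mul_eq_zero.mp hα0).resolve_left hg0'.ne'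
  · intro s hs t htt hst
    have h1 := hmono s hs t htt hst.le
    rw [hevP, hevP] at h1
    have h2 : 0 < A * Q * (t - s) := by
      have : 0 < t - s := by linarith
      positivity
    have h3 : 0 < (g : ℝ) * (aeval t P - aeval s P) := by linarith
    have h4 := (mul_pos_iff_of_pos_left hg0').mp h3
    simp only
    linarith

end Pool.Agent.Helper88
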