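import Pool.Agent.Helper88.Pack
import Pool.Agent.Helper88.Poly

set_option autoImplicit false

open Set Module Polynomial MeasureTheory Metric

namespace Pool.Agent.Helper88

/-- Counting integer vectors by boxes. -/
lemma ncard_le_boxes {n : ℕ} (S : Set ℤ[X]) (hS : ∀ P ∈ S, P.natDegree ≤ n)
    (φ : ℤ[X] → Fin (n + 1) → ℤ) (lo hi : Fin (n + 1) → ℤ)
    (hφ : ∀ P ∈ S, ∀ i, lo i ≤ φ P i ∧ φ P i ≤ hi i)
    (hinj : ∀ P ∈ S, ∀ P' ∈ S, φ P = φ P' → P = P') :
    S.ncard ≤ ∏ i, (hi i + 1 - lo i).toNat ∧ S.Finite := by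
  classical
  have hfin : (Set.Icc lo hi).Finite := Set.finite_Icc lo hi
  have hmaps : ∀ P ∈ S, φ P ∈ Set.Icc lo hi := by
    intro P hP
    exact ⟨fun i => (hφ P hP i).1, fun i => (hφ P hP i).2⟩
  have hinjOn : Set.InjOn φ S := fun P hP P' hP' h => hinj P hP P' hP' h
  refine ⟨?_, ?_⟩
  · have h1 := Set.ncard_le_ncard_of_injOn φ hmaps hinjOn hfin
    refine h1.trans ?_
    rw [← Finset.coe_Icc, Set.ncard_coe_finset, Pi.card_Icc]
    simp only [Int.card_Icc]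
    exact le_refl _
  · apply (hfin.subset (t := φ '' S) ?_).of_finite_image hinjOn
    rintro _ ⟨P, hP, rfl⟩
    exact hmaps P hP

/-- Trivial count. -/
lemma count_trivial (n : ℕ) {Y : ℝ} (hY : 0 ≤ Y) :
    (({P : ℤ[X] | P.natDegree ≤ n ∧ (ht P : ℝ) ≤ Y}.ncard : ℕ) : ℝ) ≤ (2 * Y + 1) ^ (n + 1) ∧
      {P : ℤ[X] | P.natDegree ≤ n ∧ (ht P : ℝ) ≤ Y}.Finite := by
  have h1 := ncard_le_boxes (n := n) {P : ℤ[X] | P.natDegree ≤ n ∧ (ht P : ℝ) ≤ Y}
    (fun P hP => hP.1) (cv n) (fun _ => -(⌊Y⌋₊ : ℤ)) (fun _ => (⌊Y⌋₊ : ℤ)) (by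
      intro P hP i
      have h2 := coeff_le_ht P i
      have h3 : ht P ≤ ⌊Y⌋₊ := (Nat.le_floor_iff hY).mpr hP.2
      simp only [cv]
      omega) (fun P hP P' hP' h => cv_injective hP.1 hP'.1 h)
  refine ⟨?_, h1.2⟩
  calc (({P : ℤ[X] | P.natDegree ≤ n ∧ (ht P : ℝ) ≤ Y}.ncard : ℕ) : ℝ)
      ≤ ((∏ _i : Fin (n + 1), ((⌊Y⌋₊ : ℤ) + 1 - -(⌊Y⌋₊ : ℤ)).toNat : ℕ) : ℝ) := by
        exact_mod_cast h1.1
    _ = (2 * (⌊Y⌋₊ : ℝ) + 1) ^ (n + 1) := by
        rw [Finset.prod_const, Finset.card_univ, Fintype.card_fin]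
        push_cast
        congr 1
        have h4 : ((⌊Y⌋₊ : ℤ) + 1 - -(⌊Y⌋₊ : ℤ)).toNat = 2 * ⌊Y⌋₊ + 1 := by omega
        rw [h4]
        push_cast
        ring
    _ ≤ (2 * Y + 1) ^ (n + 1) := by
        have := Nat.floor_le hY
        gcongr

lemma toNat_floor_le {a : ℝ} (ha : 0 ≤ a) :
    (((⌊a⌋ + 1 - ⌊-a⌋).toNat : ℕ) : ℝ) ≤ 2 * a + 2 := by
  have h1 : (0 : ℤ) ≤ ⌊a⌋ + 1 - ⌊-a⌋ := by
    have h2 : (0 : ℤ) ≤ ⌊a⌋ := Int.floor_nonneg.mpr ha
    have h3 : ⌊-a⌋ ≤ 0 := by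
      have : ⌊-a⌋ ≤ ⌊(0 : ℝ)⌋ := Int.floor_le_floor (by linarith)
      simpa using this
    omega
  have h2 : (((⌊a⌋ + 1 - ⌊-a⌋).toNat : ℕ) : ℝ) = ((⌊a⌋ + 1 - ⌊-a⌋ : ℤ) : ℝ) := by
    have := Int.toNat_of_nonneg h1
    exact_mod_cast this
  rw [h2]
  push_cast
  have h3 := Int.floor_le a
  have h4 := Int.lt_floor_add_one (-a)
  linarith

/-- Cell count near a good point. -/
lemma count_cells {n : ℕ} {c Q α Y Z : ℝ} (hc : 0 < c) (hQ : 1 ≤ Q) (hY : 0 ≤ Y) (hZ : 0 ≤ Z)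
    (hG : Good1 n c Q α) (S : Set ℤ[X]) (hS : ∀ P ∈ S, P.natDegree ≤ n ∧ (ht P : ℝ) ≤ Y ∧
      |aeval α P| ≤ Z) :
    ((S.ncard : ℕ) : ℝ) ≤ (2 * (Y / (c * Q)) + 2) ^ n * (2 * (Z * Q ^ n / c) + 2) ∧ S.Finite := by
  have hQ0 : 0 < Q := by linarith
  set φ : ℤ[X] → Fin (n + 1) → ℤ := fun P i =>
    if i = 0 then ⌊aeval α P * Q ^ n / c⌋ else ⌊(P.coeff i : ℝ) / (c * Q)⌋ with hφ
  set bd : Fin (n + 1) → ℝ := fun i => if i = 0 then Z * Q ^ n / c else Y / (c * Q) with hbd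
  have hbd0 : ∀ i, 0 ≤ bd i := by
    intro i
    simp only [hbd]
    split_ifs <;> positivity
  have h1 := ncard_le_boxes (n := n) S (fun P hP => (hS P hP).1) φ
    (fun i => ⌊-bd i⌋) (fun i => ⌊bd i⌋) (by
      intro P hP i
      obtain ⟨_, h2, h3⟩ := hS P hP
      by_cases hi : i = 0
      · simp only [hφ, hbd, if_pos hi]
        have h4 := abs_le.mp h3
        constructor
        · apply Int.floor_le_floor
          rw [← neg_div]
          apply div_le_div_of_nonneg_right _ hc.le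
          have := mul_le_mul_of_nonneg_right h4.1 (by positivity : (0 : ℝ) ≤ Q ^ n)
          linarith
        · apply Int.floor_le_floor
          apply div_le_div_of_nonneg_right _ hc.le
          exact mul_le_mul_of_nonneg_right h4.2 (by positivity : (0 : ℝ) ≤ Q ^ n)
      · simp only [hφ, hbd, if_neg hi]
        have h4 := abs_le.mp ((abs_coeff_le_ht P i).trans h2)
        constructor
        · apply Int.floor_le_floor
          rw [← neg_div]
          exact div_le_div_of_nonneg_right h4.1 (by positivity)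
        · apply Int.floor_le_floor
          exact div_le_div_of_nonneg_right h4.2 (by positivity)) (by
      intro P hP P' hP' h
      by_contra hne
      have hvne : cv n P - cv n P' ≠ 0 := by
        intro h2
        exact hne (cv_injective (hS P hP).1 (hS P' hP').1 (sub_eq_zero.mp h2))
      have h0 := congrFun h 0
      simp only [hφ, if_true] at h0
      have h2 : |aeval α P * Q ^ n / c - aeval α P' * Q ^ n / c| < 1 :=
        Int.abs_sub_lt_one_of_floor_eq_floor h0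
      have h3 : Q ^ n * |ev (toR (cv n P - cv n P')) α| ≤ c := by
        rw [toR_sub, ev_sub, ← aeval_eq_ev (hS P hP).1, ← aeval_eq_ev (hS P' hP').1]
        have h4 : aeval α P * Q ^ n / c - aeval α P' * Q ^ n / c =
            (Q ^ n / c) * (aeval α P - aeval α P') := by ring
        rw [h4, abs_mul, abs_of_pos (by positivity : (0 : ℝ) < Q ^ n / c),
          div_mul_eq_mul_div, div_lt_one hc] at h2
        exact h2.le
      obtain ⟨i, hi, hi2⟩ := hG _ hvne h3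
      have h5 := congrFun h i
      simp only [hφ, if_neg hi] at h5
      have h6 : |(P.coeff i : ℝ) / (c * Q) - (P'.coeff i : ℝ) / (c * Q)| < 1 :=
        Int.abs_sub_lt_one_of_floor_eq_floor h5
      rw [← sub_div, abs_div, abs_of_pos (by positivity : (0 : ℝ) < c * Q),
        div_lt_one (by positivity)] at h6
      have h7 : (((cv n P - cv n P') i : ℤ) : ℝ) = (P.coeff i : ℝ) - (P'.coeff i : ℝ) := by
        simp [cv]
      rw [h7] at hi2
      linarith)
  refine ⟨?_, h1.2⟩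
  have h2 : ((S.ncard : ℕ) : ℝ) ≤ ((∏ i, (⌊bd i⌋ + 1 - ⌊-bd i⌋).toNat : ℕ) : ℝ) := by
    exact_mod_cast h1.1
  refine h2.trans ?_
  push_cast
  rw [Fin.prod_univ_succ, mul_comm]
  have h3 : ((((⌊bd 0⌋ + 1 - ⌊-bd 0⌋).toNat : ℕ) : ℝ)) ≤ 2 * (Z * Q ^ n / c) + 2 := by
    have := toNat_floor_le (hbd0 0)
    simpa [hbd] using this
  have h4 : ∏ i : Fin n, ((((⌊bd i.succ⌋ + 1 - ⌊-bd i.succ⌋).toNat : ℕ) : ℝ)) ≤
      (2 * (Y / (c * Q)) + 2) ^ n := by
    calc ∏ i : Fin n, ((((⌊bd i.succ⌋ + 1 - ⌊-bd i.succ⌋).toNat : ℕ) : ℝ))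
        ≤ ∏ _i : Fin n, (2 * (Y / (c * Q)) + 2) := by
          apply Finset.prod_le_prod
          · intro i _; positivity
          · intro i _
            have := toNat_floor_le (hbd0 i.succ)
            simpa [hbd, Fin.succ_ne_zero] using this
      _ = (2 * (Y / (c * Q)) + 2) ^ n := by simp
  apply mul_le_mul h4 h3 (by positivity) (by positivity)

open Classical in
/-- The real roots as a finite set. -/
noncomputable def rts (P : ℤ[X]) : Finset ℝ := (P.aroots ℝ).toFinset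

lemma rts_card {n : ℕ} {P : ℤ[X]} (hP : P.natDegree ≤ n) : (rts P).card ≤ n := by
  unfold rts
  refine (Multiset.toFinset_card_le _).trans ?_
  refine (Polynomial.card_roots' _).trans ?_
  exact (natDegree_map_le).trans hP

lemma mem_rts {P : ℤ[X]} (hP : P ≠ 0) {β : ℝ} (hβ : aeval β P = 0) : β ∈ rts P := by
  unfold rts
  rw [Multiset.mem_toFinset, mem_aroots]
  exact ⟨hP, hβ⟩

/-- Measure of balls around the roots of finitely many polynomials. -/
lemma volume_roots {n : ℕ} (S : Set ℤ[X]) (hfin : S.Finite) (hS : ∀ P ∈ S, P ≠ 0 ∧ P.natDegree ≤ n)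
    {r : ℝ} (hr : 0 ≤ r) :
    volume {x : ℝ | ∃ P ∈ S, ∃ β, aeval β P = 0 ∧ |x - β| < r} ≤
      ENNReal.ofReal (S.ncard * n * (2 * r)) := by
  classical
  set F := hfin.toFinset with hF
  have hsub : {x : ℝ | ∃ P ∈ S, ∃ β, aeval β P = 0 ∧ |x - β| < r} ⊆
      ⋃ P ∈ F, ⋃ β ∈ rts P, ball β r := by
    rintro x ⟨P, hP, β, hβ, hx⟩
    simp only [mem_iUnion]
    refine ⟨P, hfin.mem_toFinset.mpr hP, β, mem_rts (hS P hP).1 hβ, ?_⟩
    rw [mem_ball, Real.dist_eq]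
    exact hx
  refine (measure_mono hsub).trans ?_
  calc volume (⋃ P ∈ F, ⋃ β ∈ rts P, ball β r)
      ≤ ∑ P ∈ F, volume (⋃ β ∈ rts P, ball β r) := measure_biUnion_finset_le _ _
    _ ≤ ∑ P ∈ F, ∑ β ∈ rts P, volume (ball β r) :=
        Finset.sum_le_sum (fun P _ => measure_biUnion_finset_le _ _)
    _ ≤ ∑ _P ∈ F, (n : ENNReal) * ENNReal.ofReal (2 * r) := by
        apply Finset.sum_le_sum
        intro P hP
        simp only [Real.volume_ball, Finset.sum_const, nsmul_eq_mul]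
        gcongr
        exact rts_card (hS P (hfin.mem_toFinset.mp hP)).2
    _ = ENNReal.ofReal (S.ncard * n * (2 * r)) := by
        have h1 : ENNReal.ofReal ((F.card : ℝ) * (n * (2 * r))) =
            (F.card : ENNReal) * ((n : ENNReal) * ENNReal.ofReal (2 * r)) := by
          rw [ENNReal.ofReal_mul (Nat.cast_nonneg _), ENNReal.ofReal_mul (Nat.cast_nonneg _),
            ENNReal.ofReal_natCast, ENNReal.ofReal_natCast]
        rw [Finset.sum_const, nsmul_eq_mul, Set.ncard_eq_toFinset_card S hfin, ← hF, mul_assoc, h1]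

end Pool.Agent.Helper88
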