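import Pool.Agent.Helper88.Count

set_option autoImplicit false

open Set Module Polynomial MeasureTheory Metric

namespace Pool.Agent.Helper88

/-- Ratio of the geometric series. -/
noncomputable def qq (m : ℕ) (w : ℝ) : ℝ := 2 ^ m * (2 : ℝ) ^ (-w)

lemma qq_pos (m : ℕ) (w : ℝ) : 0 < qq m w := by unfold qq; positivity

lemma qq_lt_one {m : ℕ} {w : ℝ} (h : (m : ℝ) < w) : qq m w < 1 := by
  unfold qq
  rw [← Real.rpow_natCast, ← Real.rpow_add (by norm_num)]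
  apply Real.rpow_lt_one_of_one_lt_of_neg (by norm_num)
  linarith

/-- Dyadic sum constant. -/
noncomputable def SS (m : ℕ) (w : ℝ) : ℝ := 2 ^ m * (1 - qq m w)⁻¹

lemma SS_pos {m : ℕ} {w : ℝ} (h : (m : ℝ) < w) : 0 < SS m w := by
  unfold SS
  have := qq_lt_one h
  have : 0 < 1 - qq m w := by linarith
  positivity

/-- Dyadic summation over pairs. -/
theorem dyadic {n : ℕ} {w : ℝ} (hw : (n : ℝ) + 1 < w) (S : ℝ → ℤ[X] → Prop)
    (hS : ∀ β P, S β P → P ≠ 0 ∧ P.natDegree ≤ n ∧ aeval β P = 0) {c X₀ A A' : ℝ} (hc : 0 < c)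
    (hX₀ : 0 < X₀) (hX : ∀ β P, S β P → X₀ ≤ ht P) (hA : 0 ≤ A) (hA' : 0 ≤ A')
    (hcount : ∀ Y, X₀ ≤ Y → (({P : ℤ[X] | ∃ β, S β P ∧ (ht P : ℝ) ≤ Y}.ncard : ℕ) : ℝ) ≤
      A * (Y / X₀) ^ (n + 1) + A' * (Y / X₀) ^ n) :
    volume {x : ℝ | ∃ β P, S β P ∧ |x - β| < c * (ht P : ℝ) ^ (-w)} ≤
      ENNReal.ofReal (n * (2 * (c * X₀ ^ (-w))) * (A * SS (n + 1) w + A' * SS n w)) := by
  have hw0 : 0 < w := by
    have : (0 : ℝ) ≤ n := Nat.cast_nonneg _
    linarith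
  set Pk : ℕ → Set ℤ[X] := fun k => {P | ∃ β, S β P ∧ (ht P : ℝ) ≤ 2 ^ (k + 1) * X₀} with hPk
  set r : ℕ → ℝ := fun k => c * (2 ^ k * X₀) ^ (-w) with hr
  set U : ℕ → Set ℝ := fun k => {x : ℝ | ∃ P ∈ Pk k, ∃ β, aeval β P = 0 ∧ |x - β| < r k} with hU
  have hfin : ∀ k, (Pk k).Finite := by
    intro k
    apply (count_trivial n (Y := 2 ^ (k + 1) * X₀) (by positivity)).2.subset
    rintro P ⟨β, hβ, hP⟩
    exact ⟨(hS β P hβ).2.1, hP⟩
  have hsub : {x : ℝ | ∃ β P, S β P ∧ |x - β| < c * (ht P : ℝ) ^ (-w)} ⊆ ⋃ k, U k := by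
    rintro x ⟨β, P, hβP, hx⟩
    have h1 : 1 ≤ (ht P : ℝ) / X₀ := by
      rw [one_le_div hX₀]; exact hX β P hβP
    obtain ⟨k, hk1, hk2⟩ := exists_nat_pow_near h1 (one_lt_two)
    rw [mem_iUnion]
    refine ⟨k, P, ⟨β, hβP, ?_⟩, β, (hS β P hβP).2.2, lt_of_lt_of_le hx ?_⟩
    · rw [div_lt_iff₀ hX₀] at hk2
      exact hk2.le
    · rw [le_div_iff₀ hX₀] at hk1
      simp only [hr]
      apply mul_le_mul_of_nonneg_left _ hc.le
      exact Real.rpow_le_rpow_of_nonpos (by positivity) hk1 (by linarith)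
  have hq1 := qq_lt_one (m := n + 1) (w := w) (by push_cast; exact hw)
  have hq2 := qq_lt_one (m := n) (w := w) (by linarith)
  have hq1' := qq_pos (n + 1) w
  have hq2' := qq_pos n w
  set a : ℕ → ℝ := fun k => n * (2 * (c * X₀ ^ (-w))) *
    (A * (2 ^ (n + 1) * qq (n + 1) w ^ k) + A' * (2 ^ n * qq n w ^ k)) with ha
  have ha0 : ∀ k, 0 ≤ a k := by
    intro k
    simp only [ha]
    positivity
  have hrk : ∀ k, r k = c * X₀ ^ (-w) * ((2 : ℝ) ^ (-w)) ^ k := by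
    intro k
    simp only [hr]
    rw [Real.mul_rpow (by positivity) hX₀.le]
    have h1 : ((2 : ℝ) ^ k) ^ (-w) = ((2 : ℝ) ^ (-w)) ^ k := by
      rw [← Real.rpow_natCast, ← Real.rpow_natCast, ← Real.rpow_mul (by norm_num),
        ← Real.rpow_mul (by norm_num), mul_comm]
    rw [h1]; ring
  have hUk : ∀ k, volume (U k) ≤ ENNReal.ofReal (a k) := by
    intro k
    have hrk0 : 0 ≤ r k := by
      rw [hrk]; positivity
    refine (volume_roots (Pk k) (hfin k) (n := n) (fun P hP => ?_) hrk0).trans ?_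
    · obtain ⟨β, hβ, _⟩ := hP
      exact ⟨(hS β P hβ).1, (hS β P hβ).2.1⟩
    · apply ENNReal.ofReal_le_ofReal
      have h1 := hcount (2 ^ (k + 1) * X₀) (by
        have : (1 : ℝ) ≤ 2 ^ (k + 1) := one_le_pow₀ (by norm_num)
        nlinarith)
      have h2 : (2 ^ (k + 1) * X₀) / X₀ = (2 : ℝ) ^ (k + 1) := by field_simp
      rw [h2] at h1
      calc (((Pk k).ncard : ℕ) : ℝ) * n * (2 * r k)
          ≤ (A * (2 ^ (k + 1)) ^ (n + 1) + A' * (2 ^ (k + 1)) ^ n) * n * (2 * r k) := by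
            gcongr
        _ = a k := by
            rw [hrk]
            simp only [ha, qq]
            rw [mul_pow, mul_pow, ← pow_mul, ← pow_mul, ← pow_mul, ← pow_mul]
            have e1 : (2 : ℝ) ^ ((k + 1) * (n + 1)) = 2 ^ (n + 1) * 2 ^ ((n + 1) * k) := by
              rw [← pow_add]; congr 1; ring
            have e2 : (2 : ℝ) ^ ((k + 1) * n) = 2 ^ n * 2 ^ (n * k) := by
              rw [← pow_add]; congr 1; ring
            rw [e1, e2]
            ring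
  have hsum : HasSum a (n * (2 * (c * X₀ ^ (-w))) * (A * SS (n + 1) w + A' * SS n w)) := by
    simp only [ha, SS]
    apply HasSum.mul_left
    apply HasSum.add
    · apply HasSum.mul_left
      apply HasSum.mul_left
      exact hasSum_geometric_of_lt_one hq1'.le hq1
    · apply HasSum.mul_left
      apply HasSum.mul_left
      exact hasSum_geometric_of_lt_one hq2'.le hq2
  calc volume {x : ℝ | ∃ β P, S β P ∧ |x - β| < c * (ht P : ℝ) ^ (-w)}
      ≤ volume (⋃ k, U k) := measure_mono hsub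
    _ ≤ ∑' k, volume (U k) := measure_iUnion_le _
    _ ≤ ∑' k, ENNReal.ofReal (a k) := ENNReal.tsum_le_tsum hUk
    _ = ENNReal.ofReal (∑' k, a k) := (ENNReal.ofReal_tsum_of_nonneg ha0 hsum.summable).symm
    _ = ENNReal.ofReal (n * (2 * (c * X₀ ^ (-w))) * (A * SS (n + 1) w + A' * SS n w)) := by
        rw [hsum.tsum_eq]

/-- Large heights contribute little. -/
theorem tail_small {n : ℕ} {w : ℝ} (hw : (n : ℝ) + 1 < w) {c : ℝ} (hc : 0 < c) {δ : ℝ}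
    (hδ : 0 < δ) : ∃ H₀ : ℕ, volume {x : ℝ | ∃ β P, (IsPair n β P ∧ H₀ ≤ ht P) ∧
      |x - β| < c * (ht P : ℝ) ^ (-w)} ≤ ENNReal.ofReal δ := by
  have hn0 : (0 : ℝ) ≤ n := Nat.cast_nonneg _
  have hw0 : 0 < w := by linarith
  have hSS := SS_pos (m := n + 1) (w := w) (by push_cast; exact hw)
  set C : ℝ := n * (2 * c) * (3 ^ (n + 1) * SS (n + 1) w) with hC
  have htend : Filter.Tendsto (fun X : ℝ => C * X ^ (-(w - (n + 1)))) Filter.atTop (nhds (C * 0)) :=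
    (tendsto_rpow_neg_atTop (by linarith : 0 < w - (n + 1))).const_mul C
  rw [mul_zero] at htend
  have htend2 := htend.comp tendsto_natCast_atTop_atTop
  have hev := (htend2.eventually (gt_mem_nhds hδ)).and (Filter.eventually_ge_atTop 1)
  obtain ⟨H₀, hH₀, hH₀1⟩ := hev.exists
  refine ⟨H₀, ?_⟩
  have hH₀pos : (0 : ℝ) < (H₀ : ℝ) := by
    have : 0 < H₀ := hH₀1
    exact_mod_cast this
  have hH₀1' : (1 : ℝ) ≤ (H₀ : ℝ) := by exact_mod_cast hH₀1
  have hdy := dyadic hw (fun β P => IsPair n β P ∧ H₀ ≤ ht P)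
    (fun β P h => ⟨h.1.ne_zero, h.1.deg.le, h.1.root⟩) hc hH₀pos
    (fun β P h => by exact_mod_cast h.2) (A := (3 * (H₀ : ℝ)) ^ (n + 1)) (A' := 0)
    (by positivity) (le_refl _) (by
      intro Y hY
      have hY0 : 0 ≤ Y := by linarith
      have h1 := count_trivial n hY0
      have h2 : (({P : ℤ[X] | ∃ β, (IsPair n β P ∧ H₀ ≤ ht P) ∧ (ht P : ℝ) ≤ Y}.ncard : ℕ) : ℝ) ≤
          (({P : ℤ[X] | P.natDegree ≤ n ∧ (ht P : ℝ) ≤ Y}.ncard : ℕ) : ℝ) := by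
        have := Set.ncard_le_ncard (s := {P : ℤ[X] | ∃ β, (IsPair n β P ∧ H₀ ≤ ht P) ∧
          (ht P : ℝ) ≤ Y}) (t := {P : ℤ[X] | P.natDegree ≤ n ∧ (ht P : ℝ) ≤ Y}) (by
            rintro P ⟨β, ⟨h3, _⟩, h4⟩
            exact ⟨h3.deg.le, h4⟩) h1.2
        exact_mod_cast this
      refine h2.trans (h1.1.trans ?_)
      rw [zero_mul, add_zero, ← mul_pow]
      apply pow_le_pow_left₀ (by linarith)
      have h5 : 3 * (H₀ : ℝ) * (Y / H₀) = 3 * Y := by field_simp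
      rw [h5]
      linarith)
  refine hdy.trans (ENNReal.ofReal_le_ofReal ?_)
  have h6 : (n : ℝ) * (2 * (c * (H₀ : ℝ) ^ (-w))) * ((3 * (H₀ : ℝ)) ^ (n + 1) * SS (n + 1) w +
      0 * SS n w) = C * ((H₀ : ℝ) ^ (-(w - (n + 1)))) := by
    have h7 : (H₀ : ℝ) ^ (-(w - (n + 1))) = (H₀ : ℝ) ^ (-w) * (H₀ : ℝ) ^ (n + 1) := by
      rw [← Real.rpow_natCast, ← Real.rpow_add hH₀pos]
      congr 1
      push_cast
      ring
    rw [h7, hC, mul_pow]
    ring
  rw [h6]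
  exact hH₀.le

end Pool.Agent.Helper88
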