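import Pool.Agent.Helper88.Veronese

set_option autoImplicit false

open Set Module

namespace Pool.Agent.Helper88

/-- The derivative evaluation. -/
noncomputable def evd {N : ℕ} (v : Fin N → ℝ) (x : ℝ) : ℝ :=
  ∑ i : Fin N, v i * (((i : ℕ) : ℝ) * x ^ ((i : ℕ) - 1))

lemma pow_diff {B x y : ℝ} (hB : 1 ≤ B) (hx : |x| ≤ B) (hy : |y| ≤ B) (i : ℕ) :
    |y ^ i - x ^ i| ≤ i * B ^ i * |y - x| := by
  induction i with
  | zero => simp
  | succ i ih =>
    have h1 : y ^ (i + 1) - x ^ (i + 1) = y * (y ^ i - x ^ i) + x ^ i * (y - x) := by ring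
    rw [h1]
    have hB0 : 0 ≤ B := by linarith
    have h2 : |x ^ i| ≤ B ^ i := by
      rw [abs_pow]; exact pow_le_pow_left₀ (abs_nonneg _) hx i
    calc |y * (y ^ i - x ^ i) + x ^ i * (y - x)|
        ≤ |y * (y ^ i - x ^ i)| + |x ^ i * (y - x)| := abs_add_le _ _
      _ = |y| * |y ^ i - x ^ i| + |x ^ i| * |y - x| := by rw [abs_mul, abs_mul]
      _ ≤ B * (i * B ^ i * |y - x|) + B ^ i * |y - x| := by
          apply add_le_add
          · exact mul_le_mul hy ih (abs_nonneg _) hB0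
          · exact mul_le_mul_of_nonneg_right h2 (abs_nonneg _)
      _ ≤ B * (i * B ^ i * |y - x|) + (B * B ^ i) * |y - x| := by
          gcongr
          have : 0 ≤ B ^ i := by positivity
          nlinarith
      _ = ((i + 1 : ℕ) : ℝ) * B ^ (i + 1) * |y - x| := by push_cast; ring

lemma pow_taylor {B x y : ℝ} (hB : 1 ≤ B) (hx : |x| ≤ B) (hy : |y| ≤ B) (i : ℕ) :
    |y ^ i - x ^ i - (y - x) * (i * x ^ (i - 1))| ≤ (i : ℝ) ^ 2 * B ^ i * |y - x| ^ 2 := by
  induction i with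
  | zero => simp
  | succ i ih =>
    have hB0 : 0 ≤ B := by linarith
    have h1 : y ^ (i + 1) - x ^ (i + 1) - (y - x) * (((i + 1 : ℕ) : ℝ) * x ^ (i + 1 - 1)) =
        y * (y ^ i - x ^ i - (y - x) * (i * x ^ (i - 1))) +
          (i * x ^ (i - 1)) * (y - x) ^ 2 := by
      rcases Nat.eq_zero_or_pos i with h | h
      · subst h; simp
      · obtain ⟨k, rfl⟩ : ∃ k, i = k + 1 := ⟨i - 1, by omega⟩
        have e1 : k + 1 + 1 - 1 = k + 1 := by omega
        have e2 : k + 1 - 1 = k := by omega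
        rw [e1, e2]
        push_cast
        ring
    rw [h1]
    have h2 : |x ^ (i - 1)| ≤ B ^ (i + 1) := by
      rw [abs_pow]
      calc |x| ^ (i - 1) ≤ B ^ (i - 1) := pow_le_pow_left₀ (abs_nonneg _) hx _
        _ ≤ B ^ (i + 1) := pow_le_pow_right₀ hB (by omega)
    calc |y * (y ^ i - x ^ i - (y - x) * (i * x ^ (i - 1))) + (i * x ^ (i - 1)) * (y - x) ^ 2|
        ≤ |y * (y ^ i - x ^ i - (y - x) * (i * x ^ (i - 1)))| +
          |(i * x ^ (i - 1)) * (y - x) ^ 2| := abs_add_le _ _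
      _ = |y| * |y ^ i - x ^ i - (y - x) * (i * x ^ (i - 1))| +
          i * |x ^ (i - 1)| * |y - x| ^ 2 := by
          rw [abs_mul, abs_mul, abs_mul, abs_pow (y - x), Nat.abs_cast]
      _ ≤ B * ((i : ℝ) ^ 2 * B ^ i * |y - x| ^ 2) + i * B ^ (i + 1) * |y - x| ^ 2 := by
          apply add_le_add
          · exact mul_le_mul hy ih (abs_nonneg _) hB0
          · gcongr
      _ ≤ ((i + 1 : ℕ) : ℝ) ^ 2 * B ^ (i + 1) * |y - x| ^ 2 := by
          have h3 : 0 ≤ B ^ (i + 1) * |y - x| ^ 2 := by positivity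
          have h4 : (0 : ℝ) ≤ i := Nat.cast_nonneg _
          push_cast
          have h5 : B * ((i : ℝ) ^ 2 * B ^ i * |y - x| ^ 2) + i * B ^ (i + 1) * |y - x| ^ 2 =
              ((i : ℝ) ^ 2 + i) * (B ^ (i + 1) * |y - x| ^ 2) := by ring
          rw [h5, mul_assoc]
          apply mul_le_mul_of_nonneg_right _ h3
          nlinarith

/-- The universal constant in the estimates. -/
noncomputable def CB (n : ℕ) (B : ℝ) : ℝ := ((n : ℝ) + 1) ^ 3 * B ^ n

lemma CB_pos (n : ℕ) {B : ℝ} (hB : 1 ≤ B) : 1 ≤ CB n B := by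
  unfold CB
  have h1 : (1 : ℝ) ≤ ((n : ℝ) + 1) ^ 3 := one_le_pow₀ (by
    have : (0 : ℝ) ≤ n := Nat.cast_nonneg _
    linarith)
  have h2 : (1 : ℝ) ≤ B ^ n := one_le_pow₀ hB
  nlinarith

lemma ev_diff {n : ℕ} {B x y h : ℝ} (hB : 1 ≤ B) (hx : |x| ≤ B) (hy : |y| ≤ B) (hh : 0 ≤ h)
    (v : Fin (n + 1) → ℝ) (hv : ∀ i, i ≠ 0 → |v i| ≤ h) :
    |ev v y - ev v x| ≤ CB n B * h * |y - x| := by
  have h1 : ev v y - ev v x = ∑ i : Fin (n + 1), v i * (y ^ (i : ℕ) - x ^ (i : ℕ)) := by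
    unfold ev
    rw [← Finset.sum_sub_distrib]
    apply Finset.sum_congr rfl
    intro i _
    ring
  rw [h1]
  calc |∑ i : Fin (n + 1), v i * (y ^ (i : ℕ) - x ^ (i : ℕ))|
      ≤ ∑ i : Fin (n + 1), |v i * (y ^ (i : ℕ) - x ^ (i : ℕ))| := Finset.abs_sum_le_sum_abs _ _
    _ ≤ ∑ _i : Fin (n + 1), h * (((n : ℝ) + 1) * B ^ n * |y - x|) := by
        apply Finset.sum_le_sum
        intro i _
        rw [abs_mul]
        by_cases hi : i = 0
        · rw [hi]
          simp only [Fin.val_zero, pow_zero, sub_self, abs_zero, mul_zero]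
          positivity
        · apply mul_le_mul (hv i hi) _ (abs_nonneg _) hh
          refine (pow_diff hB hx hy i).trans ?_
          have hin : ((i : ℕ) : ℝ) ≤ (n : ℝ) + 1 := by
            have := i.2
            exact_mod_cast this.le
          have hpow : B ^ (i : ℕ) ≤ B ^ n := pow_le_pow_right₀ hB (by have := i.2; omega)
          gcongr
    _ = ((n : ℝ) + 1) ^ 2 * B ^ n * h * |y - x| := by
        rw [Finset.sum_const, Finset.card_univ, Fintype.card_fin, nsmul_eq_mul]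
        push_cast; ring
    _ ≤ CB n B * h * |y - x| := by
        unfold CB
        gcongr
        · have : (0 : ℝ) ≤ n := Nat.cast_nonneg _
          linarith
        · norm_num

lemma evd_le {n : ℕ} {B x h : ℝ} (hB : 1 ≤ B) (hx : |x| ≤ B) (hh : 0 ≤ h)
    (v : Fin (n + 1) → ℝ) (hv : ∀ i, i ≠ 0 → |v i| ≤ h) :
    |evd v x| ≤ CB n B * h := by
  unfold evd
  calc |∑ i : Fin (n + 1), v i * (((i : ℕ) : ℝ) * x ^ ((i : ℕ) - 1))|
      ≤ ∑ i : Fin (n + 1), |v i * (((i : ℕ) : ℝ) * x ^ ((i : ℕ) - 1))| :=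
        Finset.abs_sum_le_sum_abs _ _
    _ ≤ ∑ _i : Fin (n + 1), h * (((n : ℝ) + 1) * B ^ n) := by
        apply Finset.sum_le_sum
        intro i _
        rw [abs_mul]
        by_cases hi : i = 0
        · rw [hi]
          simp only [Fin.val_zero, Nat.cast_zero, zero_mul, abs_zero, mul_zero]
          positivity
        · apply mul_le_mul (hv i hi) _ (abs_nonneg _) hh
          rw [abs_mul, Nat.abs_cast, abs_pow]
          have hin : ((i : ℕ) : ℝ) ≤ (n : ℝ) + 1 := by
            have := i.2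
            exact_mod_cast this.le
          have hpow : |x| ^ ((i : ℕ) - 1) ≤ B ^ n :=
            (pow_le_pow_left₀ (abs_nonneg _) hx _).trans
              (pow_le_pow_right₀ hB (by have := i.2; omega))
          gcongr
    _ = ((n : ℝ) + 1) ^ 2 * B ^ n * h := by
        rw [Finset.sum_const, Finset.card_univ, Fintype.card_fin, nsmul_eq_mul]
        push_cast; ring
    _ ≤ CB n B * h := by
        unfold CB
        gcongr
        · have : (0 : ℝ) ≤ n := Nat.cast_nonneg _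
          linarith
        · norm_num

lemma ev_taylor {n : ℕ} {B x y h : ℝ} (hB : 1 ≤ B) (hx : |x| ≤ B) (hy : |y| ≤ B) (hh : 0 ≤ h)
    (v : Fin (n + 1) → ℝ) (hv : ∀ i, i ≠ 0 → |v i| ≤ h) :
    |ev v y - ev v x - (y - x) * evd v x| ≤ CB n B * h * |y - x| ^ 2 := by
  have h1 : ev v y - ev v x - (y - x) * evd v x = ∑ i : Fin (n + 1),
      v i * (y ^ (i : ℕ) - x ^ (i : ℕ) - (y - x) * (((i : ℕ) : ℝ) * x ^ ((i : ℕ) - 1))) := by
    unfold ev evd
    rw [Finset.mul_sum, ← Finset.sum_sub_distrib, ← Finset.sum_sub_distrib]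
    apply Finset.sum_congr rfl
    intro i _
    ring
  rw [h1]
  calc |∑ i : Fin (n + 1), v i * (y ^ (i : ℕ) - x ^ (i : ℕ) -
        (y - x) * (((i : ℕ) : ℝ) * x ^ ((i : ℕ) - 1)))|
      ≤ ∑ i : Fin (n + 1), |v i * (y ^ (i : ℕ) - x ^ (i : ℕ) -
        (y - x) * (((i : ℕ) : ℝ) * x ^ ((i : ℕ) - 1)))| := Finset.abs_sum_le_sum_abs _ _
    _ ≤ ∑ _i : Fin (n + 1), h * (((n : ℝ) + 1) ^ 2 * B ^ n * |y - x| ^ 2) := by
        apply Finset.sum_le_sum
        intro i _
        rw [abs_mul]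
        by_cases hi : i = 0
        · rw [hi]
          simp only [Fin.val_zero, pow_zero, sub_self, Nat.cast_zero, zero_mul, mul_zero,
            abs_zero]
          positivity
        · apply mul_le_mul (hv i hi) _ (abs_nonneg _) hh
          refine (pow_taylor hB hx hy i).trans ?_
          have hin : ((i : ℕ) : ℝ) ≤ (n : ℝ) + 1 := by
            have := i.2
            exact_mod_cast this.le
          have hpow : B ^ (i : ℕ) ≤ B ^ n := pow_le_pow_right₀ hB (by have := i.2; omega)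
          gcongr
    _ = CB n B * h * |y - x| ^ 2 := by
        rw [Finset.sum_const, Finset.card_univ, Fintype.card_fin, nsmul_eq_mul]
        unfold CB
        push_cast; ring

lemma ev_add {N : ℕ} (v w : Fin N → ℝ) (x : ℝ) : ev (v + w) x = ev v x + ev w x := by
  unfold ev
  rw [← Finset.sum_add_distrib]
  apply Finset.sum_congr rfl
  intro i _
  rw [Pi.add_apply]; ring

lemma ev_sub {N : ℕ} (v w : Fin N → ℝ) (x : ℝ) : ev (v - w) x = ev v x - ev w x := by
  unfold ev
  rw [← Finset.sum_sub_distrib]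
  apply Finset.sum_congr rfl
  intro i _
  rw [Pi.sub_apply]; ring

lemma ev_smul {N : ℕ} (a : ℝ) (v : Fin N → ℝ) (x : ℝ) : ev (a • v) x = a * ev v x := by
  unfold ev
  rw [Finset.mul_sum]
  apply Finset.sum_congr rfl
  intro i _
  rw [Pi.smul_apply, smul_eq_mul]; ring

lemma ev_sum {N : ℕ} {κ : Type*} (s : Finset κ) (t : κ → ℝ) (v : κ → Fin N → ℝ) (x : ℝ) :
    ev (∑ k ∈ s, t k • v k) x = ∑ k ∈ s, t k * ev (v k) x := by
  classical
  induction s using Finset.induction_on with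
  | empty => simp [ev]
  | insert a s ha ih =>
    rw [Finset.sum_insert ha, Finset.sum_insert ha, ev_add, ev_smul, ih]

/-- Bound of the constant coefficient. -/
lemma coeff_zero_le {n : ℕ} {B x h : ℝ} (hB : 1 ≤ B) (hx : |x| ≤ B) (hh : 0 ≤ h)
    (v : Fin (n + 1) → ℝ) (hv : ∀ i, i ≠ 0 → |v i| ≤ h) :
    |v 0| ≤ |ev v x| + CB n B * h := by
  have hx0 : |(0 : ℝ)| ≤ B := by rw [abs_zero]; linarith
  have h1 : ev v 0 = v 0 := by
    unfold ev
    rw [Fin.sum_univ_succ]
    simp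
  have h3 : v 0 = ev v x - ∑ i : Fin n, v i.succ * x ^ ((i.succ : Fin (n + 1)) : ℕ) := by
    unfold ev
    rw [Fin.sum_univ_succ]
    simp
  rw [h3]
  refine (abs_sub _ _).trans ?_
  gcongr
  calc |∑ i : Fin n, v i.succ * x ^ ((i.succ : Fin (n + 1)) : ℕ)|
      ≤ ∑ i : Fin n, |v i.succ * x ^ ((i.succ : Fin (n + 1)) : ℕ)| :=
        Finset.abs_sum_le_sum_abs _ _
    _ ≤ ∑ _i : Fin n, h * B ^ n := by
        apply Finset.sum_le_sum
        intro i _
        rw [abs_mul, abs_pow]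
        apply mul_le_mul (hv _ (Fin.succ_ne_zero i)) _ (by positivity) hh
        exact (pow_le_pow_left₀ (abs_nonneg _) hx _).trans
              (pow_le_pow_right₀ hB (by have := i.2; simp))
    _ = n * B ^ n * h := by
        rw [Finset.sum_const, Finset.card_univ, Fintype.card_fin, nsmul_eq_mul]; ring
    _ ≤ CB n B * h := by
        unfold CB
        have h5 : (n : ℝ) ≤ ((n : ℝ) + 1) ^ 3 := by
          have : (0 : ℝ) ≤ n := Nat.cast_nonneg _
          nlinarith [sq_nonneg (n : ℝ)]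
        gcongr

end Pool.Agent.Helper88
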