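import Mathlib

set_option autoImplicit false

open Set

namespace Pool.Agent.Helper88

variable {ι : Type*} [Fintype ι]

/-- Independent columns and an independent set of rows: the set extends to a nonsingular choice. -/
lemma exists_rows_extend {r : ℕ} (b : Fin r → ι → ℝ) (hb : LinearIndependent ℝ b)
    (S : Set ι) (hS : LinearIndepOn ℝ (fun i => fun c : Fin r => b c i) S) :
    ∃ e : Fin r → ι, Function.Injective e ∧ S ⊆ range e ∧
      Matrix.det (Matrix.of fun a c => b c (e a)) ≠ 0 := by
  classical
  set v : ι → (Fin r → ℝ) := fun i => fun c : Fin r => b c i with hv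
  have hrank : (Matrix.of b).rank = r := by
    have h1 : LinearIndependent ℝ (Matrix.of b).row := hb
    rw [h1.rank_matrix, Fintype.card_fin]
  have hspan : Submodule.span ℝ (range v) = ⊤ := by
    apply Submodule.eq_top_of_finrank_eq
    rw [Module.finrank_fintype_fun_eq_card, Fintype.card_fin]
    rw [Matrix.rank_eq_finrank_span_cols] at hrank
    exact hrank
  obtain ⟨t, _, hSt, hsp, hli⟩ := exists_linearIndepOn_extension hS (subset_univ S)
  have hspan2 : ⊤ ≤ Submodule.span ℝ (range (fun i : t => v i)) := by
    rw [← hspan, Submodule.span_le]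
    rw [← Set.image_univ]
    refine hsp.trans ?_
    rw [← Set.image_eq_range]
  have hbasis := Module.Basis.mk hli hspan2
  have hcard : Fintype.card t = r := by
    have := Module.finrank_eq_card_basis hbasis
    rw [Module.finrank_fintype_fun_eq_card, Fintype.card_fin] at this
    exact this.symm
  let f : Fin r ≃ t := (Fintype.equivFinOfCardEq hcard).symm
  refine ⟨fun a => (f a : ι), ?_, ?_, ?_⟩
  · exact Subtype.val_injective.comp f.injective
  · intro i hi
    refine ⟨f.symm ⟨i, hSt hi⟩, ?_⟩
    simp
  · have h1 : LinearIndependent ℝ (fun a : Fin r => v (f a)) :=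
      hli.comp f f.injective
    have h2 : LinearIndependent ℝ (Matrix.of fun a c => b c (f a : ι)).row := h1
    rw [Matrix.linearIndependent_rows_iff_isUnit, Matrix.isUnit_iff_isUnit_det] at h2
    exact h2.ne_zero

lemma exists_rows {r : ℕ} (b : Fin r → ι → ℝ) (hb : LinearIndependent ℝ b) :
    ∃ e : Fin r → ι, Function.Injective e ∧
      Matrix.det (Matrix.of fun a c => b c (e a)) ≠ 0 := by
  obtain ⟨e, h1, _, h2⟩ := exists_rows_extend b hb ∅ (linearIndepOn_empty _ _)
  exact ⟨e, h1, h2⟩

end Pool.Agent.Helper88
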