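import Pool.Agent.Helper88.Step

set_option autoImplicit false

open Set Module Polynomial MeasureTheory Metric Filter Topology

namespace Pool.Agent.Helper88

theorem exact_approx (n : ℕ) (hn : 2 ≤ n) (w c₁ c₂ : ℝ) (hw : (n : ℝ) + 1 < w) (hc₁ : 0 < c₁)
    (hc : c₁ < c₂) : ∃ ξ : ℝ,
      {α : ℝ | (minpoly ℚ α).natDegree = n ∧ ∃ P : ℤ[X], P.IsPrimitive ∧ P.natDegree = n ∧
        aeval α P = 0 ∧ |ξ - α| < c₂ * (ht P : ℝ) ^ (-w)}.Infinite ∧
      {α : ℝ | (minpoly ℚ α).natDegree = n ∧ ∃ P : ℤ[X], P.IsPrimitive ∧ P.natDegree = n ∧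
        aeval α P = 0 ∧ |ξ - α| < c₁ * (ht P : ℝ) ^ (-w)}.Finite := by
  have hn0 : (0 : ℝ) ≤ n := Nat.cast_nonneg _
  have hd : 0 < c₂ - c₁ := by linarith
  set cs : ℕ → ℝ := fun k => c₁ + (c₂ - c₁) / ((k : ℝ) + 2) with hcs
  have hcs1 : ∀ k, c₁ < cs k := by
    intro k
    simp only [hcs]
    have : 0 < (c₂ - c₁) / ((k : ℝ) + 2) := by positivity
    linarith
  have hcs2 : ∀ k, cs k < c₂ := by
    intro k
    simp only [hcs]
    have h1 : (c₂ - c₁) / ((k : ℝ) + 2) < c₂ - c₁ := by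
      rw [div_lt_iff₀ (by positivity)]
      have : (0 : ℝ) ≤ k := Nat.cast_nonneg _
      nlinarith
    linarith
  have hcs3 : ∀ k, cs (k + 1) < cs k := by
    intro k
    simp only [hcs]
    have h1 : (c₂ - c₁) / (((k + 1 : ℕ) : ℝ) + 2) < (c₂ - c₁) / ((k : ℝ) + 2) := by
      apply div_lt_div_of_pos_left hd (by positivity)
      push_cast
      linarith
    linarith
  obtain ⟨H₀, hH₀⟩ := tail_small hw (lt_trans hc₁ (hcs1 0)) (by norm_num : (0 : ℝ) < 1 / 2)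
  -- the initial set has positive measure
  have hinit : 0 < volume (Fc n w (cs 0) H₀ ∩ Icc (0 : ℝ) 1) := by
    by_contra hzero
    have hzero' : volume (Fc n w (cs 0) H₀ ∩ Icc (0 : ℝ) 1) = 0 := by
      rwa [not_lt, nonpos_iff_eq_zero] at hzero
    have h1 : volume (Icc (0 : ℝ) 1) ≤ volume (Fc n w (cs 0) H₀ ∩ Icc (0 : ℝ) 1) +
        volume {x : ℝ | ∃ β P, (IsPair n β P ∧ H₀ ≤ ht P) ∧
          |x - β| < cs 0 * (ht P : ℝ) ^ (-w)} := by
      refine (measure_mono ?_).trans (measure_union_le _ _)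
      intro x hx
      by_cases h2 : x ∈ Fc n w (cs 0) H₀
      · exact Or.inl ⟨h2, hx⟩
      · right
        by_contra hcon
        apply h2
        intro β P hP hH
        by_contra h3
        push Not at h3
        exact hcon ⟨β, P, ⟨hP, hH⟩, h3⟩
    rw [hzero', zero_add] at h1
    have h2 := h1.trans hH₀
    rw [Real.volume_Icc, ENNReal.ofReal_le_ofReal_iff (by norm_num)] at h2
    norm_num at h2
  -- the sequence
  have hstep : ∀ (k : ℕ) (p : ℝ × ℝ), 0 < volume (Fc n w (cs k) H₀ ∩ Icc p.1 p.2) →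
      ∃ q : ℝ × ℝ, 0 < volume (Fc n w (cs (k + 1)) H₀ ∩ Icc q.1 q.2) ∧
        Icc q.1 q.2 ⊆ Icc p.1 p.2 ∧ ∃ α P, IsPair n α P ∧ k ≤ ht P ∧
          ∀ ξ ∈ Icc q.1 q.2, |ξ - α| < c₂ * (ht P : ℝ) ^ (-w) := by
    intro k p hp
    obtain ⟨α, P, h1, h2, a', b', h3, h4, h5⟩ := step hn hw (lt_trans hc₁ (hcs1 (k + 1)))
      (hcs3 k) (hcs2 k) hp k
    exact ⟨(a', b'), h5, h3, α, P, h1, h2, h4⟩
  choose! f hf1 hf2 hf3 using hstep
  set p : ℕ → ℝ × ℝ := fun k => Nat.rec (0, 1) (fun k pk => f k pk) k with hp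
  have hp0 : p 0 = (0, 1) := rfl
  have hpS : ∀ k, p (k + 1) = f k (p k) := fun k => rfl
  have hvol : ∀ k, 0 < volume (Fc n w (cs k) H₀ ∩ Icc (p k).1 (p k).2) := by
    intro k
    induction k with
    | zero => rw [hp0]; exact hinit
    | succ k ih => rw [hpS]; exact hf1 k (p k) ih
  have hsub : ∀ k, Icc (p (k + 1)).1 (p (k + 1)).2 ⊆ Icc (p k).1 (p k).2 := by
    intro k
    rw [hpS]
    exact hf2 k (p k) (hvol k)
  have hpair : ∀ k, ∃ α P, IsPair n α P ∧ k ≤ ht P ∧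
      ∀ ξ ∈ Icc (p (k + 1)).1 (p (k + 1)).2, |ξ - α| < c₂ * (ht P : ℝ) ^ (-w) := by
    intro k
    rw [hpS]
    exact hf3 k (p k) (hvol k)
  have hne : (⋂ k, Fc n w c₁ H₀ ∩ Icc (p k).1 (p k).2).Nonempty := by
    apply IsCompact.nonempty_iInter_of_sequence_nonempty_isCompact_isClosed
    · intro k
      exact inter_subset_inter_right _ (hsub k)
    · intro k
      have h1 := nonempty_of_measure_ne_zero (hvol k).ne'
      exact h1.mono (inter_subset_inter_left _ (Fc_anti (hcs1 k).le H₀))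
    · exact isCompact_Icc.inter_left (Fc_closed n w c₁ H₀)
    · intro k
      exact (Fc_closed n w c₁ H₀).inter isClosed_Icc
  obtain ⟨ξ, hξ⟩ := hne
  rw [mem_iInter] at hξ
  refine ⟨ξ, ?_, ?_⟩
  · intro hfin
    set S := {α : ℝ | (minpoly ℚ α).natDegree = n ∧ ∃ P : ℤ[X], P.IsPrimitive ∧
      P.natDegree = n ∧ aeval α P = 0 ∧ |ξ - α| < c₂ * (ht P : ℝ) ^ (-w)} with hS
    -- heights of pairs over a finite set are bounded
    have hbdd : ∃ M : ℕ, ∀ α ∈ S, ∀ P, IsPair n α P → ht P ≤ M := by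
      have h1 : ({m : ℕ | ∃ α ∈ S, ∃ P, IsPair n α P ∧ ht P = m}).Finite := by
        have h2 : {m : ℕ | ∃ α ∈ S, ∃ P, IsPair n α P ∧ ht P = m} =
            ⋃ α ∈ S, {m : ℕ | ∃ P, IsPair n α P ∧ ht P = m} := by
          ext m
          simp
        rw [h2]
        apply hfin.biUnion
        intro α _
        apply Set.Subsingleton.finite
        rintro m ⟨P, hP, rfl⟩ m' ⟨P', hP', rfl⟩
        rcases pair_unique hP hP' with h3 | h3
        · rw [h3]
        · rw [h3, ht_neg]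
      obtain ⟨M, hM⟩ := h1.bddAbove
      exact ⟨M, fun α hα P hP => hM ⟨α, hα, P, hP, rfl⟩⟩
    obtain ⟨M, hM⟩ := hbdd
    obtain ⟨α, P, hP, hk, hlt⟩ := hpair (M + 1)
    have hαS : α ∈ S := ⟨hP.mdeg, P, hP.prim, hP.deg, hP.root, hlt ξ (hξ (M + 1 + 1)).2⟩
    have := hM α hαS P hP
    omega
  · apply ((finite_ht n H₀).biUnion (fun P _ => (rts P).finite_toSet)).subset
    rintro α ⟨hα, P, hP1, hP2, hP3, hP4⟩
    have hpr : IsPair n α P := ⟨hP1, hP2, hP3, hα⟩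
    have hlt : ht P < H₀ := by
      by_contra hcon
      push Not at hcon
      have := (hξ 0).1 α P hpr hcon
      linarith
    simp only [mem_iUnion]
    refine ⟨P, ⟨hP2.le, hlt.le⟩, ?_⟩
    exact Finset.mem_coe.mpr (mem_rts hP1.ne_zero hP3)

end Pool.Agent.Helper88
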