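import Mathlib

set_option autoImplicit false

open MeasureTheory Metric Set

namespace Pool.Agent.Helper88

/-- A set of reals of large measure holds many separated points. -/
lemma exists_separated {E : Set ℝ} {g : ℝ} (hg : 0 < g) (m : ℕ)
    (hE : ENNReal.ofReal (2 * g * m) < volume E) :
    ∃ x : Fin (m + 1) → ℝ, (∀ i, x i ∈ E) ∧ ∀ i j, i ≠ j → g ≤ |x i - x j| := by
  induction m with
  | zero =>
    have h0 : 0 < volume E := lt_of_le_of_lt bot_le hE
    obtain ⟨z, hz⟩ := nonempty_of_measure_ne_zero h0.ne'
    refine ⟨fun _ => z, fun _ => hz, ?_⟩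
    intro i j hij
    exact absurd (Fin.ext (by omega)) hij
  | succ m ih =>
    have h1 : ENNReal.ofReal (2 * g * m) < volume E := by
      refine lt_of_le_of_lt (ENNReal.ofReal_le_ofReal ?_) hE
      push_cast
      nlinarith
    obtain ⟨x, hxE, hx⟩ := ih h1
    have h2 : ¬ E ⊆ ⋃ i, ball (x i) g := by
      intro hsub
      have h3 : volume E ≤ ENNReal.ofReal (2 * g * (m + 1 : ℕ)) := by
        calc volume E ≤ volume (⋃ i, ball (x i) g) := measure_mono hsub
          _ ≤ ∑ i, volume (ball (x i) g) := measure_iUnion_fintype_le _ _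
          _ = ∑ i : Fin (m + 1), ENNReal.ofReal (2 * g) := by
              simp [Real.volume_ball]
          _ = ENNReal.ofReal (2 * g * (m + 1 : ℕ)) := by
              rw [Finset.sum_const, Finset.card_univ, Fintype.card_fin, nsmul_eq_mul,
                mul_comm (2 * g), ENNReal.ofReal_mul (Nat.cast_nonneg _), ENNReal.ofReal_natCast]
      exact absurd hE (not_lt.mpr h3)
    rw [Set.not_subset] at h2
    obtain ⟨z, hzE, hz⟩ := h2
    have hz' : ∀ i, g ≤ |z - x i| := by
      intro i
      by_contra hcon
      apply hz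
      rw [mem_iUnion]
      refine ⟨i, ?_⟩
      rw [mem_ball, Real.dist_eq]
      exact not_le.mp hcon
    refine ⟨Fin.cons z x, ?_, ?_⟩
    · intro i
      refine Fin.cases ?_ ?_ i
      · simpa using hzE
      · intro j
        simpa using hxE j
    · intro i j
      refine Fin.cases ?_ ?_ i
      · refine Fin.cases ?_ ?_ j
        · intro h; exact absurd rfl h
        · intro k _
          simpa using hz' k
      · intro l
        refine Fin.cases ?_ ?_ j
        · intro _
          rw [abs_sub_comm]
          simpa using hz' l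
        · intro k hlk
          have : l ≠ k := fun h => hlk (by rw [h])
          simpa using hx l k this

/-- Interpolation bound. -/
lemma interpolation_bound {p : Polynomial ℝ} {m : ℕ} (hp : p.natDegree ≤ m)
    {x : Fin (m + 1) → ℝ} {g R ε z : ℝ} (hg : 0 < g) (hRpos : 0 < R)
    (hx : ∀ i j, i ≠ j → g ≤ |x i - x j|) (hz : ∀ i, |z - x i| ≤ R)
    (hε : ∀ i, |p.eval (x i)| < ε) :
    |p.eval z| < (m + 1) * ε * (R / g) ^ m := by
  have hinj : Set.InjOn x (Finset.univ : Finset (Fin (m + 1))) := by
    intro i _ j _ hij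
    by_contra hne
    have := hx i j hne
    rw [hij] at this
    simp at this
    linarith
  have hdeg : p.degree < (Finset.univ : Finset (Fin (m + 1))).card := by
    rw [Finset.card_univ, Fintype.card_fin]
    refine lt_of_le_of_lt Polynomial.degree_le_natDegree ?_
    exact_mod_cast Nat.lt_succ_of_le hp
  have hint := Lagrange.eq_interpolate hinj hdeg
  have hbasis : ∀ i : Fin (m + 1), |(Lagrange.basis Finset.univ x i).eval z| ≤ (R / g) ^ m := by
    intro i
    rw [Lagrange.basis, Polynomial.eval_prod, Finset.abs_prod]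
    have hcard : (Finset.univ.erase i).card = m := by
      rw [Finset.card_erase_of_mem (Finset.mem_univ _), Finset.card_univ, Fintype.card_fin]
      simp
    calc ∏ j ∈ Finset.univ.erase i, |(Lagrange.basisDivisor (x i) (x j)).eval z|
        ≤ ∏ j ∈ Finset.univ.erase i, (R / g) := by
          apply Finset.prod_le_prod
          · intro j _; exact abs_nonneg _
          · intro j hj
            have hji : i ≠ j := (Finset.ne_of_mem_erase hj).symm
            rw [Lagrange.basisDivisor]
            simp only [Polynomial.eval_mul, Polynomial.eval_C, Polynomial.eval_sub,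
              Polynomial.eval_X]
            rw [abs_mul, abs_inv, div_eq_inv_mul]
            apply mul_le_mul _ (hz j) (abs_nonneg _) (by positivity)
            exact inv_anti₀ hg (hx i j hji)
      _ = (R / g) ^ m := by rw [Finset.prod_const, hcard]
  rw [hint, Lagrange.interpolate_apply, Polynomial.eval_finsetSum]
  have hε0 : 0 < ε := lt_of_le_of_lt (abs_nonneg _) (hε 0)
  calc |∑ i : Fin (m + 1), (Polynomial.C (p.eval (x i)) * Lagrange.basis Finset.univ x i).eval z|
      ≤ ∑ i : Fin (m + 1), |(Polynomial.C (p.eval (x i)) * Lagrange.basis Finset.univ x i).eval z| :=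
        Finset.abs_sum_le_sum_abs _ _
    _ < ∑ i : Fin (m + 1), ε * (R / g) ^ m := by
        apply Finset.sum_lt_sum_of_nonempty (Finset.univ_nonempty)
        intro i _
        rw [Polynomial.eval_mul, Polynomial.eval_C, abs_mul]
        have hpos : 0 < (R / g) ^ m := by positivity
        calc |p.eval (x i)| * |(Lagrange.basis Finset.univ x i).eval z|
            ≤ |p.eval (x i)| * (R / g) ^ m :=
              mul_le_mul_of_nonneg_left (hbasis i) (abs_nonneg _)
          _ < ε * (R / g) ^ m := mul_lt_mul_of_pos_right (hε i) hpos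
    _ = (m + 1) * ε * (R / g) ^ m := by
        rw [Finset.sum_const, Finset.card_univ, Fintype.card_fin, nsmul_eq_mul]
        push_cast
        ring

/-- The constant of the good lemma. -/
noncomputable def kappa (m : ℕ) (δ : ℝ) : ℝ := (((m : ℝ) + 1) * (4 * (m + 1) / δ) ^ m)⁻¹

lemma kappa_pos (m : ℕ) {δ : ℝ} (hδ : 0 < δ) : 0 < kappa m δ := by
  unfold kappa; positivity

/-- Polynomials are good functions. -/
lemma good_poly {p : Polynomial ℝ} {m : ℕ} (hp : p.natDegree ≤ m) {y r ρ δ ε : ℝ}
    (hr : 0 < r) (hδ : 0 < δ) (hz : ∃ z ∈ closedBall y r, ρ ≤ |p.eval z|)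
    (hε : ε ≤ ρ * kappa m δ) :
    volume {x ∈ closedBall y r | |p.eval x| < ε} ≤ ENNReal.ofReal (δ * r) := by
  by_contra hcon
  push Not at hcon
  set E := {x ∈ closedBall y r | |p.eval x| < ε} with hE
  set g : ℝ := δ * r / (2 * (m + 1)) with hg
  have hgpos : 0 < g := by positivity
  have hm1 : (0 : ℝ) < m + 1 := by positivity
  have h1 : ENNReal.ofReal (2 * g * m) < volume E := by
    refine lt_of_le_of_lt (ENNReal.ofReal_le_ofReal ?_) hcon
    have : 2 * g * m = δ * r * (m / (m + 1)) := by
      rw [hg]; field_simp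
    rw [this]
    have h2 : (m : ℝ) / (m + 1) ≤ 1 := by
      rw [div_le_one hm1]; linarith
    have h3 : 0 ≤ δ * r := by positivity
    nlinarith
  obtain ⟨x, hxE, hx⟩ := exists_separated hgpos m h1
  obtain ⟨z, hz, hρ⟩ := hz
  have hzx : ∀ i, |z - x i| ≤ 2 * r := by
    intro i
    have h4 := (hxE i).1
    rw [mem_closedBall, Real.dist_eq] at h4 hz
    calc |z - x i| = |(z - y) - (x i - y)| := by ring_nf
      _ ≤ |z - y| + |x i - y| := abs_sub _ _
      _ ≤ 2 * r := by linarith
  have h5 := interpolation_bound hp hgpos (by linarith) hx hzx (fun i => (hxE i).2)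
  have h6 : 2 * r / g = 4 * (m + 1) / δ := by
    rw [hg]; field_simp; ring
  rw [h6] at h5
  have h7 : (m + 1) * ε * (4 * (m + 1) / δ) ^ m ≤ ρ := by
    have h8 : 0 < ((m : ℝ) + 1) * (4 * (m + 1) / δ) ^ m := by positivity
    have h9 : ε * (((m : ℝ) + 1) * (4 * (m + 1) / δ) ^ m) ≤ ρ := by
      calc ε * (((m : ℝ) + 1) * (4 * (m + 1) / δ) ^ m)
          ≤ (ρ * kappa m δ) * (((m : ℝ) + 1) * (4 * (m + 1) / δ) ^ m) :=
            mul_le_mul_of_nonneg_right hε h8.le
        _ = ρ := by
            unfold kappa
            rw [mul_assoc, inv_mul_cancel₀ h8.ne', mul_one]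
    linarith [h9, mul_comm ε ((m : ℝ) + 1)]
  linarith

end Pool.Agent.Helper88
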