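import Mathlib

set_option autoImplicit false

open Set Module

namespace Pool.Agent.Helper88

/-- Degree of a vertex in a set of edges. -/
def dg {m : ℕ} (S : Finset (Fin m × Fin m)) (j : Fin m) : ℕ :=
  (S.filter (fun e => e.1 = j ∨ e.2 = j)).card

lemma handshake {m : ℕ} (S : Finset (Fin m × Fin m)) (hS : ∀ e ∈ S, e.1 < e.2) :
    ∑ j, dg S j = 2 * S.card := by
  unfold dg
  simp_rw [Finset.card_filter]
  rw [Finset.sum_comm]
  have h1 : ∀ e ∈ S, ∑ j : Fin m, (if e.1 = j ∨ e.2 = j then 1 else 0) = 2 := by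
    intro e he
    rw [← Finset.card_filter]
    have h2 : (Finset.univ.filter (fun j : Fin m => e.1 = j ∨ e.2 = j)) = {e.1, e.2} := by
      ext j
      simp only [Finset.mem_filter, Finset.mem_univ, true_and, Finset.mem_insert,
        Finset.mem_singleton]
      constructor
      · rintro (h | h)
        · left; exact h.symm
        · right; exact h.symm
      · rintro (h | h)
        · left; exact h.symm
        · right; exact h.symm
    rw [h2, Finset.card_pair (ne_of_lt (hS e he))]
  rw [Finset.sum_congr rfl h1, Finset.sum_const, smul_eq_mul, mul_comm]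

variable {E : Type*} [AddCommGroup E] [Module ℝ E] [FiniteDimensional ℝ E]

lemma card_of_li_span {κ : Type*} [DecidableEq κ] (f : κ → E) (S : Finset κ)
    (hli : LinearIndepOn ℝ f (S : Set κ))
    (hspan : ⊤ ≤ Submodule.span ℝ (f '' (S : Set κ))) : S.card = finrank ℝ E := by
  rw [Set.image_eq_range] at hspan
  have hb := Module.Basis.mk (v := fun x : (S : Set κ) => f x) hli hspan
  rw [Module.finrank_eq_card_basis hb]
  simp

lemma deg_le_rank {m : ℕ} (u : Fin m → Fin m → E) (hu : ∀ j l, u j l = -u l j)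
    (S : Finset (Fin m × Fin m)) (hli : LinearIndepOn ℝ (fun e : Fin m × Fin m => u e.1 e.2)
      (S : Set (Fin m × Fin m))) (j : Fin m) :
    dg S j ≤ finrank ℝ (Submodule.span ℝ (range (u j))) := by
  set T := S.filter (fun e => e.1 = j ∨ e.2 = j) with hT
  have hTS : (T : Set (Fin m × Fin m)) ⊆ S := by
    rw [hT]; exact_mod_cast Finset.filter_subset _ _
  have h1 : LinearIndependent ℝ (fun x : (T : Set (Fin m × Fin m)) => u x.1.1 x.1.2) :=
    hli.mono hTS
  have h2 := finrank_span_eq_card h1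
  have h3 : Fintype.card (T : Set (Fin m × Fin m)) = T.card := by simp
  have h4 : dg S j = T.card := rfl
  rw [h4, ← h3, ← h2]
  apply Submodule.finrank_mono
  rw [Submodule.span_le]
  rintro _ ⟨⟨e, he⟩, rfl⟩
  have he' : e ∈ T := Finset.mem_coe.mp he
  rw [hT, Finset.mem_filter] at he'
  rcases he'.2 with h | h
  · simp only
    rw [h]
    exact Submodule.subset_span ⟨_, rfl⟩
  · simp only
    rw [hu, h]
    exact Submodule.neg_mem _ (Submodule.subset_span ⟨_, rfl⟩)

lemma regular_of_basis {N r : ℕ} (u : Fin (N + 1) → Fin (N + 1) → E)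
    (hu : ∀ j l, u j l = -u l j)
    (hR : ∀ j, N * finrank ℝ (Submodule.span ℝ (range (u j))) ≤ 2 * r)
    (p : Fin (N + 1)) (S : Finset (Fin (N + 1) × Fin (N + 1)))
    (hS : ∀ e ∈ S, e.1 < e.2 ∧ e.1 ≠ p ∧ e.2 ≠ p)
    (hli : LinearIndepOn ℝ (fun e : Fin (N + 1) × Fin (N + 1) => u e.1 e.2)
      (S : Set (Fin (N + 1) × Fin (N + 1)))) (hcard : S.card = r) :
    ∀ j, j ≠ p → N * dg S j = 2 * r := by
  have h1 : dg S p = 0 := by
    unfold dg
    rw [Finset.card_eq_zero, Finset.filter_eq_empty_iff]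
    intro e he
    have := hS e he
    tauto
  have h2 := handshake S (fun e he => (hS e he).1)
  have h3 : ∑ j ∈ Finset.univ.erase p, N * dg S j = ∑ j ∈ Finset.univ.erase p, 2 * r := by
    have h4 : ∑ j ∈ Finset.univ.erase p, dg S j = ∑ j, dg S j := by
      rw [← Finset.add_sum_erase Finset.univ (dg S) (Finset.mem_univ p), h1, zero_add]
    rw [← Finset.mul_sum, h4, h2, Finset.sum_const, Finset.card_erase_of_mem (Finset.mem_univ _),
      Finset.card_univ, Fintype.card_fin, hcard]
    simp
  have h5 := (Finset.sum_eq_sum_iff_of_le (s := Finset.univ.erase p)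
    (f := fun j => N * dg S j) (g := fun _ => 2 * r) (by
      intro j _
      exact (Nat.mul_le_mul_left N (deg_le_rank u hu S hli j)).trans (hR j))).mp h3
  intro j hj
  exact h5 j (Finset.mem_erase.mpr ⟨hj, Finset.mem_univ _⟩)

/-- Edges are determined by their end points. -/
lemma edge_ext {m : ℕ} {e f : Fin m × Fin m} (he : e.1 < e.2) (hf : f.1 < f.2)
    (h : ∀ v, (e.1 = v ∨ e.2 = v) ↔ (f.1 = v ∨ f.2 = v)) : e = f := by
  have h1 := (h e.1).mp (Or.inl rfl)
  have h2 := (h e.2).mp (Or.inr rfl)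
  rcases h1 with h1 | h1
  · rcases h2 with h2 | h2
    · exfalso; rw [← h1, ← h2] at he; exact lt_irrefl _ he
    · exact Prod.ext h1.symm h2.symm
  · rcases h2 with h2 | h2
    · exfalso
      rw [h1, h2] at hf
      exact absurd he (not_lt.mpr hf.le)
    · exfalso; rw [← h1, ← h2] at he; exact lt_irrefl _ he

lemma dg_insert {m : ℕ} (S : Finset (Fin m × Fin m)) (f : Fin m × Fin m) (hf : f ∉ S)
    (v : Fin m) : dg (insert f S) v = dg S v + (if f.1 = v ∨ f.2 = v then 1 else 0) := by
  unfold dg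
  rw [Finset.filter_insert]
  split_ifs with h
  · rw [Finset.card_insert_of_notMem]
    intro h2
    exact hf (Finset.mem_filter.mp h2).1
  · rfl

/-- The basis of edges avoiding `p` consists of all non-zero edges. -/
lemma basis_all {N r : ℕ} (hN : 0 < N) (hr : finrank ℝ E = r)
    (u : Fin (N + 1) → Fin (N + 1) → E)
    (hu : ∀ j l, u j l = -u l j)
    (hR : ∀ j, N * finrank ℝ (Submodule.span ℝ (range (u j))) ≤ 2 * r)
    (p : Fin (N + 1)) (S : Finset (Fin (N + 1) × Fin (N + 1)))
    (hS : ∀ e ∈ S, e.1 < e.2 ∧ e.1 ≠ p ∧ e.2 ≠ p)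
    (hli : LinearIndepOn ℝ (fun e : Fin (N + 1) × Fin (N + 1) => u e.1 e.2)
      (S : Set (Fin (N + 1) × Fin (N + 1))))
    (hspan : ⊤ ≤ Submodule.span ℝ ((fun e : Fin (N + 1) × Fin (N + 1) => u e.1 e.2) ''
      (S : Set (Fin (N + 1) × Fin (N + 1)))))
    (f : Fin (N + 1) × Fin (N + 1)) (hf : f.1 < f.2) (hf1 : f.1 ≠ p) (hf2 : f.2 ≠ p)
    (hf0 : u f.1 f.2 ≠ 0) : f ∈ S := by
  classical
  by_contra hfS
  have hcard : S.card = r := by rw [card_of_li_span _ S hli hspan, hr]
  have hreg := regular_of_basis u hu hR p S hS hli hcard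
  set g : Fin (N + 1) × Fin (N + 1) → E := fun e => u e.1 e.2 with hg
  have hsing : LinearIndepOn ℝ g ({f} : Set (Fin (N + 1) × Fin (N + 1))) := by
    rw [linearIndepOn_singleton_iff]; exact hf0
  obtain ⟨b, hb1, hb2, hb3, hb4⟩ := exists_linearIndepOn_extension hsing
    (t := ((insert f S : Finset (Fin (N + 1) × Fin (N + 1))) :
      Set (Fin (N + 1) × Fin (N + 1)))) (by simp)
  set S' : Finset (Fin (N + 1) × Fin (N + 1)) := (insert f S).filter (fun e => e ∈ b) with hS'
  have hS'b : (S' : Set (Fin (N + 1) × Fin (N + 1))) = b := by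
    ext e
    rw [hS', Finset.coe_filter]
    constructor
    · intro h; exact h.2
    · intro h; exact ⟨Finset.mem_coe.mp (hb1 h), h⟩
  have hli' : LinearIndepOn ℝ g (S' : Set (Fin (N + 1) × Fin (N + 1))) := by
    rw [hS'b]; exact hb4
  have hspan' : ⊤ ≤ Submodule.span ℝ (g '' (S' : Set (Fin (N + 1) × Fin (N + 1)))) := by
    refine hspan.trans ?_
    rw [Submodule.span_le, hS'b]
    refine (Set.image_mono ?_).trans hb3
    rw [Finset.coe_insert]
    exact Set.subset_insert _ _
  have hcard' : S'.card = r := by rw [card_of_li_span _ S' hli' hspan', hr]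
  have hS'2 : ∀ e ∈ S', e.1 < e.2 ∧ e.1 ≠ p ∧ e.2 ≠ p := by
    intro e he
    rw [hS', Finset.mem_filter, Finset.mem_insert] at he
    rcases he.1 with h | h
    · rw [h]; exact ⟨hf, hf1, hf2⟩
    · exact hS e h
  have hreg' := regular_of_basis u hu hR p S' hS'2 hli' hcard'
  have hfS' : f ∈ S' := by
    rw [hS', Finset.mem_filter]
    exact ⟨Finset.mem_insert_self _ _, hb2 (mem_singleton f)⟩
  have hsub : S' ⊆ insert f S := by rw [hS']; exact Finset.filter_subset _ _
  have hcard3 : ((insert f S) \ S').card = 1 := by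
    rw [Finset.card_sdiff_of_subset hsub, Finset.card_insert_of_notMem hfS, hcard, hcard']
    omega
  obtain ⟨s, hs⟩ := Finset.card_eq_one.mp hcard3
  have hsmem : s ∈ (insert f S) \ S' := by rw [hs]; exact Finset.mem_singleton_self _
  rw [Finset.mem_sdiff] at hsmem
  have hins : insert s S' = insert f S := by
    ext e
    constructor
    · intro h
      rcases Finset.mem_insert.mp h with h | h
      · rw [h]; exact hsmem.1
      · exact hsub h
    · intro h
      by_cases he : e ∈ S'
      · exact Finset.mem_insert_of_mem he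
      · have : e ∈ (insert f S) \ S' := Finset.mem_sdiff.mpr ⟨h, he⟩
        rw [hs, Finset.mem_singleton] at this
        rw [this]; exact Finset.mem_insert_self _ _
  have hsS : s ∈ S := by
    rcases Finset.mem_insert.mp hsmem.1 with h | h
    · exfalso; apply hsmem.2; rw [h]; exact hfS'
    · exact h
  have hs3 := hS s hsS
  have hfs : f = s := by
    apply edge_ext hf hs3.1
    intro v
    by_cases hv : v = p
    · subst hv
      constructor
      · rintro (h | h)
        · exact absurd h hf1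
        · exact absurd h hf2
      · rintro (h | h)
        · exact absurd h hs3.2.1
        · exact absurd h hs3.2.2
    · have h1 := hreg v hv
      have h2 := hreg' v hv
      have h3 : dg S v = dg S' v := Nat.eq_of_mul_eq_mul_left hN (h1.trans h2.symm)
      have h4 := dg_insert S f hfS v
      have h5 := dg_insert S' s hsmem.2 v
      rw [hins] at h5
      rw [h5, h3] at h4
      have h6 := Nat.add_left_cancel h4
      constructor
      · intro h
        by_contra hcon
        rw [if_pos h, if_neg hcon] at h6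
        omega
      · intro h
        by_contra hcon
        rw [if_pos h, if_neg hcon] at h6
        omega
  exact hsmem.2 (hfs ▸ hfS')

open Classical in
/-- Degree in the set of all non-zero edges avoiding `p`. -/
lemma dg_eq_count {N : ℕ} (u : Fin (N + 1) → Fin (N + 1) → E)
    (hu : ∀ j l, u j l = -u l j) (p j : Fin (N + 1)) (hj : j ≠ p)
    (S : Finset (Fin (N + 1) × Fin (N + 1)))
    (hS : ∀ e, e ∈ S ↔ (e.1 < e.2 ∧ e.1 ≠ p ∧ e.2 ≠ p ∧ u e.1 e.2 ≠ 0)) :
    dg S j = (Finset.univ.filter (fun l => l ≠ p ∧ (l ≠ j ∧ u j l ≠ 0))).card := by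
  unfold dg
  have hu' : ∀ a b, u a b ≠ 0 → u b a ≠ 0 := by
    intro a b h h2
    apply h
    rw [hu, h2, neg_zero]
  apply Finset.card_bij' (fun e _ => if e.1 = j then e.2 else e.1)
    (fun l _ => if j < l then (j, l) else (l, j))
  · intro e he
    rw [Finset.mem_filter, hS] at he
    rw [Finset.mem_filter]
    refine ⟨Finset.mem_univ _, ?_⟩
    obtain ⟨⟨h1, h2, h3, h4⟩, h5⟩ := he
    by_cases h6 : e.1 = j
    · simp only [h6, if_true]
      refine ⟨h3, ?_, ?_⟩
      · rw [← h6]; exact (ne_of_lt h1).symm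
      · rw [← h6]; exact h4
    · have h7 : e.2 = j := by tauto
      simp only [h6, if_false]
      refine ⟨h2, h6, ?_⟩
      rw [← h7]; exact hu' _ _ h4
  · intro l hl
    rw [Finset.mem_filter] at hl
    obtain ⟨_, h1, h2, h3⟩ := hl
    rw [Finset.mem_filter, hS]
    by_cases h4 : j < l
    · rw [if_pos h4]
      exact ⟨⟨h4, hj, h1, h3⟩, Or.inl rfl⟩
    · rw [if_neg h4]
      have h5 : l < j := lt_of_le_of_ne (not_lt.mp h4) h2
      exact ⟨⟨h5, h1, hj, hu' _ _ h3⟩, Or.inr rfl⟩
  · intro e he
    rw [Finset.mem_filter, hS] at he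
    obtain ⟨⟨h1, h2, h3, h4⟩, h5⟩ := he
    by_cases h6 : e.1 = j
    · simp only [h6, if_true]
      rw [← h6, if_pos h1]
    · have h7 : e.2 = j := by tauto
      simp only [h6, if_false]
      rw [← h7, if_neg (not_lt.mpr h1.le)]
  · intro l hl
    rw [Finset.mem_filter] at hl
    obtain ⟨_, h1, h2, h3⟩ := hl
    by_cases h4 : j < l
    · simp [h4]
    · simp only [h4, if_false]
      rw [if_neg h2]

/-- The graph lemma. -/
theorem graph_lemma {N r : ℕ} (hN : 0 < N) (hr1 : 1 ≤ r) (hr : finrank ℝ E = r)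
    (u : Fin (N + 1) → Fin (N + 1) → E) (hu : ∀ j l, u j l = -u l j)
    (hspan : ∀ p, ⊤ ≤ Submodule.span ℝ ((fun e : Fin (N + 1) × Fin (N + 1) => u e.1 e.2) ''
      {e | e.1 ≠ p ∧ e.2 ≠ p}))
    (hR : ∀ j, N * finrank ℝ (Submodule.span ℝ (range (u j))) ≤ 2 * r) :
    N * (N - 1) = 2 * r := by
  classical
  set g : Fin (N + 1) × Fin (N + 1) → E := fun e => u e.1 e.2 with hg
  have huself : ∀ j, u j j = 0 := by
    intro j
    have h1 := hu j j
    have h2 : (2 : ℝ) • u j j = 0 := by
      rw [two_smul]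
      nth_rewrite 1 [h1]
      simp
    exact (smul_eq_zero.mp h2).resolve_left two_ne_zero
  have hu' : ∀ a b, u a b ≠ 0 → u b a ≠ 0 := by
    intro a b h h2
    apply h
    rw [hu, h2, neg_zero]
  -- bases
  have hbasis : ∀ p, ∃ S : Finset (Fin (N + 1) × Fin (N + 1)),
      (∀ e, e ∈ S ↔ (e.1 < e.2 ∧ e.1 ≠ p ∧ e.2 ≠ p ∧ u e.1 e.2 ≠ 0)) ∧
      (∀ j, j ≠ p → N * dg S j = 2 * r) ∧ S.card = r := by
    intro p
    set t : Set (Fin (N + 1) × Fin (N + 1)) := {e | e.1 < e.2 ∧ e.1 ≠ p ∧ e.2 ≠ p} with ht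
    have hspant : ⊤ ≤ Submodule.span ℝ (g '' t) := by
      refine (hspan p).trans ?_
      rw [Submodule.span_le]
      rintro _ ⟨e, he, rfl⟩
      rcases lt_trichotomy e.1 e.2 with h | h | h
      · exact Submodule.subset_span ⟨e, ⟨h, he.1, he.2⟩, rfl⟩
      · change g e ∈ _
        rw [hg]
        simp only [h]
        rw [huself]
        exact Submodule.zero_mem _
      · change g e ∈ _
        rw [hg]
        simp only
        rw [hu]
        exact Submodule.neg_mem _ (Submodule.subset_span ⟨(e.2, e.1), ⟨h, he.2, he.1⟩, rfl⟩)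
    obtain ⟨b, hb1, _, hb3, hb4⟩ := exists_linearIndepOn_extension
      (linearIndepOn_empty ℝ g) (Set.empty_subset t)
    set S : Finset (Fin (N + 1) × Fin (N + 1)) := Finset.univ.filter (fun e => e ∈ b) with hS
    have hSb : (S : Set (Fin (N + 1) × Fin (N + 1))) = b := by
      ext e
      rw [hS, Finset.coe_filter]
      simp
    have hli : LinearIndepOn ℝ g (S : Set (Fin (N + 1) × Fin (N + 1))) := by
      rw [hSb]; exact hb4
    have hspanS : ⊤ ≤ Submodule.span ℝ (g '' (S : Set (Fin (N + 1) × Fin (N + 1)))) := by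
      refine hspant.trans ?_
      rw [Submodule.span_le, hSb]
      exact hb3
    have hS2 : ∀ e ∈ S, e.1 < e.2 ∧ e.1 ≠ p ∧ e.2 ≠ p := by
      intro e he
      have : e ∈ b := by rw [← hSb]; exact he
      exact hb1 this
    have hcard : S.card = r := by rw [card_of_li_span _ S hli hspanS, hr]
    refine ⟨S, ?_, regular_of_basis u hu hR p S hS2 hli hcard, hcard⟩
    intro e
    constructor
    · intro he
      obtain ⟨h1, h2, h3⟩ := hS2 e he
      refine ⟨h1, h2, h3, ?_⟩
      exact hli.ne_zero he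
    · rintro ⟨h1, h2, h3, h4⟩
      exact basis_all hN hr u hu hR p S hS2 hli hspanS e h1 h2 h3 h4
  choose S hS1 hS2 hS3 using hbasis
  -- counting neighbours
  set nb : Fin (N + 1) → Finset (Fin (N + 1)) :=
    fun j => Finset.univ.filter (fun l => l ≠ j ∧ u j l ≠ 0) with hnb
  have hcount : ∀ p j, j ≠ p → N * ((nb j).filter (fun l => l ≠ p)).card = 2 * r := by
    intro p j hj
    rw [← hS2 p j hj, dg_eq_count u hu p j hj (S p) (hS1 p)]
    have hset : (nb j).filter (fun l => l ≠ p) =
        Finset.univ.filter (fun l => l ≠ p ∧ (l ≠ j ∧ u j l ≠ 0)) := by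
      ext l
      simp only [hnb, Finset.mem_filter, Finset.mem_univ, true_and]
      tauto
    rw [hset]
  have hcount2 : ∀ p j, ((nb j).filter (fun l => l ≠ p)).card + (if p ∈ nb j then 1 else 0) =
      (nb j).card := by
    intro p j
    have h1 := Finset.card_filter_add_card_filter_not (s := nb j) (fun l => l ≠ p)
    rw [← h1]
    congr 1
    split_ifs with h
    · have : (nb j).filter (fun l => ¬ l ≠ p) = {p} := by
        ext l
        simp only [Finset.mem_filter, not_not, Finset.mem_singleton]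
        constructor
        · intro h; exact h.2
        · intro h2; rw [h2]; exact ⟨h, rfl⟩
      rw [this, Finset.card_singleton]
    · symm
      rw [Finset.card_eq_zero, Finset.filter_eq_empty_iff]
      intro l hl h2
      rw [not_not] at h2
      rw [h2] at hl
      exact h hl
  have hsame : ∀ j p p', j ≠ p → j ≠ p' → p ∈ nb j → p' ∈ nb j := by
    intro j p p' hp hp' h
    by_contra hcon
    have h1 := hcount p j hp
    have h2 := hcount p' j hp'
    have h3 : ((nb j).filter (fun l => l ≠ p)).card = ((nb j).filter (fun l => l ≠ p')).card :=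
      Nat.eq_of_mul_eq_mul_left hN (h1.trans h2.symm)
    have h4 := hcount2 p j
    have h5 := hcount2 p' j
    rw [if_pos h] at h4
    rw [if_neg hcon] at h5
    omega
  have hex : ∃ e, e ∈ S 0 := by
    have : 0 < (S 0).card := by rw [hS3]; omega
    exact Finset.card_pos.mp this
  obtain ⟨e, he⟩ := hex
  obtain ⟨he1, _, _, he4⟩ := (hS1 0 e).mp he
  have hne : e.2 ≠ e.1 := (ne_of_lt he1).symm
  have hA : e.2 ∈ nb e.1 := by
    simp only [hnb, Finset.mem_filter, Finset.mem_univ, true_and]
    exact ⟨hne, he4⟩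
  have hB : ∀ p, p ≠ e.1 → p ∈ nb e.1 := fun p hp => hsame e.1 e.2 p hne.symm hp.symm hA
  have hnbsymm : ∀ a b, a ∈ nb b → b ∈ nb a := by
    intro a b h
    simp only [hnb, Finset.mem_filter, Finset.mem_univ, true_and] at h ⊢
    exact ⟨h.1.symm, hu' _ _ h.2⟩
  have hC : ∀ j p, p ≠ j → p ∈ nb j := by
    intro j p hp
    by_cases hj : j = e.1
    · rw [hj]; exact hB p (by rw [← hj]; exact hp)
    · exact hsame j e.1 p hj hp.symm (hnbsymm _ _ (hB j hj))
  -- two distinct vertices
  have hne2 : (⟨0, by omega⟩ : Fin (N + 1)) ≠ ⟨N, by omega⟩ := by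
    intro h
    have := congrArg Fin.val h
    simp at this
    omega
  have hfin := hcount ⟨N, by omega⟩ ⟨0, by omega⟩ hne2
  have hfin2 := hcount2 ⟨N, by omega⟩ ⟨0, by omega⟩
  rw [if_pos (hC _ _ hne2.symm)] at hfin2
  have hfin3 : (nb ⟨0, by omega⟩).card = N := by
    have : nb ⟨0, by omega⟩ = Finset.univ.erase ⟨0, by omega⟩ := by
      ext l
      rw [Finset.mem_erase]
      constructor
      · intro h
        simp only [hnb, Finset.mem_filter, Finset.mem_univ, true_and] at h
        exact ⟨h.1, Finset.mem_univ _⟩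
      · intro h; exact hC _ _ h.1
    rw [this, Finset.card_erase_of_mem (Finset.mem_univ _), Finset.card_univ, Fintype.card_fin]
    simp
  rw [← hfin]
  congr 1
  omega

end Pool.Agent.Helper88
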