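import Mathlib

set_option autoImplicit false

open MeasureTheory Metric Set

namespace Pool.Agent.Helper88

variable {α : Type*} [PartialOrder α]

/-- Marked points of Kleinbock and Margulis. -/
def Marked (ψ : α → ℝ → ℝ) (ε ρ : ℝ) (S : Finset α) (x : ℝ) : Prop :=
  ∃ T : Finset α, T ⊆ S ∧ IsChain (· ≤ ·) (T : Set α) ∧ (∀ t ∈ T, ε ≤ ψ t x ∧ ψ t x ≤ ρ) ∧
    ∀ s ∈ S, s ∉ T → (∀ t ∈ T, s ≤ t ∨ t ≤ s) → ρ ≤ ψ s x

/-- The constants of the covering argument. -/
noncomputable def akm (M : ℕ) : ℕ → ℝ
  | 0 => 0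
  | (k + 1) => 3 * M * (1 + akm M k)

lemma akm_nonneg (M k : ℕ) : 0 ≤ akm M k := by
  induction k with
  | zero => simp [akm]
  | succ k ih => rw [akm]; positivity

lemma marked_extend {ψ : α → ℝ → ℝ} {ε ρ : ℝ} {S S' : Finset α} {s₀ : α} {x : ℝ}
    (hs₀ : s₀ ∈ S) (hS' : ∀ s, s ∈ S' ↔ s ∈ S ∧ s ≠ s₀ ∧ (s ≤ s₀ ∨ s₀ ≤ s))
    (hx : Marked ψ ε ρ S' x) (h1 : ε ≤ ψ s₀ x) (h2 : ψ s₀ x ≤ ρ) : Marked ψ ε ρ S x := by
  classical
  obtain ⟨T, hTS, hT, hT2, hT3⟩ := hx
  refine ⟨insert s₀ T, ?_, ?_, ?_, ?_⟩
  · intro s hs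
    rcases Finset.mem_insert.mp hs with rfl | hs
    · exact hs₀
    · exact ((hS' s).mp (hTS hs)).1
  · rw [Finset.coe_insert]
    apply hT.insert
    intro b hb _
    have := ((hS' b).mp (hTS (Finset.mem_coe.mp hb))).2.2
    tauto
  · intro t ht
    rcases Finset.mem_insert.mp ht with rfl | ht
    · exact ⟨h1, h2⟩
    · exact hT2 t ht
  · intro s hs hsT hcomp
    rw [Finset.mem_insert, not_or] at hsT
    apply hT3 s _ hsT.2
    · intro t ht
      exact hcomp t (Finset.mem_insert_of_mem ht)
    · rw [hS']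
      exact ⟨hs, hsT.1, hcomp s₀ (Finset.mem_insert_self _ _)⟩

theorem km_covering {M : ℕ} {τ : ℝ} (hτ : 1 < τ)
    (hM : IsEmpty (Besicovitch.SatelliteConfig ℝ M τ))
    {ψ : α → ℝ → ℝ} {ε ρ δ : ℝ} (hδ : 0 ≤ δ) (k : ℕ) :
    ∀ (S : Finset α), (∀ s ∈ S, Continuous (ψ s)) →
      (∀ s ∈ S, ∀ y r, 0 < r → (∃ z ∈ closedBall y r, ρ ≤ ψ s z) →
        volume {x ∈ closedBall y r | ψ s x < ε} ≤ ENNReal.ofReal (δ * r)) →
      (∀ T ⊆ S, IsChain (· ≤ ·) (T : Set α) → T.card ≤ k) →
      ∀ (y0 r0 : ℝ), 0 < r0 →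
      (∀ s ∈ S, ∃ z ∈ closedBall y0 r0, ρ ≤ ψ s z) →
      volume {x ∈ closedBall y0 r0 | ¬ Marked ψ ε ρ S x} ≤
        ENNReal.ofReal (akm M k * δ * r0) := by
  classical
  induction k with
  | zero =>
    intro S _ _ hchain y0 r0 _ _
    have hS : S = ∅ := by
      by_contra hne
      obtain ⟨s, hs⟩ := Finset.nonempty_iff_ne_empty.mpr hne
      have := hchain {s} (Finset.singleton_subset_iff.mpr hs) (by
        rw [Finset.coe_singleton]; exact IsChain.singleton)
      simp at this
    subst hS
    have : {x ∈ closedBall y0 r0 | ¬ Marked ψ ε ρ ∅ x} = ∅ := by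
      ext x
      simp only [mem_setOf_eq, mem_empty_iff_false, iff_false, not_and, not_not]
      intro _
      refine ⟨∅, by simp, by simp [IsChain], by simp, by simp⟩
    rw [this]
    simp
  | succ k ih =>
    intro S hc hG hchain y0 r0 hr0 hz
    rcases S.eq_empty_or_nonempty with hS | hS
    · subst hS
      have : {x ∈ closedBall y0 r0 | ¬ Marked ψ ε ρ ∅ x} = ∅ := by
        ext x
        simp only [mem_setOf_eq, mem_empty_iff_false, iff_false, not_and, not_not]
        intro _
        refine ⟨∅, by simp, by simp [IsChain], by simp, by simp⟩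
      rw [this]
      simp
    -- the closed sets
    set Z : α → Set ℝ := fun s => {z | ρ ≤ ψ s z} with hZ
    have hZclosed : ∀ s ∈ S, IsClosed (Z s) := fun s hs => isClosed_le continuous_const (hc s hs)
    have hZne : ∀ s ∈ S, (Z s).Nonempty := fun s hs => by
      obtain ⟨z, _, hz⟩ := hz s hs
      exact ⟨z, hz⟩
    have hmax : ∀ y : ℝ, ∃ s ∈ S, ∀ s' ∈ S, infDist y (Z s') ≤ infDist y (Z s) :=
      fun y => Finset.exists_max_image S (fun s => infDist y (Z s)) hS
    choose sf hsf hsfmax using hmax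
    set rf : ℝ → ℝ := fun y => infDist y (Z (sf y)) with hrf
    set E : Set ℝ := {x | x ∈ closedBall y0 r0 ∧ ∃ s ∈ S, ψ s x < ρ} with hE
    have hrpos : ∀ y ∈ E, 0 < rf y := by
      intro y hy
      obtain ⟨_, s, hs, hlt⟩ := hy
      have h1 : y ∉ Z s := by
        simp only [hZ, mem_setOf_eq, not_le]; exact hlt
      have h2 : 0 < infDist y (Z s) := by
        exact ((hZclosed s hs).notMem_iff_infDist_pos (hZne s hs)).mp h1
      exact lt_of_lt_of_le h2 (hsfmax y s hs)
    have hrle : ∀ y ∈ closedBall y0 r0, rf y ≤ 2 * r0 := by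
      intro y hy
      obtain ⟨z, hzB, hz⟩ := hz (sf y) (hsf y)
      have h1 : infDist y (Z (sf y)) ≤ dist y z := infDist_le_dist_of_mem hz
      have h2 : dist y z ≤ dist y y0 + dist z y0 := dist_triangle_right _ _ _
      rw [mem_closedBall] at hy hzB
      simp only [hrf]
      linarith
    -- the local estimate
    have hlocal : ∀ y ∈ E, volume {x ∈ closedBall y (rf y) | ¬ Marked ψ ε ρ S x} ≤
        ENNReal.ofReal ((1 + akm M k) * δ * rf y) := by
      intro y hy
      have hrp := hrpos y hy
      set s₀ := sf y with hs₀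
      have hs₀S : s₀ ∈ S := hsf y
      set S' : Finset α := S.filter (fun s => s ≠ s₀ ∧ (s ≤ s₀ ∨ s₀ ≤ s)) with hS'
      have hS'mem : ∀ s, s ∈ S' ↔ s ∈ S ∧ s ≠ s₀ ∧ (s ≤ s₀ ∨ s₀ ≤ s) := by
        intro s; rw [hS', Finset.mem_filter]
      have hS'S : S' ⊆ S := Finset.filter_subset _ _
      -- on the closed ball, the function of s₀ is at most ρ
      have hle : ∀ x ∈ closedBall y (rf y), ψ s₀ x ≤ ρ := by
        have hball : ball y (rf y) ⊆ {x | ψ s₀ x ≤ ρ} := by
          intro x hx
          by_contra hcon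
          simp only [mem_setOf_eq, not_le] at hcon
          have h1 : infDist y (Z s₀) ≤ dist y x := infDist_le_dist_of_mem (by
            simp only [hZ, mem_setOf_eq]; exact hcon.le)
          rw [mem_ball, dist_comm] at hx
          simp only [hrf] at hx
          linarith
        have hclosed : IsClosed {x | ψ s₀ x ≤ ρ} := isClosed_le (hc s₀ hs₀S) continuous_const
        have h2 : closure (ball y (rf y)) ⊆ {x | ψ s₀ x ≤ ρ} :=
          closure_minimal hball hclosed
        rw [closure_ball y hrp.ne'] at h2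
        exact fun x hx => h2 hx
      -- every other s has a good point on the ball
      have hgood : ∀ s ∈ S, ∃ z ∈ closedBall y (rf y), ρ ≤ ψ s z := by
        intro s hs
        obtain ⟨z, hzZ, hzd⟩ := (hZclosed s hs).exists_infDist_eq_dist (hZne s hs) y
        refine ⟨z, ?_, hzZ⟩
        rw [mem_closedBall, dist_comm, ← hzd]
        exact hsfmax y s hs
      have hchain' : ∀ T ⊆ S', IsChain (· ≤ ·) (T : Set α) → T.card ≤ k := by
        intro T hT hTc
        have hs₀T : s₀ ∉ T := fun h => ((hS'mem s₀).mp (hT h)).2.1 rfl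
        have h1 := hchain (insert s₀ T) (by
          intro s hs
          rcases Finset.mem_insert.mp hs with rfl | hs
          · exact hs₀S
          · exact hS'S (hT hs)) (by
          rw [Finset.coe_insert]
          apply hTc.insert
          intro b hb _
          have := ((hS'mem b).mp (hT (Finset.mem_coe.mp hb))).2.2
          tauto)
        rw [Finset.card_insert_of_notMem hs₀T] at h1
        omega
      have h1 := ih S' (fun s hs => hc s (hS'S hs)) (fun s hs => hG s (hS'S hs)) hchain' y (rf y)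
        hrp (fun s hs => hgood s (hS'S hs))
      have h2 := hG s₀ hs₀S y (rf y) hrp (hgood s₀ hs₀S)
      have hsub : {x ∈ closedBall y (rf y) | ¬ Marked ψ ε ρ S x} ⊆
          {x ∈ closedBall y (rf y) | ¬ Marked ψ ε ρ S' x} ∪
            {x ∈ closedBall y (rf y) | ψ s₀ x < ε} := by
        intro x hx
        obtain ⟨hxB, hxM⟩ := hx
        by_cases hlt : ψ s₀ x < ε
        · exact Or.inr ⟨hxB, hlt⟩
        · left
          refine ⟨hxB, fun hM' => hxM ?_⟩
          exact marked_extend hs₀S hS'mem hM' (not_lt.mp hlt) (hle x hxB)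
      calc volume {x ∈ closedBall y (rf y) | ¬ Marked ψ ε ρ S x}
          ≤ volume {x ∈ closedBall y (rf y) | ¬ Marked ψ ε ρ S' x} +
            volume {x ∈ closedBall y (rf y) | ψ s₀ x < ε} :=
            (measure_mono hsub).trans (measure_union_le _ _)
        _ ≤ ENNReal.ofReal (akm M k * δ * rf y) + ENNReal.ofReal (δ * rf y) :=
            add_le_add h1 h2
        _ = ENNReal.ofReal ((1 + akm M k) * δ * rf y) := by
            have := akm_nonneg M k
            rw [← ENNReal.ofReal_add (by positivity) (by positivity)]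
            congr 1; ring
    -- the covering
    let q : Besicovitch.BallPackage E ℝ :=
      { c := fun y => y
        r := fun y => rf y
        rpos := fun y => hrpos y y.2
        r_bound := 2 * r0
        r_le := fun y => hrle y y.2.1 }
    obtain ⟨s, hdisj, hcov⟩ := Besicovitch.exist_disjoint_covering_families hτ hM q
    have hcount : ∀ i, (s i).Countable := by
      intro i
      apply (hdisj i).countable_of_nonempty_interior
      intro j _
      have : ball (q.c j) (q.r j) ⊆ interior (closedBall (q.c j) (q.r j)) :=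
        ball_subset_interior_closedBall
      exact ⟨q.c j, this (mem_ball_self (q.rpos j))⟩
    have hcover : {x ∈ closedBall y0 r0 | ¬ Marked ψ ε ρ S x} ⊆
        ⋃ i : Fin M, ⋃ j ∈ s i, {x ∈ closedBall (j : ℝ) (rf j) | ¬ Marked ψ ε ρ S x} := by
      intro x hx
      obtain ⟨hxB, hxM⟩ := hx
      have hxE : x ∈ E := by
        refine ⟨hxB, ?_⟩
        by_contra hcon
        push Not at hcon
        apply hxM
        refine ⟨∅, by simp, by simp [IsChain], by simp, ?_⟩
        intro s hs _ _
        exact hcon s hs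
      have h1 : x ∈ range q.c := ⟨⟨x, hxE⟩, rfl⟩
      have h2 := hcov h1
      simp only [mem_iUnion] at h2 ⊢
      obtain ⟨i, j, hj, hxj⟩ := h2
      refine ⟨i, j, hj, ball_subset_closedBall hxj, hxM⟩
    have hfam : ∀ i : Fin M, volume (⋃ j ∈ s i,
        {x ∈ closedBall (j : ℝ) (rf j) | ¬ Marked ψ ε ρ S x}) ≤
        ENNReal.ofReal (3 * (1 + akm M k) * δ * r0) := by
      intro i
      have hak := akm_nonneg M k
      have hcnt := hcount i
      haveI : Countable (s i) := hcnt.to_subtype
      have h1 : volume (⋃ j ∈ s i, {x ∈ closedBall (j : ℝ) (rf j) | ¬ Marked ψ ε ρ S x}) ≤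
          ∑' j : s i, ENNReal.ofReal ((1 + akm M k) * δ * rf j) := by
        refine (measure_biUnion_le volume hcnt _).trans ?_
        exact ENNReal.tsum_le_tsum (fun j => hlocal j j.1.2)
      have h2 : ∑' j : s i, ENNReal.ofReal ((1 + akm M k) * δ * rf j) =
          ENNReal.ofReal ((1 + akm M k) * δ / 2) * ∑' j : s i, volume (closedBall (j : ℝ) (rf j)) := by
        rw [← ENNReal.tsum_mul_left]
        congr 1
        ext j
        rw [Real.volume_closedBall, ← ENNReal.ofReal_mul (by positivity)]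
        congr 1; ring
      have h3 : ∑' j : s i, volume (closedBall (j : ℝ) (rf j)) ≤ ENNReal.ofReal (6 * r0) := by
        have h4 : ∑' j : s i, volume (closedBall (j : ℝ) (rf j)) =
            volume (⋃ j ∈ s i, closedBall (q.c j) (q.r j)) := by
          rw [measure_biUnion hcnt (hdisj i) (fun j _ => isClosed_closedBall.measurableSet)]
        rw [h4]
        have h5 : (⋃ j ∈ s i, closedBall (q.c j) (q.r j)) ⊆ closedBall y0 (3 * r0) := by
          intro x hx
          simp only [mem_iUnion] at hx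
          obtain ⟨j, _, hxj⟩ := hx
          rw [mem_closedBall] at hxj ⊢
          have h6 : q.r j ≤ 2 * r0 := q.r_le j
          have h7 : dist (q.c j) y0 ≤ r0 := j.2.1
          have h8 := dist_triangle x (q.c j) y0
          linarith
        refine (measure_mono h5).trans ?_
        rw [Real.volume_closedBall]
        apply ENNReal.ofReal_le_ofReal
        linarith
      calc volume (⋃ j ∈ s i, {x ∈ closedBall (j : ℝ) (rf j) | ¬ Marked ψ ε ρ S x})
          ≤ ENNReal.ofReal ((1 + akm M k) * δ / 2) * ENNReal.ofReal (6 * r0) := by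
            refine h1.trans ?_
            rw [h2]
            gcongr
        _ = ENNReal.ofReal (3 * (1 + akm M k) * δ * r0) := by
            rw [← ENNReal.ofReal_mul (by positivity)]
            congr 1; ring
    calc volume {x ∈ closedBall y0 r0 | ¬ Marked ψ ε ρ S x}
        ≤ ∑ i : Fin M, volume (⋃ j ∈ s i,
            {x ∈ closedBall (j : ℝ) (rf j) | ¬ Marked ψ ε ρ S x}) :=
          (measure_mono hcover).trans (measure_iUnion_fintype_le _ _)
      _ ≤ ∑ i : Fin M, ENNReal.ofReal (3 * (1 + akm M k) * δ * r0) :=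
          Finset.sum_le_sum (fun i _ => hfam i)
      _ = ENNReal.ofReal (akm M (k + 1) * δ * r0) := by
          have hak := akm_nonneg M k
          rw [Finset.sum_const, Finset.card_univ, Fintype.card_fin, nsmul_eq_mul,
            ← ENNReal.ofReal_natCast, ← ENNReal.ofReal_mul (by positivity)]
          congr 1
          rw [akm]; ring

end Pool.Agent.Helper88
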