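import Pool.Agent.Helper88.Ext

set_option autoImplicit false

open Set Module

namespace Pool.Agent.Helper88

variable {ι : Type*} [Fintype ι]

/-- The real vector of an integer vector. -/
def toR (v : ι → ℤ) : ι → ℝ := fun i => (v i : ℝ)

/-- The minors of the image of a tuple. -/
noncomputable def mnr {r : ℕ} (A : Matrix ι ι ℝ) (b : Fin r → ι → ℝ) (e : Fin r → ι) : ℝ :=
  Matrix.det (Matrix.of fun a c => (A.mulVec (b c)) (e a))

/-- The sum of the absolute values of the minors. -/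
noncomputable def psi {r : ℕ} (A : Matrix ι ι ℝ) (b : Fin r → ι → ℝ) : ℝ :=
  ∑ e : Fin r → ι, |mnr A b e|

lemma psi_nonneg {r : ℕ} (A : Matrix ι ι ℝ) (b : Fin r → ι → ℝ) : 0 ≤ psi A b :=
  Finset.sum_nonneg (fun _ _ => abs_nonneg _)

lemma mnr_change {r : ℕ} (A : Matrix ι ι ℝ) (b b' : Fin r → ι → ℝ)
    (M : Matrix (Fin r) (Fin r) ℝ) (h : ∀ c, b' c = ∑ c', M c c' • b c') (e : Fin r → ι) :
    mnr A b' e = M.det * mnr A b e := by
  have h1 : (Matrix.of fun a c => (A.mulVec (b' c)) (e a)) =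
      (Matrix.of fun a c => (A.mulVec (b c)) (e a)) * M.transpose := by
    ext a c
    rw [Matrix.mul_apply]
    simp only [Matrix.of_apply, Matrix.transpose_apply]
    rw [h c, Matrix.mulVec_sum, Finset.sum_apply]
    apply Finset.sum_congr rfl
    intro c' _
    rw [Matrix.mulVec_smul, Pi.smul_apply, smul_eq_mul, mul_comm]
  unfold mnr
  rw [h1, Matrix.det_mul, Matrix.det_transpose, mul_comm]

lemma psi_change {r : ℕ} (A : Matrix ι ι ℝ) (b b' : Fin r → ι → ℝ)
    (M : Matrix (Fin r) (Fin r) ℝ) (h : ∀ c, b' c = ∑ c', M c c' • b c') :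
    psi A b' = |M.det| * psi A b := by
  unfold psi
  rw [Finset.mul_sum]
  apply Finset.sum_congr rfl
  intro e _
  rw [mnr_change A b b' M h e, abs_mul]

/-- The integral covolume. -/
def cov {r : ℕ} (b : Fin r → ι → ℤ) : ℕ :=
  ∑ e : Fin r → ι, (Matrix.det (Matrix.of fun a c => b c (e a))).natAbs

lemma cov_eq [DecidableEq ι] {r : ℕ} (b : Fin r → ι → ℤ) :
    ((cov b : ℕ) : ℝ) = psi (1 : Matrix ι ι ℝ) (fun c => toR (b c)) := by
  unfold cov psi
  push_cast
  apply Finset.sum_congr rfl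
  intro e _
  have h1 : ((Matrix.det (Matrix.of fun a c => b c (e a)) : ℤ) : ℝ) =
      mnr (1 : Matrix ι ι ℝ) (fun c => toR (b c)) e := by
    rw [Int.cast_det]
    unfold mnr
    congr 1
    ext a c
    simp [toR]
  rw [← h1]
  rw [Nat.cast_natAbs, Int.cast_abs]

lemma cov_pos {r : ℕ} (b : Fin r → ι → ℤ) (hb : LinearIndependent ℝ (fun c => toR (b c))) :
    0 < cov b := by
  classical
  obtain ⟨e, _, he⟩ := exists_rows _ hb
  have h1 : 0 < psi (1 : Matrix ι ι ℝ) (fun c => toR (b c)) := by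
    unfold psi
    apply Finset.sum_pos' (fun _ _ => abs_nonneg _)
    refine ⟨e, Finset.mem_univ _, ?_⟩
    rw [abs_pos]
    unfold mnr
    simpa using he
  rw [← cov_eq] at h1
  exact_mod_cast h1

/-- Integral bases of a subspace. -/
def IsIB {r : ℕ} (W : Submodule ℝ (ι → ℝ)) (b : Fin r → ι → ℤ) : Prop :=
  LinearIndependent ℝ (fun c => toR (b c)) ∧ ∀ c, toR (b c) ∈ W

lemma exists_min_basis {r : ℕ} (W : Submodule ℝ (ι → ℝ)) (h : ∃ b : Fin r → ι → ℤ, IsIB W b) :
    ∃ b : Fin r → ι → ℤ, IsIB W b ∧ ∀ b' : Fin r → ι → ℤ, IsIB W b' → cov b ≤ cov b' := by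
  obtain ⟨b, hb, hmin⟩ := WellFounded.has_min (measure (fun b : Fin r → ι → ℤ => cov b)).wf
    {b | IsIB W b} h
  refine ⟨b, hb, fun b' hb' => ?_⟩
  exact not_lt.mp (hmin b' hb')

lemma span_eq_of_IsIB {r : ℕ} {W : Submodule ℝ (ι → ℝ)} (hr : finrank ℝ W = r)
    {b : Fin r → ι → ℤ} (hb : IsIB W b) :
    Submodule.span ℝ (range (fun c => toR (b c))) = W := by
  apply Submodule.eq_of_le_of_finrank_le
  · rw [Submodule.span_le]
    rintro _ ⟨c, rfl⟩
    exact hb.2 c
  · rw [finrank_span_eq_card hb.1, Fintype.card_fin, hr]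

lemma psi_min [DecidableEq ι] {r : ℕ} {W : Submodule ℝ (ι → ℝ)} (hr : finrank ℝ W = r)
    {b b' : Fin r → ι → ℤ} (hb : IsIB W b) (hb' : IsIB W b') (hmin : cov b ≤ cov b')
    (A : Matrix ι ι ℝ) : psi A (fun c => toR (b c)) ≤ psi A (fun c => toR (b' c)) := by
  have hspan := span_eq_of_IsIB hr hb
  have h1 : ∀ c, ∃ m : Fin r → ℝ, ∑ c', m c' • toR (b c') = toR (b' c) := by
    intro c
    have h2 := hb'.2 c
    rw [← hspan, Submodule.mem_span_range_iff_exists_fun] at h2
    exact h2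
  choose M hM using h1
  have h2 : ∀ c, toR (b' c) = ∑ c', (Matrix.of M) c c' • toR (b c') := fun c => (hM c).symm
  have h3 := psi_change (1 : Matrix ι ι ℝ) (fun c => toR (b c)) (fun c => toR (b' c))
    (Matrix.of M) h2
  rw [← cov_eq, ← cov_eq] at h3
  have h4 : (0 : ℝ) < cov b := by exact_mod_cast cov_pos b hb.1
  have h5 : ((cov b : ℕ) : ℝ) ≤ cov b' := by exact_mod_cast hmin
  have h6 : 1 ≤ |(Matrix.of M).det| := by
    rw [h3] at h5
    by_contra hcon
    push Not at hcon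
    nlinarith
  rw [psi_change A (fun c => toR (b c)) (fun c => toR (b' c)) (Matrix.of M) h2]
  have h7 := psi_nonneg A (fun c => toR (b c))
  nlinarith

lemma mnr_cons {r : ℕ} (A : Matrix ι ι ℝ) (b : Fin r → ι → ℝ) (v : ι → ℝ)
    (e : Fin (r + 1) → ι) :
    mnr A (Fin.cons v b : Fin (r + 1) → ι → ℝ) e =
      ∑ a : Fin (r + 1), (-1) ^ (a : ℕ) * (A.mulVec v) (e a) *
        mnr A b (fun a' => e (a.succAbove a')) := by
  unfold mnr
  rw [Matrix.det_succ_column_zero]
  apply Finset.sum_congr rfl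
  intro a _
  congr 1

lemma sum_insertNth {r : ℕ} (a : Fin (r + 1)) (f : (Fin r → ι) → ℝ) :
    ∑ e : Fin (r + 1) → ι, f (fun a' => e (a.succAbove a')) =
      Fintype.card ι * ∑ e : Fin r → ι, f e := by
  rw [← (Fin.insertNthEquiv (fun _ => ι) a).sum_comp
    (fun e : Fin (r + 1) → ι => f (fun a' => e (a.succAbove a')))]
  rw [Fintype.sum_prod_type]
  simp only [Fin.insertNthEquiv_apply, Fin.insertNth_apply_succAbove]
  rw [Finset.sum_const, Finset.card_univ, nsmul_eq_mul]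

lemma psi_cons_le {r : ℕ} (A : Matrix ι ι ℝ) (b : Fin r → ι → ℝ) (v : ι → ℝ) {η : ℝ}
    (hη : ∀ i, |A.mulVec v i| ≤ η) :
    psi A (Fin.cons v b : Fin (r + 1) → ι → ℝ) ≤ (r + 1) * Fintype.card ι * η * psi A b := by
  unfold psi
  calc ∑ e : Fin (r + 1) → ι, |mnr A (Fin.cons v b : Fin (r + 1) → ι → ℝ) e|
      ≤ ∑ e : Fin (r + 1) → ι, ∑ a : Fin (r + 1), η *
        |mnr A b (fun a' => e (a.succAbove a'))| := by
        apply Finset.sum_le_sum
        intro e _
        rw [mnr_cons]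
        refine (Finset.abs_sum_le_sum_abs _ _).trans ?_
        apply Finset.sum_le_sum
        intro a _
        rw [abs_mul, abs_mul, abs_pow, abs_neg, abs_one, one_pow, one_mul]
        exact mul_le_mul_of_nonneg_right (hη _) (abs_nonneg _)
    _ = ∑ a : Fin (r + 1), η * ∑ e : Fin (r + 1) → ι,
        |mnr A b (fun a' => e (a.succAbove a'))| := by
        rw [Finset.sum_comm]
        apply Finset.sum_congr rfl
        intro a _
        rw [Finset.mul_sum]
    _ = ∑ a : Fin (r + 1), η * (Fintype.card ι * ∑ e : Fin r → ι, |mnr A b e|) := by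
        apply Finset.sum_congr rfl
        intro a _
        rw [sum_insertNth a (fun e => |mnr A b e|)]
    _ = (r + 1) * Fintype.card ι * η * ∑ e : Fin r → ι, |mnr A b e| := by
        rw [Finset.sum_const, Finset.card_univ, Fintype.card_fin, nsmul_eq_mul]
        push_cast
        ring

/-- A span of integer vectors has an integral basis. -/
lemma span_isIB (G : Set (ι → ℤ)) :
    ∃ b : Fin (finrank ℝ (Submodule.span ℝ (toR '' G))) → ι → ℤ,
      IsIB (Submodule.span ℝ (toR '' G)) b := by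
  obtain ⟨κ, a, _, hsp, hli⟩ := exists_linearIndependent' ℝ (fun g : G => toR (g : ι → ℤ))
  have hrange : range (fun g : G => toR (g : ι → ℤ)) = toR '' G := by
    rw [Set.image_eq_range]
  rw [hrange] at hsp
  haveI : Finite κ := hli.finite
  haveI : Fintype κ := Fintype.ofFinite κ
  have hcard : Fintype.card κ = finrank ℝ (Submodule.span ℝ (toR '' G)) := by
    rw [← hsp, finrank_span_eq_card hli]
  let f : Fin (finrank ℝ (Submodule.span ℝ (toR '' G))) ≃ κ :=
    (Fintype.equivFinOfCardEq hcard).symm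
  refine ⟨fun c => (a (f c) : ι → ℤ), ?_, ?_⟩
  · exact hli.comp f f.injective
  · intro c
    apply Submodule.subset_span
    exact ⟨_, (a (f c)).2, rfl⟩

open Classical in
/-- A minimal integral basis. -/
noncomputable def bmin (W : Submodule ℝ (ι → ℝ)) : Fin (finrank ℝ W) → ι → ℤ :=
  if h : ∃ b : Fin (finrank ℝ W) → ι → ℤ, IsIB W b then (exists_min_basis W h).choose else 0

lemma bmin_spec {W : Submodule ℝ (ι → ℝ)} (h : ∃ b : Fin (finrank ℝ W) → ι → ℤ, IsIB W b) :
    IsIB W (bmin W) ∧ ∀ b' : Fin (finrank ℝ W) → ι → ℤ, IsIB W b' → cov (bmin W) ≤ cov b' := by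
  unfold bmin
  rw [dif_pos h]
  exact (exists_min_basis W h).choose_spec

/-- The covolume function of a rational subspace. -/
noncomputable def Psi (A : Matrix ι ι ℝ) (W : Submodule ℝ (ι → ℝ)) : ℝ :=
  psi A (fun c => toR (bmin W c))

lemma Psi_le [DecidableEq ι] {r : ℕ} {W : Submodule ℝ (ι → ℝ)} (hr : finrank ℝ W = r)
    {b : Fin r → ι → ℤ} (hb : IsIB W b) (A : Matrix ι ι ℝ) :
    Psi A W ≤ psi A (fun c => toR (b c)) := by
  subst hr
  have h := bmin_spec ⟨b, hb⟩
  exact psi_min rfl h.1 hb (h.2 b hb) A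

lemma Psi_bot (A : Matrix ι ι ℝ) : Psi A ⊥ = 1 := by
  unfold Psi psi
  have h : finrank ℝ (⊥ : Submodule ℝ (ι → ℝ)) = 0 := finrank_bot _ _
  haveI : IsEmpty (Fin (finrank ℝ (⊥ : Submodule ℝ (ι → ℝ)))) := by
    rw [h]; infer_instance
  have h2 : ∀ e : Fin (finrank ℝ (⊥ : Submodule ℝ (ι → ℝ))) → ι,
      |mnr A (fun c => toR (bmin ⊥ c)) e| = 1 := by
    intro e
    unfold mnr
    rw [Matrix.det_isEmpty, abs_one]
  rw [Finset.sum_congr rfl (fun e _ => h2 e), Finset.sum_const, Finset.card_univ]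
  simp

lemma Psi_sup_le [DecidableEq ι] {W : Submodule ℝ (ι → ℝ)}
    (hW : ∃ b : Fin (finrank ℝ W) → ι → ℤ, IsIB W b) (v : ι → ℤ) (hv : toR v ∉ W)
    (A : Matrix ι ι ℝ) {η : ℝ} (hη : ∀ i, |A.mulVec (toR v) i| ≤ η) :
    Psi A (W ⊔ Submodule.span ℝ {toR v}) ≤
      (finrank ℝ W + 1) * Fintype.card ι * η * Psi A W := by
  have hb := (bmin_spec hW).1
  have hspan := span_eq_of_IsIB rfl hb
  set b' : Fin (finrank ℝ W + 1) → ι → ℤ := Fin.cons v (bmin W) with hb'
  have hcons : (fun c => toR (b' c)) =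
      (Fin.cons (toR v) (fun c => toR (bmin W c)) : Fin (finrank ℝ W + 1) → ι → ℝ) := by
    funext c
    refine Fin.cases ?_ ?_ c
    · simp [hb']
    · intro j; simp [hb']
  have hli : LinearIndependent ℝ (fun c => toR (b' c)) := by
    rw [hcons, linearIndependent_finCons]
    refine ⟨hb.1, ?_⟩
    rw [hspan]
    exact hv
  have hmem : ∀ c, toR (b' c) ∈ W ⊔ Submodule.span ℝ {toR v} := by
    intro c
    refine Fin.cases ?_ ?_ c
    · rw [hb', Fin.cons_zero]
      exact Submodule.mem_sup_right (Submodule.mem_span_singleton_self _)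
    · intro j
      rw [hb', Fin.cons_succ]
      exact Submodule.mem_sup_left (hb.2 j)
  have hr : finrank ℝ (W ⊔ Submodule.span ℝ {toR v} : Submodule ℝ (ι → ℝ)) =
      finrank ℝ W + 1 := by
    have h1 : Submodule.span ℝ (range (fun c => toR (b' c))) =
        W ⊔ Submodule.span ℝ {toR v} := by
      rw [hcons, Fin.range_cons, Submodule.span_insert, hspan, sup_comm]
    rw [← h1, finrank_span_eq_card hli, Fintype.card_fin]
  refine (Psi_le hr ⟨hli, hmem⟩ A).trans ?_
  rw [hcons]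
  exact psi_cons_le A _ _ hη

end Pool.Agent.Helper88
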