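import Pool.Agent.Helper88.Sep
import Pool.Agent.Helper88.Dyadic

set_option autoImplicit false

open Set Module Polynomial MeasureTheory Metric

namespace Pool.Agent.Helper88

/-- The closed set of points avoiding the neighbourhoods of all large algebraic numbers. -/
def Fc (n : ℕ) (w c : ℝ) (H₀ : ℕ) : Set ℝ :=
  {ξ | ∀ β P, IsPair n β P → H₀ ≤ ht P → c * (ht P : ℝ) ^ (-w) ≤ |ξ - β|}

lemma Fc_closed (n : ℕ) (w c : ℝ) (H₀ : ℕ) : IsClosed (Fc n w c H₀) := by
  have : Fc n w c H₀ = ⋂ β, ⋂ P, ⋂ (_ : IsPair n β P), ⋂ (_ : H₀ ≤ ht P),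
      {ξ : ℝ | c * (ht P : ℝ) ^ (-w) ≤ |ξ - β|} := by
    ext ξ
    simp only [mem_iInter]
    rfl
  rw [this]
  apply isClosed_iInter; intro β
  apply isClosed_iInter; intro P
  apply isClosed_iInter; intro _
  apply isClosed_iInter; intro _
  apply isClosed_le continuous_const
  fun_prop

lemma Fc_anti {n : ℕ} {w c c' : ℝ} (h : c' ≤ c) (H₀ : ℕ) : Fc n w c H₀ ⊆ Fc n w c' H₀ := by
  intro ξ hξ β P h1 h2
  refine le_trans ?_ (hξ β P h1 h2)
  gcongr

/-- A good point transfers to nearby points. -/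
lemma good1_transfer {n : ℕ} {B c Q x α : ℝ} (hB : 1 ≤ B) (hc : 0 < c) (hQ : 1 ≤ Q)
    (hx : |x| ≤ B) (hα : |α| ≤ B) (hxα : |x - α| ≤ (Q ^ (n + 1))⁻¹) (hG : Good1 n c Q x) :
    Good1 n (c / (1 + CB n B)) Q α := by
  have hC := CB_pos n hB
  have hQ0 : 0 < Q := by linarith
  set C := CB n B
  set c₄ := c / (1 + C) with hc₄
  have hc₄0 : 0 < c₄ := by positivity
  have hc₄c : c₄ ≤ c := by
    rw [hc₄, div_le_iff₀ (by linarith)]
    nlinarith
  intro v hv hev
  by_contra hcon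
  push Not at hcon
  have h1 := ev_diff hB hα hx (by positivity : 0 ≤ c₄ * Q) (toR v) (fun i hi => hcon i hi)
  have h2 : Q ^ n * |ev (toR v) x| ≤ c := by
    have h3 : |ev (toR v) x| ≤ |ev (toR v) α| + C * (c₄ * Q) * (Q ^ (n + 1))⁻¹ := by
      calc |ev (toR v) x| = |ev (toR v) α + (ev (toR v) x - ev (toR v) α)| := by ring_nf
        _ ≤ |ev (toR v) α| + |ev (toR v) x - ev (toR v) α| := abs_add_le _ _
        _ ≤ |ev (toR v) α| + C * (c₄ * Q) * (Q ^ (n + 1))⁻¹ := by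
            gcongr
            exact h1.trans (by gcongr)
    calc Q ^ n * |ev (toR v) x| ≤ Q ^ n * (|ev (toR v) α| + C * (c₄ * Q) * (Q ^ (n + 1))⁻¹) := by
          gcongr
      _ = Q ^ n * |ev (toR v) α| + C * c₄ := by
          rw [pow_succ]
          field_simp
      _ ≤ c₄ + C * c₄ := by linarith
      _ = c := by rw [hc₄]; field_simp
  obtain ⟨i, hi, hi2⟩ := hG v hv h2
  have h4 := hcon i hi
  have h5 : c₄ * Q ≤ c * Q := by gcongr
  linarith

/-- The local step. -/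
theorem local_step {n : ℕ} (hn : 2 ≤ n) {w : ℝ} (hw : (n : ℝ) + 1 < w)
    {B c c' ca cb c₄ K K₅ Q ε₁ t x α : ℝ} {H₀ : ℕ} {P₀ : ℤ[X]}
    (hB : 1 ≤ B) (hx : |x| + 3 ≤ B) (hQ : 1 ≤ Q)
    (hc' : 0 < c') (hcc' : c' < c) (hca : c' < ca) (hcb : ca < cb)
    (hc₄ : 0 < c₄) (hK₅ : 0 < K₅) (hKc : c₄ ≤ K) (hε₁ : 0 < ε₁)
    (hxα : |x - α| ≤ (Q ^ (n + 1))⁻¹) (hP₀ : IsPair n α P₀)
    (hht : (ht P₀ : ℝ) ≤ K₅ * Q) (hKK : K₅ ≤ K)
    (hxF : x ∈ Fc n w c H₀)
    (hG : Good1 n c₄ Q α)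
    (hsep : ∀ β P, IsPair n β P → β ≠ α → (ht P : ℝ) ≤ K * Q →
      ε₁ * (Q ^ (n + 1))⁻¹ < |β - α|)
    (hexc : ∀ β P, IsPair n β P → (ht P : ℝ) ≤ Q ^ t →
      (2 * c / (c - c')) * (Q ^ (n + 1))⁻¹ ≤ |x - β|)
    (hρ1 : cb * (ht P₀ : ℝ) ^ (-w) ≤ (Q ^ (n + 1))⁻¹)
    (hρ2 : cb * (ht P₀ : ℝ) ^ (-w) ≤ ε₁ * (Q ^ (n + 1))⁻¹ / 2)
    (hρ3 : c' * (Q ^ t) ^ (-w) ≤ ε₁ * (Q ^ (n + 1))⁻¹ / 2)
    (hKsmall : (n * (2 * c') * K ^ (-w) * K₅ ^ w * (4 * K / c₄) ^ n) * (2 * SS n w) ≤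
      (cb - ca) / 4)
    (hQsmall : (n * (2 * c') * K ^ (-w) * K₅ ^ w * (4 * K / c₄) ^ n) *
      ((4 * CB n B * cb * K / c₄) * SS (n + 1) w * ((ht P₀ : ℝ) ^ (-w) * Q ^ (n + 1))) ≤
      (cb - ca) / 4) :
    0 < volume (Fc n w c' H₀ ∩ Icc (α + ca * (ht P₀ : ℝ) ^ (-w)) (α + cb * (ht P₀ : ℝ) ^ (-w))) := by
  have hQ0 : 0 < Q := by linarith
  have hn0 : (0 : ℝ) ≤ n := Nat.cast_nonneg _
  have hw0 : 0 < w := by linarith
  have hK0 : 0 < K := by linarith
  have hht1 : (1 : ℝ) ≤ ht P₀ := by exact_mod_cast ht_pos hP₀.ne_zero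
  have hht0 : (0 : ℝ) < ht P₀ := by linarith
  have hCB := CB_pos n hB
  set C := CB n B with hC
  set ρ : ℝ := (ht P₀ : ℝ) ^ (-w) with hρ
  have hρ0 : 0 < ρ := Real.rpow_pos_of_pos hht0 _
  set h : ℝ := (Q ^ (n + 1))⁻¹ with hh
  have hh0 : 0 < h := by positivity
  have hh1 : h ≤ 1 := inv_le_one_of_one_le₀ (one_le_pow₀ hQ)
  have hca0 : 0 < ca := by linarith
  have hcb0 : 0 < cb := by linarith
  set I := Icc (α + ca * ρ) (α + cb * ρ) with hI
  have hIα : ∀ ξ ∈ I, ca * ρ ≤ |ξ - α| ∧ |ξ - α| ≤ cb * ρ := by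
    intro ξ hξ
    have h1 : ca * ρ ≤ ξ - α := by linarith [hξ.1]
    have h2 : ξ - α ≤ cb * ρ := by linarith [hξ.2]
    have h3 : 0 ≤ ξ - α := le_trans (by positivity) h1
    rw [abs_of_nonneg h3]
    exact ⟨h1, h2⟩
  have hαB : |α| ≤ B - 2 := by
    calc |α| = |x - (x - α)| := by ring_nf
      _ ≤ |x| + |x - α| := abs_sub _ _
      _ ≤ B - 2 := by linarith
  -- small heights
  have hsmallht : ∀ β P, IsPair n β P → H₀ ≤ ht P → (ht P : ℝ) ≤ K * Q → ∀ ξ ∈ I,
      c' * (ht P : ℝ) ^ (-w) ≤ |ξ - β| := by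
    intro β P hP hH hhtP ξ hξ
    have hξα := hIα ξ hξ
    have hhtP0 : (0 : ℝ) < ht P := by
      have : 1 ≤ ht P := ht_pos hP.ne_zero
      exact_mod_cast this
    by_cases hβα : β = α
    · subst hβα
      have h1 : ht P = ht P₀ := by
        rcases pair_unique hP₀ hP with h2 | h2
        · rw [h2]
        · rw [h2, ht_neg]
      rw [h1, ← hρ]
      refine le_trans ?_ hξα.1
      gcongr
    · rcases le_or_gt (ht P : ℝ) (Q ^ t) with hcase | hcase
      · have h1 := hexc β P hP hcase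
        have h2 := hxF β P hP hH
        have h3 : |ξ - x| ≤ 2 * h := by
          calc |ξ - x| = |(ξ - α) - (x - α)| := by ring_nf
            _ ≤ |ξ - α| + |x - α| := abs_sub _ _
            _ ≤ 2 * h := by linarith [hξα.2]
        have h4 : |x - β| - 2 * h ≤ |ξ - β| := by
          have h5 : |x - β| ≤ |ξ - β| + |ξ - x| := by
            calc |x - β| = |(ξ - β) - (ξ - x)| := by ring_nf
              _ ≤ |ξ - β| + |ξ - x| := abs_sub _ _
          linarith
        have hcc : 0 < c - c' := by linarith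
        have h6 : 2 * h ≤ (c - c') / c * |x - β| := by
          have h7 : 0 < c := by linarith
          have h8 : (c - c') / c * (2 * c / (c - c') * h) ≤ (c - c') / c * |x - β| := by
            gcongr
          have h9 : (c - c') / c * (2 * c / (c - c') * h) = 2 * h := by
            field_simp
          linarith
        have h10 : c' / c * |x - β| ≤ |ξ - β| := by
          have h7 : 0 < c := by linarith
          have h11 : (c - c') / c = 1 - c' / c := by field_simp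
          rw [h11] at h6
          linarith
        have h12 : c' * (ht P : ℝ) ^ (-w) ≤ c' / c * |x - β| := by
          have h7 : 0 < c := by linarith
          calc c' * (ht P : ℝ) ^ (-w) = c' / c * (c * (ht P : ℝ) ^ (-w)) := by field_simp
            _ ≤ c' / c * |x - β| := by gcongr
        linarith
      · have h1 := hsep β P hP hβα hhtP
        have h2 : (ht P : ℝ) ^ (-w) ≤ (Q ^ t) ^ (-w) :=
          Real.rpow_le_rpow_of_nonpos (Real.rpow_pos_of_pos hQ0 _) hcase.le (by linarith)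
        have h3 : |β - α| ≤ |ξ - β| + |ξ - α| := by
          calc |β - α| = |(ξ - α) - (ξ - β)| := by ring_nf
            _ ≤ |ξ - α| + |ξ - β| := abs_sub _ _
            _ = |ξ - β| + |ξ - α| := add_comm _ _
        have h4 : c' * (ht P : ℝ) ^ (-w) ≤ c' * (Q ^ t) ^ (-w) := by gcongr
        linarith [hξα.2]
  -- large heights
  set X₀ : ℝ := K * Q with hX₀
  have hX₀0 : 0 < X₀ := by positivity
  set S : ℝ → ℤ[X] → Prop := fun β P => IsPair n β P ∧ X₀ ≤ ht P ∧ |β - α| ≤ 2 * cb * ρ with hS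
  set A : ℝ := (4 * K / c₄) ^ n * (4 * C * cb * K / c₄ * (ρ * Q ^ (n + 1))) with hA
  set A' : ℝ := (4 * K / c₄) ^ n * 2 with hA'
  have hdy := dyadic hw S (fun β P hP => ⟨hP.1.ne_zero, hP.1.deg.le, hP.1.root⟩) hc' hX₀0
    (fun β P hP => hP.2.1) (A := A) (A' := A') (by positivity) (by positivity) (by
      intro Y hY
      have hY0 : 0 < Y := lt_of_lt_of_le hX₀0 hY
      set Z : ℝ := C * Y * (2 * cb * ρ) with hZ
      have h1 := count_cells hc₄ hQ hY0.le (by positivity : 0 ≤ Z) hG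
        {P : ℤ[X] | ∃ β, S β P ∧ (ht P : ℝ) ≤ Y} (by
          rintro P ⟨β, ⟨hP, hP2, hP3⟩, hP4⟩
          refine ⟨hP.deg.le, hP4, ?_⟩
          have hβB : |β| ≤ B := by
            calc |β| = |(β - α) + α| := by ring_nf
              _ ≤ |β - α| + |α| := abs_add_le _ _
              _ ≤ 2 * cb * ρ + (B - 2) := add_le_add hP3 hαB
              _ ≤ B := by linarith
          have h2 := ev_diff hB hβB (by linarith : |α| ≤ B) hY0.le (toR (cv n P))
            (fun i _ => (abs_coeff_le_ht P i).trans hP4)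
          rw [← aeval_eq_ev hP.deg.le, ← aeval_eq_ev hP.deg.le, hP.root, sub_zero, ← hC] at h2
          refine h2.trans ?_
          rw [hZ, abs_sub_comm]
          gcongr)
      refine h1.1.trans ?_
      have hratio : 1 ≤ Y / X₀ := by rw [one_le_div hX₀0]; exact hY
      have hKc4 : 1 ≤ K / c₄ := by rw [one_le_div hc₄]; exact hKc
      have e1 : Y / (c₄ * Q) = K / c₄ * (Y / X₀) := by
        rw [hX₀]; field_simp
      have e2 : 2 * (Y / (c₄ * Q)) + 2 ≤ 4 * K / c₄ * (Y / X₀) := by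
        rw [e1]
        have h3 : 1 ≤ K / c₄ * (Y / X₀) := one_le_mul_of_one_le_of_one_le hKc4 hratio
        have h4 : 4 * K / c₄ * (Y / X₀) = 4 * (K / c₄ * (Y / X₀)) := by ring
        rw [h4]
        linarith
      have e3 : Z * Q ^ n / c₄ = 2 * C * cb * K / c₄ * (ρ * Q ^ (n + 1)) * (Y / X₀) := by
        rw [hZ, hX₀, pow_succ]; field_simp
      calc (2 * (Y / (c₄ * Q)) + 2) ^ n * (2 * (Z * Q ^ n / c₄) + 2)
          ≤ (4 * K / c₄ * (Y / X₀)) ^ n *
            (2 * (2 * C * cb * K / c₄ * (ρ * Q ^ (n + 1)) * (Y / X₀)) + 2) := by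
            rw [e3]
            gcongr
        _ = A * (Y / X₀) ^ (n + 1) + A' * (Y / X₀) ^ n := by
            rw [hA, hA', mul_pow, pow_succ (Y / X₀) n]
            ring)
  -- the bad set
  have hbad : volume (I \ Fc n w c' H₀) ≤ ENNReal.ofReal ((cb - ca) * ρ / 2) := by
    have hsub : I \ Fc n w c' H₀ ⊆ {x : ℝ | ∃ β P, S β P ∧ |x - β| < c' * (ht P : ℝ) ^ (-w)} := by
      rintro ξ ⟨hξI, hξF⟩
      have h1 : ∃ β P, IsPair n β P ∧ H₀ ≤ ht P ∧ |ξ - β| < c' * (ht P : ℝ) ^ (-w) := by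
        by_contra hcon
        push Not at hcon
        exact hξF hcon
      obtain ⟨β, P, hP, hH, hlt⟩ := h1
      have hXP : X₀ < ht P := by
        by_contra hcon
        push Not at hcon
        have := hsmallht β P hP hH hcon ξ hξI
        linarith
      refine ⟨β, P, ⟨hP, hXP.le, ?_⟩, hlt⟩
      have h2 : (ht P : ℝ) ^ (-w) ≤ ρ := by
        apply Real.rpow_le_rpow_of_nonpos hht0 _ (by linarith)
        calc (ht P₀ : ℝ) ≤ K₅ * Q := hht
          _ ≤ K * Q := by gcongr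
          _ ≤ ht P := hXP.le
      calc |β - α| = |(ξ - α) - (ξ - β)| := by ring_nf
        _ ≤ |ξ - α| + |ξ - β| := abs_sub _ _
        _ ≤ cb * ρ + c' * ρ := by
            have h3 : c' * (ht P : ℝ) ^ (-w) ≤ c' * ρ := by gcongr
            linarith [(hIα ξ hξI).2]
        _ ≤ 2 * cb * ρ := by
            have h4 : c' * ρ ≤ cb * ρ := by
              apply mul_le_mul_of_nonneg_right (by linarith) hρ0.le
            linarith
    refine (measure_mono hsub).trans (hdy.trans (ENNReal.ofReal_le_ofReal ?_))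
    have hSS1 := SS_pos (m := n + 1) (w := w) (by push_cast; exact hw)
    have hSS0 := SS_pos (m := n) (w := w) (by linarith)
    have hX₀w : X₀ ^ (-w) ≤ K ^ (-w) * K₅ ^ w * ρ := by
      rw [hX₀, Real.mul_rpow hK0.le hQ0.le, mul_assoc]
      apply mul_le_mul_of_nonneg_left _ (by positivity)
      have h1 : (K₅ * Q) ^ (-w) ≤ ρ :=
        Real.rpow_le_rpow_of_nonpos hht0 hht (by linarith)
      rw [Real.mul_rpow hK₅.le hQ0.le] at h1
      have h2 : K₅ ^ w * K₅ ^ (-w) = 1 := by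
        rw [← Real.rpow_add hK₅]; simp
      calc Q ^ (-w) = K₅ ^ w * (K₅ ^ (-w) * Q ^ (-w)) := by rw [← mul_assoc, h2, one_mul]
        _ ≤ K₅ ^ w * ρ := by gcongr
    calc n * (2 * (c' * X₀ ^ (-w))) * (A * SS (n + 1) w + A' * SS n w)
        ≤ n * (2 * (c' * (K ^ (-w) * K₅ ^ w * ρ))) * (A * SS (n + 1) w + A' * SS n w) := by
          gcongr
      _ = ρ * ((n * (2 * c') * K ^ (-w) * K₅ ^ w * (4 * K / c₄) ^ n) *
            ((4 * C * cb * K / c₄) * SS (n + 1) w * (ρ * Q ^ (n + 1))) +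
            (n * (2 * c') * K ^ (-w) * K₅ ^ w * (4 * K / c₄) ^ n) * (2 * SS n w)) := by
          rw [hA, hA']; ring
      _ ≤ ρ * ((cb - ca) / 4 + (cb - ca) / 4) := by
          apply mul_le_mul_of_nonneg_left (add_le_add hQsmall hKsmall) hρ0.le
      _ = (cb - ca) * ρ / 2 := by ring
  by_contra hzero
  have hzero' : volume (Fc n w c' H₀ ∩ I) = 0 := by
    rwa [not_lt, nonpos_iff_eq_zero] at hzero
  have htot : volume I ≤ volume (Fc n w c' H₀ ∩ I) + volume (I \ Fc n w c' H₀) := by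
    refine (measure_mono ?_).trans (measure_union_le _ _)
    intro ξ hξ
    by_cases h1 : ξ ∈ Fc n w c' H₀
    · exact Or.inl ⟨h1, hξ⟩
    · exact Or.inr ⟨hξ, h1⟩
  rw [hzero', zero_add] at htot
  have hvolI : volume I = ENNReal.ofReal ((cb - ca) * ρ) := by
    rw [hI, Real.volume_Icc]
    congr 1; ring
  rw [hvolI] at htot
  have h1 := htot.trans hbad
  have h2 : 0 < (cb - ca) * ρ := mul_pos (by linarith) hρ0
  rw [ENNReal.ofReal_le_ofReal_iff (by positivity)] at h1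
  linarith

end Pool.Agent.Helper88
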