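import Pool.Agent.Helper88.Good
import Pool.Agent.Helper88.KM
import Pool.Agent.Helper88.Lattice

set_option autoImplicit false

open Set Module MeasureTheory Metric

namespace Pool.Agent.Helper88

/-- Polynomial functions of bounded degree. -/
def PolyFn (d : ℕ) (f : ℝ → ℝ) : Prop :=
  ∃ p : Polynomial ℝ, p.natDegree ≤ d ∧ ∀ x, f x = p.eval x

lemma PolyFn.continuous {d : ℕ} {f : ℝ → ℝ} (hf : PolyFn d f) : Continuous f := by
  obtain ⟨p, _, hp⟩ := hf
  have : f = fun x => p.eval x := funext hp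
  rw [this]
  exact p.continuous

lemma PolyFn.mono {d d' : ℕ} {f : ℝ → ℝ} (hf : PolyFn d f) (h : d ≤ d') : PolyFn d' f := by
  obtain ⟨p, h1, hp⟩ := hf
  exact ⟨p, h1.trans h, hp⟩

variable {ι : Type*} [Fintype ι]

lemma polyFn_mulVec {H : ℝ → Matrix ι ι ℝ} {d : ℕ} (hH : ∀ i j, PolyFn d (fun x => H x i j))
    (v : ι → ℝ) (i : ι) : PolyFn d (fun x => (H x).mulVec v i) := by
  choose p hp1 hp2 using hH i
  refine ⟨∑ j, p j * Polynomial.C (v j), ?_, ?_⟩
  · apply Polynomial.natDegree_sum_le_of_forall_le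
    intro j _
    exact (Polynomial.natDegree_mul_C_le _ _).trans (hp1 j)
  · intro x
    rw [Polynomial.eval_finsetSum]
    simp only [Matrix.mulVec, dotProduct, Polynomial.eval_mul, Polynomial.eval_C]
    apply Finset.sum_congr rfl
    intro j _
    rw [← hp2 j x]

lemma polyFn_mnr {H : ℝ → Matrix ι ι ℝ} {d : ℕ} (hH : ∀ i j, PolyFn d (fun x => H x i j))
    {r : ℕ} (b : Fin r → ι → ℝ) (e : Fin r → ι) : PolyFn (r * d) (fun x => mnr (H x) b e) := by
  have h1 := fun (a c : Fin r) => polyFn_mulVec hH (b c) (e a)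
  choose p hp1 hp2 using h1
  refine ⟨Matrix.det (Matrix.of p), ?_, ?_⟩
  · rw [Matrix.det_apply']
    apply Polynomial.natDegree_sum_le_of_forall_le
    intro σ _
    refine Polynomial.natDegree_mul_le.trans ?_
    rw [Polynomial.natDegree_intCast, zero_add]
    refine (Polynomial.natDegree_prod_le _ _).trans ?_
    calc ∑ i : Fin r, (Matrix.of p (σ i) i).natDegree ≤ ∑ i : Fin r, d :=
          Finset.sum_le_sum (fun i _ => hp1 (σ i) i)
      _ = r * d := by simp
  · intro x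
    unfold mnr
    have h2 : Polynomial.eval x (Matrix.det (Matrix.of p)) =
        Matrix.det ((Polynomial.evalRingHom x).mapMatrix (Matrix.of p)) := by
      rw [← RingHom.map_det]; rfl
    rw [h2]
    refine congrArg Matrix.det (Matrix.ext fun a c => ?_)
    simp only [Matrix.of_apply, RingHom.mapMatrix_apply, Matrix.map_apply,
      Polynomial.coe_evalRingHom]
    exact hp2 a c x

lemma chain_card (T : Finset (Submodule ℝ (ι → ℝ)))
    (hT : IsChain (· ≤ ·) (T : Set (Submodule ℝ (ι → ℝ))))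
    (h0 : ∀ W ∈ T, W ≠ ⊥) : T.card ≤ Fintype.card ι := by
  have h1 : T.card ≤ (Finset.Icc 1 (Fintype.card ι)).card := by
    apply Finset.card_le_card_of_injOn (fun W : Submodule ℝ (ι → ℝ) => finrank ℝ W)
    · intro W hW
      have hW' : W ∈ T := Finset.mem_coe.mp hW
      simp only [Finset.coe_Icc, mem_Icc]
      refine ⟨?_, ?_⟩
      · have := h0 W hW'
        rw [Nat.one_le_iff_ne_zero]
        intro h
        exact this (Submodule.finrank_eq_zero.mp h)
      · have := Submodule.finrank_le W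
        rwa [Module.finrank_fintype_fun_eq_card] at this
    · intro W hW W' hW' heq
      simp only at heq
      rcases hT.total hW hW' with h | h
      · exact Submodule.eq_of_le_of_finrank_eq h heq
      · exact (Submodule.eq_of_le_of_finrank_eq h heq.symm).symm
  simpa using h1

lemma toR_ne_zero {v : ι → ℤ} (hv : v ≠ 0) : toR v ≠ 0 := by
  intro h
  apply hv
  funext i
  have := congrFun h i
  simp only [toR, Pi.zero_apply] at this
  exact_mod_cast this

variable [DecidableEq ι]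

open Classical in
/-- The poset of non-zero rational spans. -/
noncomputable def SP (F : Finset (ι → ℤ)) : Finset (Submodule ℝ (ι → ℝ)) :=
  (F.powerset.image (fun G : Finset (ι → ℤ) => Submodule.span ℝ (toR '' (G : Set (ι → ℤ))))).filter (fun W => W ≠ ⊥)

lemma mem_SP {F : Finset (ι → ℤ)} {W : Submodule ℝ (ι → ℝ)} :
    W ∈ SP F ↔ (∃ G : Finset (ι → ℤ), G ⊆ F ∧
      Submodule.span ℝ (toR '' (G : Set (ι → ℤ))) = W) ∧ W ≠ ⊥ := by
  unfold SP
  rw [Finset.mem_filter, Finset.mem_image]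
  constructor
  · rintro ⟨⟨G, hG, h⟩, h2⟩
    exact ⟨⟨G, Finset.mem_powerset.mp hG, h⟩, h2⟩
  · rintro ⟨⟨G, hG, h⟩, h2⟩
    exact ⟨⟨G, Finset.mem_powerset.mpr hG, h⟩, h2⟩

/-- Marked points have no short vectors. -/
lemma marked_no_short (A : Matrix ι ι ℝ) {F : Finset (ι → ℤ)} {ε ρ η : ℝ} (hρ1 : ρ ≤ 1)
    (hερ : ε ≤ ρ) (T : Finset (Submodule ℝ (ι → ℝ))) (hTS : T ⊆ SP F)
    (hT : IsChain (· ≤ ·) (T : Set (Submodule ℝ (ι → ℝ))))
    (hT2 : ∀ t ∈ T, ε ≤ Psi A t ∧ Psi A t ≤ ρ)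
    (hT3 : ∀ s ∈ SP F, s ∉ T → (∀ t ∈ T, s ≤ t ∨ t ≤ s) → ρ ≤ Psi A s)
    (v : ι → ℤ) (hvF : v ∈ F) (hv : v ≠ 0)
    (hη : ∀ i, |A.mulVec (toR v) i| ≤ η) :
    ε ≤ (Fintype.card ι : ℝ) ^ 2 * η := by
  classical
  set C : Finset (Submodule ℝ (ι → ℝ)) := insert ⊥ (T.filter (fun t => toR v ∉ t)) with hC
  have hCne : C.Nonempty := ⟨⊥, Finset.mem_insert_self _ _⟩
  obtain ⟨W₀, hW₀⟩ := C.exists_maximal hCne
  have hW₀C : W₀ ∈ C := hW₀.prop
  have hmemC : ∀ t ∈ C, t = ⊥ ∨ (t ∈ T ∧ toR v ∉ t) := by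
    intro t ht
    rw [hC, Finset.mem_insert, Finset.mem_filter] at ht
    exact ht
  have hvW₀ : toR v ∉ W₀ := by
    rcases hmemC W₀ hW₀C with h | h
    · rw [h, Submodule.mem_bot]
      exact toR_ne_zero hv
    · exact h.2
  have hgreatest : ∀ t ∈ C, t ≤ W₀ := by
    intro t ht
    have htot : t ≤ W₀ ∨ W₀ ≤ t := by
      rcases hmemC W₀ hW₀C with h | h
      · right; rw [h]; exact bot_le
      · rcases hmemC t ht with h' | h'
        · left; rw [h']; exact bot_le
        · exact hT.total h'.1 h.1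
    rcases htot with h | h
    · exact h
    · exact hW₀.2 ht h
  have hW₀G : ∃ G : Finset (ι → ℤ), G ⊆ F ∧
      Submodule.span ℝ (toR '' (G : Set (ι → ℤ))) = W₀ := by
    rcases hmemC W₀ hW₀C with h | h
    · exact ⟨∅, by simp, by simp [h]⟩
    · exact (mem_SP.mp (hTS h.1)).1
  obtain ⟨G, hGF, hGW⟩ := hW₀G
  have hIB : ∃ b : Fin (finrank ℝ W₀) → ι → ℤ, IsIB W₀ b := by
    have := span_isIB (G : Set (ι → ℤ))
    rw [hGW] at this
    exact this
  set W' := W₀ ⊔ Submodule.span ℝ {toR v} with hW'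
  have hvW' : toR v ∈ W' := Submodule.mem_sup_right (Submodule.mem_span_singleton_self _)
  have hW'S : W' ∈ SP F := by
    rw [mem_SP]
    refine ⟨⟨insert v G, ?_, ?_⟩, ?_⟩
    · intro u hu
      rcases Finset.mem_insert.mp hu with rfl | hu
      · exact hvF
      · exact hGF hu
    · rw [Finset.coe_insert, Set.image_insert_eq, Submodule.span_insert, hGW, sup_comm]
    · intro h
      rw [h, Submodule.mem_bot] at hvW'
      exact toR_ne_zero hv hvW'
  have hcomp : ∀ t ∈ T, W' ≤ t ∨ t ≤ W' := by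
    intro t ht
    by_cases hvt : toR v ∈ t
    · left
      have h1 : W₀ ≤ t := by
        rcases hmemC W₀ hW₀C with h | h
        · rw [h]; exact bot_le
        · rcases hT.total ht h.1 with h' | h'
          · exact absurd (h' hvt) h.2
          · exact h'
      rw [hW']
      apply sup_le h1
      rw [Submodule.span_singleton_le_iff_mem]
      exact hvt
    · right
      have h1 : t ≤ W₀ := hgreatest t (by
        rw [hC, Finset.mem_insert, Finset.mem_filter]
        exact Or.inr ⟨ht, hvt⟩)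
      exact h1.trans le_sup_left
  have hε' : ε ≤ Psi A W' := by
    by_cases h : W' ∈ T
    · exact (hT2 W' h).1
    · exact hερ.trans (hT3 W' hW'S h hcomp)
  have hle := Psi_sup_le hIB v hvW₀ A hη
  have hPsi0 : Psi A W₀ ≤ 1 := by
    rcases hmemC W₀ hW₀C with h | h
    · rw [h, Psi_bot]
    · exact (hT2 W₀ h.1).2.trans hρ1
  have hPsi00 : 0 ≤ Psi A W₀ := psi_nonneg _ _
  have hne : Nonempty ι := by
    by_contra hcon
    rw [not_nonempty_iff] at hcon
    apply hv
    funext i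
    exact (hcon.false i).elim
  have hη0 : 0 ≤ η := (abs_nonneg _).trans (hη hne.some)
  have hfin : (finrank ℝ W₀ : ℝ) + 1 ≤ Fintype.card ι := by
    have hlt : W₀ ≠ ⊤ := by
      intro h
      apply hvW₀
      rw [h]
      exact Submodule.mem_top
    have := Submodule.finrank_lt hlt
    rw [Module.finrank_fintype_fun_eq_card] at this
    exact_mod_cast this
  calc ε ≤ Psi A W' := hε'
    _ ≤ (finrank ℝ W₀ + 1) * Fintype.card ι * η * Psi A W₀ := hle
    _ ≤ Fintype.card ι * Fintype.card ι * η * 1 := by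
        gcongr
    _ = (Fintype.card ι : ℝ) ^ 2 * η := by ring

theorem nondiv_finite {M : ℕ} {τ : ℝ} (hτ : 1 < τ)
    (hM : IsEmpty (Besicovitch.SatelliteConfig ℝ M τ))
    {H : ℝ → Matrix ι ι ℝ} {d : ℕ} (hH : ∀ i j, PolyFn d (fun x => H x i j))
    {ρ δ ε η y0 r0 : ℝ} (hρ : 0 < ρ) (hρ1 : ρ ≤ 1) (hδ : 0 < δ) (hr0 : 0 < r0)
    (hερ : ε ≤ ρ)
    (hε2 : ε ≤ ρ / (Fintype.card ι : ℝ) ^ (Fintype.card ι) * kappa (Fintype.card ι * d) δ)
    (hη : (Fintype.card ι : ℝ) ^ 2 * η < ε)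
    (P4 : ∀ (r : ℕ) (b : Fin r → ι → ℤ), 1 ≤ r → LinearIndependent ℝ (fun c => toR (b c)) →
      ∃ z ∈ closedBall y0 r0, ∃ e, ρ ≤ |mnr (H z) (fun c => toR (b c)) e|)
    (F : Finset (ι → ℤ)) :
    volume {x ∈ closedBall y0 r0 | ∃ v ∈ F, v ≠ 0 ∧ ∀ i, |(H x).mulVec (toR v) i| ≤ η} ≤
      ENNReal.ofReal (akm M (Fintype.card ι) * δ * r0) := by
  classical
  set D := Fintype.card ι with hD
  have hkm := km_covering (α := Submodule ℝ (ι → ℝ)) hτ hM
    (ψ := fun W x => Psi (H x) W) (ε := ε) (ρ := ρ) hδ.le D (SP F) ?_ ?_ ?_ y0 r0 hr0 ?_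
  · refine le_trans (measure_mono ?_) hkm
    rintro x ⟨hxB, v, hvF, hv, hvη⟩
    refine ⟨hxB, ?_⟩
    rintro ⟨T, hTS, hT, hT2, hT3⟩
    have := marked_no_short (H x) hρ1 hερ T hTS hT hT2 hT3 v hvF hv hvη
    linarith
  · intro W _
    unfold Psi psi
    apply continuous_finsetSum
    intro e _
    exact (polyFn_mnr hH _ e).continuous.abs
  · intro W hW y r hr hz
    obtain ⟨z, hzB, hz⟩ := hz
    have hWne : W ≠ ⊥ := (mem_SP.mp hW).2
    have hDpos : 0 < D := by
      rw [hD, Fintype.card_pos_iff]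
      by_contra hcon
      rw [not_nonempty_iff] at hcon
      apply hWne
      rw [Submodule.eq_bot_iff]
      intro x _
      exact Subsingleton.elim _ _
    have hD1 : (1 : ℝ) ≤ D := by exact_mod_cast hDpos
    have hfr : finrank ℝ W ≤ D := by
      have := Submodule.finrank_le W
      rwa [Module.finrank_fintype_fun_eq_card] at this
    have : Nonempty ι := Fintype.card_pos_iff.mp hDpos
    have hex : ∃ e : Fin (finrank ℝ W) → ι,
        ρ / (D : ℝ) ^ D ≤ |mnr (H z) (fun c => toR (bmin W c)) e| := by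
      by_contra hcon
      push Not at hcon
      have h1 : Psi (H z) W < ρ := by
        unfold Psi psi
        calc ∑ e : Fin (finrank ℝ W) → ι, |mnr (H z) (fun c => toR (bmin W c)) e|
            < ∑ e : Fin (finrank ℝ W) → ι, ρ / (D : ℝ) ^ D := by
              apply Finset.sum_lt_sum_of_nonempty Finset.univ_nonempty
              intro e _
              exact hcon e
          _ = (D : ℝ) ^ (finrank ℝ W) * (ρ / (D : ℝ) ^ D) := by
              rw [Finset.sum_const, Finset.card_univ, nsmul_eq_mul]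
              rw [Fintype.card_fun, Fintype.card_fin]
              push_cast
              rfl
          _ ≤ (D : ℝ) ^ D * (ρ / (D : ℝ) ^ D) := by
              gcongr
          _ = ρ := by field_simp
      linarith
    obtain ⟨e, he⟩ := hex
    obtain ⟨p, hpdeg, hp⟩ := (polyFn_mnr hH (fun c => toR (bmin W c)) e).mono
      (Nat.mul_le_mul_right d hfr)
    simp only at hp
    rw [hp z] at he
    have hgood := good_poly hpdeg hr hδ ⟨z, hzB, he⟩ hε2
    refine le_trans (measure_mono ?_) hgood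
    rintro x ⟨hxB, hx⟩
    refine ⟨hxB, ?_⟩
    rw [← hp x]
    refine lt_of_le_of_lt ?_ hx
    unfold Psi psi
    exact Finset.single_le_sum (f := fun e => |mnr (H x) (fun c => toR (bmin W c)) e|)
      (fun _ _ => abs_nonneg _) (Finset.mem_univ e)
  · intro T hT hTc
    exact chain_card T hTc (fun W hW => (mem_SP.mp (hT hW)).2)
  · intro W hW
    obtain ⟨⟨G, _, hGW⟩, hWne⟩ := mem_SP.mp hW
    have hIB : ∃ b : Fin (finrank ℝ W) → ι → ℤ, IsIB W b := by
      have := span_isIB (G : Set (ι → ℤ))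
      rw [hGW] at this
      exact this
    have hb := (bmin_spec hIB).1
    have hr : 1 ≤ finrank ℝ W := by
      rw [Nat.one_le_iff_ne_zero]
      intro h
      exact hWne (Submodule.finrank_eq_zero.mp h)
    obtain ⟨z, hz, e, he⟩ := P4 _ (bmin W) hr hb.1
    refine ⟨z, hz, he.trans ?_⟩
    unfold Psi psi
    exact Finset.single_le_sum (f := fun e => |mnr (H z) (fun c => toR (bmin W c)) e|)
      (fun _ _ => abs_nonneg _) (Finset.mem_univ e)

/-- The quantitative nondivergence theorem in dimension one. -/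
theorem nondiv {M : ℕ} {τ : ℝ} (hτ : 1 < τ)
    (hM : IsEmpty (Besicovitch.SatelliteConfig ℝ M τ))
    {H : ℝ → Matrix ι ι ℝ} {d : ℕ} (hH : ∀ i j, PolyFn d (fun x => H x i j))
    {ρ δ ε η y0 r0 : ℝ} (hρ : 0 < ρ) (hρ1 : ρ ≤ 1) (hδ : 0 < δ) (hr0 : 0 < r0)
    (hερ : ε ≤ ρ)
    (hε2 : ε ≤ ρ / (Fintype.card ι : ℝ) ^ (Fintype.card ι) * kappa (Fintype.card ι * d) δ)
    (hη : (Fintype.card ι : ℝ) ^ 2 * η < ε)
    (P4 : ∀ (r : ℕ) (b : Fin r → ι → ℤ), 1 ≤ r → LinearIndependent ℝ (fun c => toR (b c)) →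
      ∃ z ∈ closedBall y0 r0, ∃ e, ρ ≤ |mnr (H z) (fun c => toR (b c)) e|) :
    volume {x ∈ closedBall y0 r0 | ∃ v : ι → ℤ, v ≠ 0 ∧ ∀ i, |(H x).mulVec (toR v) i| ≤ η} ≤
      ENNReal.ofReal (akm M (Fintype.card ι) * δ * r0) := by
  set F : ℕ → Finset (ι → ℤ) := fun k => Fintype.piFinset (fun _ => Finset.Icc (-(k : ℤ)) k)
    with hF
  have hFmono : Monotone F := by
    intro k l hkl v hv
    rw [hF, Fintype.mem_piFinset] at hv ⊢
    intro i
    have := hv i
    rw [Finset.mem_Icc] at this ⊢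
    have h2 : (k : ℤ) ≤ l := by exact_mod_cast hkl
    constructor <;> linarith
  have hFex : ∀ v : ι → ℤ, ∃ k, v ∈ F k := by
    intro v
    refine ⟨∑ i, (v i).natAbs, ?_⟩
    rw [hF, Fintype.mem_piFinset]
    intro i
    have h1 : (v i).natAbs ≤ ∑ i, (v i).natAbs :=
      Finset.single_le_sum (f := fun i => (v i).natAbs) (fun _ _ => Nat.zero_le _)
        (Finset.mem_univ i)
    rw [Finset.mem_Icc]
    omega
  have hunion : {x ∈ closedBall y0 r0 | ∃ v : ι → ℤ, v ≠ 0 ∧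
      ∀ i, |(H x).mulVec (toR v) i| ≤ η} =
      ⋃ k, {x ∈ closedBall y0 r0 | ∃ v ∈ F k, v ≠ 0 ∧ ∀ i, |(H x).mulVec (toR v) i| ≤ η} := by
    ext x
    rw [mem_iUnion]
    constructor
    · rintro ⟨hxB, v, hv, hvη⟩
      obtain ⟨k, hk⟩ := hFex v
      exact ⟨k, hxB, v, hk, hv, hvη⟩
    · rintro ⟨k, hxB, v, _, hv, hvη⟩
      exact ⟨hxB, v, hv, hvη⟩
  rw [hunion]
  have hmono : Monotone (fun k => {x ∈ closedBall y0 r0 | ∃ v ∈ F k, v ≠ 0 ∧
      ∀ i, |(H x).mulVec (toR v) i| ≤ η}) := by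
    intro k l hkl x hx
    obtain ⟨hxB, v, hvk, hv, hvη⟩ := hx
    exact ⟨hxB, v, hFmono hkl hvk, hv, hvη⟩
  rw [hmono.measure_iUnion]
  apply iSup_le
  intro k
  exact nondiv_finite hτ hM hH hρ hρ1 hδ hr0 hερ hε2 hη P4 (F k)

end Pool.Agent.Helper88
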