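import Pool.Agent.Helper88.Est

set_option autoImplicit false

open Set Module MeasureTheory Metric

namespace Pool.Agent.Helper88

/-- Separated sets in a ball of a normed space are small. -/
theorem card_le_sep {E : Type*} [NormedAddCommGroup E] [NormedSpace ℝ E] [FiniteDimensional ℝ E]
    {R c : ℝ} (hc : 0 < c) (hcR : c ≤ R) (s : Finset E) (hs : ∀ x ∈ s, ‖x‖ ≤ R)
    (h : ∀ x ∈ s, ∀ y ∈ s, x ≠ y → c ≤ ‖x - y‖) :
    (s.card : ℝ) ≤ (3 * R / c) ^ finrank ℝ E := by
  borelize E
  let μ : Measure E := Measure.addHaar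
  set δ : ℝ := c / 2 with hδ
  set ρ : ℝ := R + c / 2 with hρ
  have δpos : 0 < δ := by positivity
  have ρpos : 0 < ρ := by linarith
  set A := ⋃ x ∈ s, ball (x : E) δ with hA
  have D : Set.Pairwise (s : Set E) (Function.onFun Disjoint fun x => ball (x : E) δ) := by
    rintro x hx y hy hxy
    apply ball_disjoint_ball
    rw [dist_eq_norm]
    have := h x hx y hy hxy
    linarith
  have A_subset : A ⊆ ball (0 : E) ρ := by
    refine iUnion₂_subset fun x hx => ?_
    apply ball_subset_ball'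
    rw [dist_zero_right]
    have := hs x hx
    linarith
  have I : (s.card : ENNReal) * ENNReal.ofReal (δ ^ finrank ℝ E) * μ (ball 0 1) ≤
      ENNReal.ofReal (ρ ^ finrank ℝ E) * μ (ball 0 1) :=
    calc
      (s.card : ENNReal) * ENNReal.ofReal (δ ^ finrank ℝ E) * μ (ball 0 1) = μ A := by
        rw [hA, measure_biUnion_finset D fun c _ => measurableSet_ball]
        simp only [μ.addHaar_ball_of_pos _ δpos]
        simp only [Finset.sum_const, nsmul_eq_mul, mul_assoc]
      _ ≤ μ (ball (0 : E) ρ) := measure_mono A_subset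
      _ = ENNReal.ofReal (ρ ^ finrank ℝ E) * μ (ball 0 1) := by
        simp only [μ.addHaar_ball_of_pos _ ρpos]
  have J : (s.card : ENNReal) * ENNReal.ofReal (δ ^ finrank ℝ E) ≤
      ENNReal.ofReal (ρ ^ finrank ℝ E) :=
    (ENNReal.mul_le_mul_iff_left (measure_ball_pos _ _ zero_lt_one).ne' measure_ball_lt_top.ne).1 I
  have K : (s.card : ℝ) * δ ^ finrank ℝ E ≤ ρ ^ finrank ℝ E := by
    have h1 := ENNReal.toReal_le_of_le_ofReal (pow_nonneg ρpos.le _) J
    rw [ENNReal.toReal_mul, ENNReal.toReal_natCast,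
      ENNReal.toReal_ofReal (pow_nonneg δpos.le _)] at h1
    exact h1
  have hδpow : 0 < δ ^ finrank ℝ E := by positivity
  calc (s.card : ℝ) ≤ ρ ^ finrank ℝ E / δ ^ finrank ℝ E := by
        rw [le_div_iff₀ hδpow]; exact K
    _ = (ρ / δ) ^ finrank ℝ E := (div_pow ρ δ _).symm
    _ ≤ (3 * R / c) ^ finrank ℝ E := by
        apply pow_le_pow_left₀ (by positivity)
        rw [div_le_div_iff₀ δpos hc, hρ, hδ]
        nlinarith

/-- No small non-zero integer vectors. -/
def Good1 (n : ℕ) (c Q x : ℝ) : Prop :=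
  ∀ v : Fin (n + 1) → ℤ, v ≠ 0 → Q ^ n * |ev (toR v) x| ≤ c → ∃ i, i ≠ 0 ∧ c * Q < |(v i : ℝ)|

lemma toR_sub {ι : Type*} (v w : ι → ℤ) : toR (v - w) = toR v - toR w := by
  funext i; simp [toR]

/-- The integer points of a large multiple of the body span the space. -/
theorem span_top {n : ℕ} {c Q x T : ℝ} (hc : 0 < c) (hQ : 1 ≤ Q)
    (hG : Good1 n c Q x) (hT : 1 ≤ T) (hcT : c ≤ T) (hTQ : T ≤ Q ^ n)
    (hbig : 2 * (3 * T / c) ^ n < T ^ (n + 1)) :
    Submodule.span ℝ (toR '' {v : Fin (n + 1) → ℤ | Q ^ n * |ev (toR v) x| ≤ T ∧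
      ∀ i, i ≠ 0 → |(v i : ℝ)| ≤ T * Q}) = ⊤ := by
  classical
  have hQ0 : 0 < Q := by linarith
  have hT0 : 0 < T := by linarith
  set KT : Set (Fin (n + 1) → ℤ) := {v | Q ^ n * |ev (toR v) x| ≤ T ∧
      ∀ i, i ≠ 0 → |(v i : ℝ)| ≤ T * Q} with hKT
  by_contra hne
  set W := Submodule.span ℝ (toR '' KT) with hW
  have hWfin : finrank ℝ W ≤ n := by
    have h1 : finrank ℝ W < finrank ℝ (Fin (n + 1) → ℝ) := Submodule.finrank_lt hne
    rw [Module.finrank_fintype_fun_eq_card, Fintype.card_fin] at h1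
    omega
  -- the pigeonhole
  set m : ℕ := ⌊T * Q⌋₊ with hm
  set k : ℕ := ⌈Q ^ n / T⌉₊ with hk
  have hkpos : 0 < k := by
    rw [hk, Nat.ceil_pos]; positivity
  have hkpos' : (0 : ℝ) < k := by exact_mod_cast hkpos
  have hkle : (k : ℝ) ≤ 2 * (Q ^ n / T) := by
    have h1 : (k : ℝ) < Q ^ n / T + 1 := Nat.ceil_lt_add_one (by positivity)
    have h2 : 1 ≤ Q ^ n / T := by rw [le_div_iff₀ hT0]; linarith
    linarith
  have hkge : Q ^ n / T ≤ k := Nat.le_ceil _
  -- the vector of a tuple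
  set sm : (Fin n → Fin (m + 1)) → ℝ := fun a => ∑ i : Fin n, ((a i : ℕ) : ℝ) * x ^ ((i : ℕ) + 1)
    with hsm
  set vec : (Fin n → Fin (m + 1)) → (Fin (n + 1) → ℤ) := fun a =>
    Fin.cons (-⌊sm a⌋) (fun i => ((a i : ℕ) : ℤ)) with hvec
  have hev : ∀ a, ev (toR (vec a)) x = Int.fract (sm a) := by
    intro a
    unfold ev
    rw [Fin.sum_univ_succ]
    simp only [hvec, toR, Fin.cons_zero, Fin.cons_succ, Fin.val_zero, pow_zero, mul_one,
      Fin.val_succ]
    push_cast
    rw [Int.fract]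
    ring
  set bx : (Fin n → Fin (m + 1)) → Fin k := fun a =>
    ⟨⌊Int.fract (sm a) * k⌋₊, by
      rw [Nat.floor_lt (mul_nonneg (Int.fract_nonneg _) hkpos'.le)]
      have := Int.fract_lt_one (sm a)
      nlinarith⟩ with hbx
  obtain ⟨y, _, hy⟩ := Finset.exists_le_card_fiber_of_nsmul_le_card_of_maps_to
    (s := (Finset.univ : Finset (Fin n → Fin (m + 1)))) (t := (Finset.univ : Finset (Fin k)))
    (f := bx) (b := T ^ (n + 1) / 2) (fun a _ => Finset.mem_univ _)
    ⟨⟨0, hkpos⟩, Finset.mem_univ _⟩ (by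
      rw [Finset.card_univ, Finset.card_univ, Fintype.card_fun, Fintype.card_fin,
        Fintype.card_fin, Fintype.card_fin, nsmul_eq_mul]
      push_cast
      have h1 : T * Q ≤ m + 1 := (Nat.lt_floor_add_one _).le
      calc (k : ℝ) * (T ^ (n + 1) / 2) ≤ 2 * (Q ^ n / T) * (T ^ (n + 1) / 2) := by gcongr
        _ = (T * Q) ^ n := by rw [mul_pow, pow_succ]; field_simp
        _ ≤ ((m : ℝ) + 1) ^ n := by
            apply pow_le_pow_left₀ (by positivity) h1)
  set Fb := Finset.univ.filter (fun a => bx a = y) with hFb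
  have hFbpos : 0 < Fb.card := by
    have h1 : (0 : ℝ) < T ^ (n + 1) / 2 := by positivity
    have h2 : (0 : ℝ) < Fb.card := lt_of_lt_of_le h1 hy
    exact_mod_cast h2
  obtain ⟨a₀, ha₀⟩ := Finset.card_pos.mp hFbpos
  have hfract : ∀ a ∈ Fb, ∀ a' ∈ Fb, Q ^ n * |Int.fract (sm a) - Int.fract (sm a')| ≤ T := by
    intro a ha a' ha'
    have h1 : bx a = bx a' := by
      rw [hFb, Finset.mem_filter] at ha ha'
      rw [ha.2, ha'.2]
    have h2 : ⌊Int.fract (sm a) * k⌋₊ = ⌊Int.fract (sm a') * k⌋₊ := congrArg Fin.val h1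
    have h3 : 0 ≤ Int.fract (sm a) * k := mul_nonneg (Int.fract_nonneg _) hkpos'.le
    have h4 : 0 ≤ Int.fract (sm a') * k := mul_nonneg (Int.fract_nonneg _) hkpos'.le
    have h5 := Nat.floor_le h3
    have h6 := Nat.lt_floor_add_one (Int.fract (sm a) * k)
    have h7 := Nat.floor_le h4
    have h8 := Nat.lt_floor_add_one (Int.fract (sm a') * k)
    rw [h2] at h5 h6
    have h9 : |Int.fract (sm a) - Int.fract (sm a')| * k ≤ 1 := by
      have h10 : |(Int.fract (sm a) - Int.fract (sm a')) * k| ≤ 1 := by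
        rw [abs_le]
        constructor <;> nlinarith
      rwa [abs_mul, abs_of_pos hkpos'] at h10
    have h11 : Q ^ n ≤ T * k := by
      rw [div_le_iff₀ hT0] at hkge
      linarith
    calc Q ^ n * |Int.fract (sm a) - Int.fract (sm a')|
        ≤ T * k * |Int.fract (sm a) - Int.fract (sm a')| :=
          mul_le_mul_of_nonneg_right h11 (abs_nonneg _)
      _ = T * (|Int.fract (sm a) - Int.fract (sm a')| * k) := by ring
      _ ≤ T * 1 := by gcongr
      _ = T := mul_one _
  -- the linear map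
  set w : Fin (n + 1) → ℝ := fun i => if i = 0 then Q ^ n else Q⁻¹ with hw
  set L : (Fin (n + 1) → ℝ) →ₗ[ℝ] (Fin (n + 1) → ℝ) :=
    (Matrix.of fun i j => w i * TV n x i j).mulVecLin with hL
  have hL0 : ∀ v, L v 0 = Q ^ n * ev v x := by
    intro v
    rw [hL, Matrix.mulVecLin_apply, mulVec_weight, TV_zero, hw]
    simp
  have hLne : ∀ v i, i ≠ 0 → L v i = Q⁻¹ * v i := by
    intro v i hi
    rw [hL, Matrix.mulVecLin_apply, mulVec_weight, TV_ne n x v hi, hw]
    simp [hi]
  set W' := W.map L with hW'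
  have hW'fin : finrank ℝ W' ≤ n := (Submodule.finrank_map_le L W).trans hWfin
  -- the points
  have hKTmem : ∀ a ∈ Fb, vec a - vec a₀ ∈ KT := by
    intro a ha
    refine ⟨?_, ?_⟩
    · rw [toR_sub, ev_sub, hev, hev]
      exact hfract a ha a₀ ha₀
    · intro i hi
      obtain ⟨j, rfl⟩ := Fin.exists_succ_eq.mpr hi
      simp only [hvec, Pi.sub_apply, Fin.cons_succ]
      push_cast
      have h1 : ((a j : ℕ) : ℝ) ≤ m := by
        have := (a j).2
        have h2 : (a j : ℕ) ≤ m := by omega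
        exact_mod_cast h2
      have h3 : ((a₀ j : ℕ) : ℝ) ≤ m := by
        have := (a₀ j).2
        have h2 : (a₀ j : ℕ) ≤ m := by omega
        exact_mod_cast h2
      have h4 : (0 : ℝ) ≤ ((a j : ℕ) : ℝ) := Nat.cast_nonneg _
      have h5 : (0 : ℝ) ≤ ((a₀ j : ℕ) : ℝ) := Nat.cast_nonneg _
      have h6 : (m : ℝ) ≤ T * Q := Nat.floor_le (by positivity)
      rw [abs_le]
      constructor <;> linarith
  have hmemW' : ∀ a ∈ Fb, L (toR (vec a - vec a₀)) ∈ W' := by
    intro a ha
    apply Submodule.mem_map_of_mem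
    exact Submodule.subset_span ⟨_, hKTmem a ha, rfl⟩
  set pt : Fb → W' := fun a => ⟨L (toR (vec a - vec a₀)), hmemW' a a.2⟩ with hpt
  have hsep : ∀ a a' : Fb, a ≠ a' → c ≤ ‖pt a - pt a'‖ := by
    intro a a' hne
    by_contra hcon
    push Not at hcon
    have h1 : ‖L (toR (vec a - vec a'))‖ < c := by
      have h2 : (pt a - pt a' : W') = (⟨L (toR (vec a - vec a')), by
          have : L (toR (vec (a : Fin n → Fin (m + 1)) - vec a')) =
              L (toR (vec (a : Fin n → Fin (m + 1)) - vec a₀)) -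
              L (toR (vec (a' : Fin n → Fin (m + 1)) - vec a₀)) := by
            rw [← map_sub, ← toR_sub]
            congr 2
            abel
          rw [this]
          exact W'.sub_mem (hmemW' a a.2) (hmemW' a' a'.2)⟩ : W') := by
        apply Subtype.ext
        simp only [hpt, AddSubgroupClass.coe_sub]
        rw [← map_sub, ← toR_sub]
        congr 2
        abel
      rw [h2] at hcon
      exact hcon
    rw [pi_norm_lt_iff hc] at h1
    have hvne : vec (a : Fin n → Fin (m + 1)) - vec a' ≠ 0 := by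
      intro h3
      apply hne
      apply Subtype.ext
      funext j
      have h4 := congrFun h3 j.succ
      simp only [hvec, Pi.sub_apply, Fin.cons_succ, Pi.zero_apply] at h4
      apply Fin.ext
      omega
    have h5 := h1 0
    rw [hL0, Real.norm_eq_abs, abs_mul, abs_of_nonneg (by positivity : (0 : ℝ) ≤ Q ^ n)] at h5
    obtain ⟨i, hi, hi2⟩ := hG _ hvne h5.le
    have h6 := h1 i
    rw [hLne _ i hi, Real.norm_eq_abs, abs_mul, abs_of_nonneg (by positivity : (0 : ℝ) ≤ Q⁻¹),
      inv_mul_lt_iff₀ hQ0] at h6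
    simp only [toR] at h6
    linarith
  have hinj : Function.Injective pt := by
    intro a a' h
    by_contra hne
    have := hsep a a' hne
    rw [h, sub_self, norm_zero] at this
    linarith
  set s : Finset W' := Finset.univ.image pt with hs
  have hscard : s.card = Fb.card := by
    rw [hs, Finset.card_image_of_injective _ hinj]
    simp
  have hpack := card_le_sep hc hcT s (by
    intro z hz
    rw [hs, Finset.mem_image] at hz
    obtain ⟨a, _, rfl⟩ := hz
    have h1 := hKTmem a a.2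
    have h2 : ‖pt a‖ = ‖L (toR (vec a - vec a₀))‖ := rfl
    rw [h2, pi_norm_le_iff_of_nonneg hT0.le]
    intro i
    by_cases hi : i = 0
    · rw [hi, hL0, Real.norm_eq_abs, abs_mul, abs_of_nonneg (by positivity : (0 : ℝ) ≤ Q ^ n)]
      exact h1.1
    · rw [hLne _ i hi, Real.norm_eq_abs, abs_mul, abs_of_nonneg (by positivity : (0 : ℝ) ≤ Q⁻¹),
        inv_mul_le_iff₀ hQ0]
      have := h1.2 i hi
      simp only [toR]
      linarith) (by
    intro z hz z' hz' hne
    rw [hs, Finset.mem_image] at hz hz'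
    obtain ⟨a, _, rfl⟩ := hz
    obtain ⟨a', _, rfl⟩ := hz'
    apply hsep
    intro h
    exact hne (by rw [h]))
  rw [hscard] at hpack
  have h3 : (1 : ℝ) ≤ 3 * T / c := by
    rw [le_div_iff₀ hc]; linarith
  have h4 : (3 * T / c) ^ finrank ℝ W' ≤ (3 * T / c) ^ n := pow_le_pow_right₀ h3 hW'fin
  linarith

/-- Rounding. -/
theorem rounding {n : ℕ} {c Q x T : ℝ} (hc : 0 < c) (hQ : 1 ≤ Q)
    (hG : Good1 n c Q x) (hT : 1 ≤ T) (hcT : c ≤ T) (hTQ : T ≤ Q ^ n)
    (hbig : 2 * (3 * T / c) ^ n < T ^ (n + 1)) (q : Fin (n + 1) → ℝ) :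
    ∃ R : Fin (n + 1) → ℤ, Q ^ n * |ev (q - toR R) x| ≤ (n + 1) * T ∧
      ∀ i, i ≠ 0 → |q i - R i| ≤ (n + 1) * T * Q := by
  classical
  have hQ0 : 0 < Q := by linarith
  have hT0 : 0 < T := by linarith
  have htop := span_top hc hQ hG hT hcT hTQ hbig
  set KT : Set (Fin (n + 1) → ℤ) := {v | Q ^ n * |ev (toR v) x| ≤ T ∧
      ∀ i, i ≠ 0 → |(v i : ℝ)| ≤ T * Q} with hKT
  obtain ⟨κ, a, _, hsp, hli⟩ := exists_linearIndependent' ℝ
    (fun g : KT => toR (g : Fin (n + 1) → ℤ))
  have hrange : range (fun g : KT => toR (g : Fin (n + 1) → ℤ)) = toR '' KT := by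
    rw [Set.image_eq_range]
  rw [hrange, htop] at hsp
  have : Finite κ := hli.finite
  have : Fintype κ := Fintype.ofFinite κ
  have hcard : (Fintype.card κ : ℝ) = n + 1 := by
    have h1 := finrank_span_eq_card hli
    rw [hsp, finrank_top, Module.finrank_fintype_fun_eq_card, Fintype.card_fin] at h1
    rw [← h1]; push_cast; rfl
  have hq : q ∈ Submodule.span ℝ (range ((fun g : KT => toR (g : Fin (n + 1) → ℤ)) ∘ a)) := by
    rw [hsp]; exact Submodule.mem_top
  rw [Submodule.mem_span_range_iff_exists_fun] at hq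
  obtain ⟨t, ht⟩ := hq
  set R : Fin (n + 1) → ℤ := ∑ k, round (t k) • (a k : Fin (n + 1) → ℤ) with hR
  have hRR : toR R = ∑ k, ((round (t k) : ℤ) : ℝ) • toR (a k : Fin (n + 1) → ℤ) := by
    funext i
    rw [Finset.sum_apply]
    simp only [toR, hR, Pi.smul_apply, smul_eq_mul, Finset.sum_apply]
    push_cast
    rfl
  have hdiff : q - toR R = ∑ k, (t k - ((round (t k) : ℤ) : ℝ)) •
      toR (a k : Fin (n + 1) → ℤ) := by
    rw [hRR, ← ht, ← Finset.sum_sub_distrib]
    apply Finset.sum_congr rfl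
    intro k _
    rw [sub_smul]
    rfl
  have hround : ∀ k, |t k - ((round (t k) : ℤ) : ℝ)| ≤ 1 := by
    intro k
    have := abs_sub_round (t k)
    linarith
  refine ⟨R, ?_, ?_⟩
  · rw [hdiff, ev_sum]
    calc Q ^ n * |∑ k, (t k - ((round (t k) : ℤ) : ℝ)) * ev (toR (a k : Fin (n + 1) → ℤ)) x|
        ≤ Q ^ n * ∑ k, |(t k - ((round (t k) : ℤ) : ℝ)) * ev (toR (a k : Fin (n + 1) → ℤ)) x| := by
          gcongr
          exact Finset.abs_sum_le_sum_abs _ _
      _ = ∑ k, |t k - ((round (t k) : ℤ) : ℝ)| * (Q ^ n * |ev (toR (a k : Fin (n + 1) → ℤ)) x|) := by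
          rw [Finset.mul_sum]
          apply Finset.sum_congr rfl
          intro k _
          rw [abs_mul]; ring
      _ ≤ ∑ _k : κ, 1 * T := by
          apply Finset.sum_le_sum
          intro k _
          apply mul_le_mul (hround k) (a k).2.1 (by positivity) zero_le_one
      _ = (n + 1) * T := by
          rw [Finset.sum_const, Finset.card_univ, nsmul_eq_mul, hcard, one_mul]
  · intro i hi
    have h1 : q i - R i = ∑ k, (t k - ((round (t k) : ℤ) : ℝ)) * ((a k : Fin (n + 1) → ℤ) i : ℝ) := by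
      have h2 := congrFun hdiff i
      rw [Pi.sub_apply, Finset.sum_apply] at h2
      simp only [Pi.smul_apply, smul_eq_mul, toR] at h2
      exact h2
    rw [h1]
    calc |∑ k, (t k - ((round (t k) : ℤ) : ℝ)) * ((a k : Fin (n + 1) → ℤ) i : ℝ)|
        ≤ ∑ k, |(t k - ((round (t k) : ℤ) : ℝ)) * ((a k : Fin (n + 1) → ℤ) i : ℝ)| :=
          Finset.abs_sum_le_sum_abs _ _
      _ ≤ ∑ _k : κ, 1 * (T * Q) := by
          apply Finset.sum_le_sum
          intro k _
          rw [abs_mul]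
          apply mul_le_mul (hround k) ((a k).2.2 i hi) (by positivity) zero_le_one
      _ = (n + 1) * T * Q := by
          rw [Finset.sum_const, Finset.card_univ, nsmul_eq_mul, hcard, one_mul]
          ring

end Pool.Agent.Helper88
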