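import Pool.Agent.Helper88.Wedge
import Pool.Agent.Helper88.Graph

set_option autoImplicit false

open Set Module MeasureTheory Metric

namespace Pool.Agent.Helper88

lemma card_I2 (n : ℕ) : 2 * Fintype.card (I2 n) = (n + 1) * n := by
  classical
  rw [Fintype.card_subtype]
  set A := (Finset.univ.filter (fun p : Fin (n + 1) × Fin (n + 1) => p.1 < p.2)) with hA
  set B := (Finset.univ.filter (fun p : Fin (n + 1) × Fin (n + 1) => p.2 < p.1)) with hB
  have h1 : A.card = B.card := by
    refine Finset.card_bij' (fun p _ => (p.2, p.1)) (fun p _ => (p.2, p.1)) ?_ ?_ ?_ ?_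
    · intro p hp
      rw [hA, Finset.mem_filter] at hp
      rw [hB, Finset.mem_filter]
      exact ⟨Finset.mem_univ _, hp.2⟩
    · intro p hp
      rw [hB, Finset.mem_filter] at hp
      rw [hA, Finset.mem_filter]
      exact ⟨Finset.mem_univ _, hp.2⟩
    · intro p _; rfl
    · intro p _; rfl
  have h2 : A ∪ B = (Finset.univ : Finset (Fin (n + 1))).offDiag := by
    ext p
    rw [Finset.mem_union, hA, hB, Finset.mem_filter, Finset.mem_filter, Finset.mem_offDiag]
    simp only [Finset.mem_univ, true_and]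
    exact lt_or_lt_iff_ne
  have h3 : Disjoint A B := by
    rw [Finset.disjoint_left]
    intro p hp hp2
    rw [hA, Finset.mem_filter] at hp
    rw [hB, Finset.mem_filter] at hp2
    exact absurd hp.2 (not_lt.mpr hp2.2.le)
  have h4 := Finset.card_union_of_disjoint h3
  rw [h2, Finset.offDiag_card, Finset.card_univ, Fintype.card_fin, ← h1] at h4
  have h5 : (n + 1) * (n + 1) - (n + 1) = (n + 1) * n := by
    rw [Nat.mul_succ, Nat.add_sub_cancel]
  omega

lemma card_zero_rows (n : ℕ) :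
    (Finset.univ.filter (fun p : I2 n => p.1.1 = 0)).card = n := by
  have h1 : (Finset.univ.filter (fun p : I2 n => p.1.1 = 0)).card =
      (Finset.univ : Finset (Fin n)).card := by
    symm
    apply Finset.card_bij (fun k _ => (⟨(0, k.succ), Fin.succ_pos k⟩ : I2 n))
    · intro k _
      rw [Finset.mem_filter]
      exact ⟨Finset.mem_univ _, rfl⟩
    · intro a _ b _ h
      have h2 : a.succ = b.succ := congrArg (fun q : I2 n => q.1.2) h
      exact Fin.succ_injective _ h2
    · intro p hp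
      rw [Finset.mem_filter] at hp
      have hp2 : p.1.2 ≠ 0 := by
        intro h
        have := p.2
        rw [hp.2, h] at this
        exact lt_irrefl _ this
      obtain ⟨k, hk⟩ := Fin.exists_succ_eq.mpr hp2
      refine ⟨k, Finset.mem_univ _, ?_⟩
      apply Subtype.ext
      exact Prod.ext hp.2.symm hk
  rw [h1, Finset.card_univ, Fintype.card_fin]

/-- The span of the two-point rows is inside the span of the zero rows. -/
lemma AC_mem_span {n r : ℕ} (z : ℝ) (M : Fin r → I2 n → ℝ) (k : Fin (n + 1)) :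
    (fun c => AC z (M c) k) ∈ Submodule.span ℝ
      ((fun p : I2 n => fun c : Fin r => (TW n z).mulVec (M c) p) '' {p | p.1.1 = 0}) := by
  set X := Submodule.span ℝ
      ((fun p : I2 n => fun c : Fin r => (TW n z).mulVec (M c) p) '' {p | p.1.1 = 0}) with hX
  have h2 : ∀ k : Fin (n + 1), 2 ≤ (k : ℕ) → (fun c => AC z (M c) k) ∈ X := by
    intro k hk
    have hk0 : (0 : Fin (n + 1)) < k :=
      Fin.pos_iff_ne_zero.mpr (fun h => by rw [h] at hk; simp at hk)
    apply Submodule.subset_span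
    refine ⟨⟨(0, k), hk0⟩, rfl, ?_⟩
    funext c
    exact TW_two z (M c) (p := ⟨(0, k), hk0⟩) rfl (by change (k : ℕ) ≠ 1; omega)
  have h1 : ∀ k : Fin (n + 1), (k : ℕ) = 1 → (fun c => AC z (M c) k) ∈ X := by
    intro k hk
    have hk0 : (0 : Fin (n + 1)) < k :=
      Fin.pos_iff_ne_zero.mpr (fun h => by rw [h] at hk; simp at hk)
    have hW : (fun c => W1 z (M c)) ∈ X := by
      apply Submodule.subset_span
      refine ⟨⟨(0, k), hk0⟩, rfl, ?_⟩
      funext c
      exact TW_one z (M c) (p := ⟨(0, k), hk0⟩) rfl hk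
    have hsum : (fun c => AC z (M c) k) = (fun c => W1 z (M c)) -
        ∑ l ∈ Finset.univ.erase k, (((l : ℕ) : ℝ) * z ^ ((l : ℕ) - 1)) •
          (fun c => AC z (M c) l) := by
      funext c
      rw [Pi.sub_apply, Finset.sum_apply]
      simp only [Pi.smul_apply, smul_eq_mul]
      unfold W1
      rw [← Finset.add_sum_erase Finset.univ _ (Finset.mem_univ k), hk]
      simp
    rw [hsum]
    apply Submodule.sub_mem _ hW
    apply Submodule.sum_mem
    intro l hl
    rw [Finset.mem_erase] at hl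
    rcases Nat.lt_or_ge (l : ℕ) 2 with h | h
    · have hl0 : (l : ℕ) = 0 := by
        have : (l : ℕ) ≠ 1 := by
          intro h3
          apply hl.1
          apply Fin.ext
          rw [h3, hk]
        omega
      rw [hl0]
      simp
    · exact Submodule.smul_mem _ _ (h2 l h)
  have h0 : ∀ k : Fin (n + 1), (k : ℕ) ≠ 0 → (fun c => AC z (M c) k) ∈ X := by
    intro k hk
    rcases Nat.lt_or_ge (k : ℕ) 2 with h | h
    · exact h1 k (by omega)
    · exact h2 k h
  by_cases hk : (k : ℕ) = 0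
  · have hsum : (fun c => AC z (M c) k) = -
        ∑ l ∈ Finset.univ.erase k, (z ^ (l : ℕ)) • (fun c => AC z (M c) l) := by
      funext c
      rw [Pi.neg_apply, Finset.sum_apply]
      simp only [Pi.smul_apply, smul_eq_mul]
      have h3 := sum_AC_zero z (M c)
      rw [← Finset.add_sum_erase Finset.univ _ (Finset.mem_univ k), hk] at h3
      simp only [pow_zero, one_mul] at h3
      linarith
    rw [hsum]
    apply Submodule.neg_mem
    apply Submodule.sum_mem
    intro l hl
    rw [Finset.mem_erase] at hl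
    apply Submodule.smul_mem
    apply h0
    intro h3
    apply hl.1
    apply Fin.ext
    rw [h3, hk]
  · exact h0 k hk

lemma Phi_mem_span {n r : ℕ} (z y : ℝ) (M : Fin r → I2 n → ℝ) :
    (fun c => Phi z y (M c)) ∈ Submodule.span ℝ
      ((fun p : I2 n => fun c : Fin r => (TW n z).mulVec (M c) p) '' {p | p.1.1 = 0}) := by
  have hsum : (fun c => Phi z y (M c)) =
      ∑ k : Fin (n + 1), (y ^ (k : ℕ)) • (fun c => AC z (M c) k) := by
    funext c
    rw [Finset.sum_apply]
    simp only [Pi.smul_apply, smul_eq_mul]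
    rfl
  rw [hsum]
  apply Submodule.sum_mem
  intro k _
  exact Submodule.smul_mem _ _ (AC_mem_span z M k)

/-- Linear combinations and two-point forms. -/
lemma Phi_sum {n r : ℕ} (x y : ℝ) (M : Fin r → I2 n → ℝ) (g : Fin r → ℝ) :
    Phi x y (∑ c, g c • M c) = ∑ c, g c * Phi x y (M c) := by
  have halt : ∀ i k, alt (∑ c, g c • M c) i k = ∑ c, g c * alt (M c) i k := by
    intro i k
    unfold alt
    simp_rw [Finset.sum_apply, Pi.smul_apply, smul_eq_mul, Finset.mul_sum, Finset.sum_mul]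
    rw [Finset.sum_comm]
    apply Finset.sum_congr rfl
    intro c _
    apply Finset.sum_congr rfl
    intro q _
    ring
  rw [Phi_eq]
  simp_rw [halt, Phi_eq, Finset.mul_sum]
  have h1 : ∀ k : Fin (n + 1), ∑ i : Fin (n + 1), ∑ c : Fin r,
      y ^ (k : ℕ) * x ^ (i : ℕ) * (g c * alt (M c) i k) =
      ∑ c : Fin r, ∑ i : Fin (n + 1), g c * (y ^ (k : ℕ) * x ^ (i : ℕ) * alt (M c) i k) := by
    intro k
    rw [Finset.sum_comm]
    apply Finset.sum_congr rfl
    intro c _
    apply Finset.sum_congr rfl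
    intro i _
    ring
  simp_rw [h1]
  rw [Finset.sum_comm]

/-- The two-point rows avoiding one point span everything. -/
lemma Phi_span {n r : ℕ} (y : Fin (n + 1 + 1) → ℝ) (hy : Function.Injective y)
    (M : Fin r → I2 n → ℝ) (hM : LinearIndependent ℝ M) (p : Fin (n + 1 + 1)) :
    (⊤ : Submodule ℝ (Fin r → ℝ)) ≤ Submodule.span ℝ
      ((fun e : Fin (n + 1 + 1) × Fin (n + 1 + 1) => fun c : Fin r => Phi (y e.1) (y e.2) (M c)) ''
      {e | e.1 ≠ p ∧ e.2 ≠ p}) := by
  by_contra hcon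
  have hlt : Submodule.span ℝ
      ((fun e : Fin (n + 1 + 1) × Fin (n + 1 + 1) => fun c : Fin r => Phi (y e.1) (y e.2) (M c)) ''
      {e | e.1 ≠ p ∧ e.2 ≠ p}) < ⊤ := by
    rw [lt_top_iff_ne_top]
    intro h
    apply hcon
    rw [h]
  obtain ⟨f, hf, hker⟩ := Submodule.exists_le_ker_of_lt_top _ hlt
  set g : Fin r → ℝ := fun c => f (Pi.single c 1) with hg
  have hfg : ∀ u : Fin r → ℝ, f u = ∑ c, g c * u c := by
    intro u
    have h1 : u = ∑ c, u c • (Pi.single c (1 : ℝ) : Fin r → ℝ) := by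
      funext a
      rw [Finset.sum_apply]
      simp [Pi.single_apply]
    conv_lhs => rw [h1]
    rw [map_sum]
    apply Finset.sum_congr rfl
    intro c _
    rw [map_smul, smul_eq_mul, mul_comm]
  have hzero : ∑ c, g c • M c = 0 := by
    apply eq_zero_of_Phi (fun j : Fin (n + 1) => y (p.succAbove j))
      (hy.comp Fin.succAbove_right_injective)
    intro j l
    rw [Phi_sum]
    have h2 : (fun c : Fin r => Phi (y (p.succAbove j)) (y (p.succAbove l)) (M c)) ∈
        LinearMap.ker f := by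
      apply hker
      apply Submodule.subset_span
      exact ⟨(p.succAbove j, p.succAbove l), ⟨Fin.succAbove_ne p j, Fin.succAbove_ne p l⟩, rfl⟩
    rw [LinearMap.mem_ker, hfg] at h2
    exact h2
  have hg0 := Fintype.linearIndependent_iff.mp hM g hzero
  apply hf
  ext c
  simp only [LinearMap.coe_comp, Function.comp_apply, LinearMap.zero_apply]
  exact hg0 c

lemma prod_zpow_sum {κ : Type*} (s : Finset κ) (Q : ℝ) (hQ : Q ≠ 0) (k : κ → ℤ) :
    ∏ a ∈ s, Q ^ (k a) = Q ^ (∑ a ∈ s, k a) := by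
  classical
  induction s using Finset.induction_on with
  | empty => simp
  | insert a s ha ih =>
    rw [Finset.prod_insert ha, Finset.sum_insert ha, zpow_add₀ hQ, ih]

/-- Second nondivergence statement with explicit weights. -/
theorem G2_all (n : ℕ) (hn : 1 ≤ n) {y0 r0 : ℝ} (hr0 : 0 < r0) {δ : ℝ} (hδ : 0 < δ) :
    ∃ η : ℝ, 0 < η ∧ ∀ θ Q : ℝ, 0 < θ → θ ≤ 1 → 1 ≤ Q →
      1 ≤ Q * θ ^ (Fintype.card (I2 n)) →
      volume {x ∈ closedBall y0 r0 | ∃ v : I2 n → ℤ, v ≠ 0 ∧
        ∀ p : I2 n, |(Q ^ (if p.1.1 = 0 then (n : ℤ) - 1 else -2) *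
          (if p.1.1 = 0 ∧ ((p.1.2 : Fin (n + 1)) : ℕ) = 1
            then (θ ^ (Fintype.card (I2 n) - 1))⁻¹ else θ)) *
          (TW n x).mulVec (toR v) p| ≤ η} ≤ ENNReal.ofReal δ := by
  classical
  set D := Fintype.card (I2 n) with hD
  have hcardI := card_I2 n
  rw [← hD] at hcardI
  set J : ∀ r : ℕ, Finset (ℝ × (Fin r → I2 n)) := fun r =>
    (Finset.univ.image (pts y0 r0 (n + 1 + 1))) ×ˢ
      (Finset.univ.filter (fun e : Fin r → I2 n => Function.Injective e ∧
        (2 * r < (n + 1) * (Finset.univ.filter (fun a => (e a).1.1 = 0)).card ∨ r = D)))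
    with hJ
  have hmemJ : ∀ r (j : ℝ × (Fin r → I2 n)), j ∈ J r ↔
      (∃ k, pts y0 r0 (n + 1 + 1) k = j.1) ∧ Function.Injective j.2 ∧
        (2 * r < (n + 1) * (Finset.univ.filter (fun a => (j.2 a).1.1 = 0)).card ∨ r = D) := by
    intro r j
    rw [hJ, Finset.mem_product, Finset.mem_image, Finset.mem_filter]
    simp
  have hJ1 : ∀ r, ∀ j ∈ J r, j.1 ∈ closedBall y0 r0 := by
    intro r j hj
    obtain ⟨⟨k, hk⟩, _⟩ := (hmemJ r j).mp hj
    rw [← hk]
    exact pts_mem hr0 _ k
  have hJ2 : ∀ r, 1 ≤ r → ∀ M : Fin r → I2 n → ℝ, LinearIndependent ℝ M →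
      ∃ j ∈ J r, mnr (TW n j.1) M j.2 ≠ 0 := by
    intro r hr M hM
    set y := pts y0 r0 (n + 1 + 1) with hy
    have hyinj : Function.Injective y := pts_injective hr0 _
    by_cases hrD : r = D
    · obtain ⟨e, he1, he2⟩ := exists_rows _ (li_mulVec (TW n (y 0)) (TW_inj n (y 0)) M hM)
      refine ⟨(y 0, e), ?_, he2⟩
      rw [hmemJ]
      exact ⟨⟨0, rfl⟩, he1, Or.inr hrD⟩
    · set rw0 : Fin (n + 1 + 1) → I2 n → Fin r → ℝ :=
        fun j p c => (TW n (y j)).mulVec (M c) p with hrw0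
      set u : Fin (n + 1 + 1) → Fin (n + 1 + 1) → Fin r → ℝ :=
        fun j l c => Phi (y j) (y l) (M c) with hu
      have huu : ∀ j l, u j l = -u l j := by
        intro j l
        funext c
        simp only [hu, Pi.neg_apply]
        exact Phi_antisymm _ _ _
      have hex : ∃ j, 2 * r < (n + 1) *
          finrank ℝ (Submodule.span ℝ (rw0 j '' {p | p.1.1 = 0})) := by
        by_contra hcon
        push Not at hcon
        have hgl := graph_lemma (E := Fin r → ℝ) (N := n + 1) (r := r) (by omega) hr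
          (by simp) u huu (fun p => Phi_span y hyinj M hM p) (by
            intro j
            refine le_trans (Nat.mul_le_mul_left _ ?_) (hcon j)
            apply Submodule.finrank_mono
            rw [Submodule.span_le]
            rintro _ ⟨l, rfl⟩
            exact Phi_mem_span (y j) (y l) M)
        apply hrD
        simp only [Nat.add_sub_cancel] at hgl
        omega
      obtain ⟨j, hj⟩ := hex
      obtain ⟨S₁, hS1, _, hS3, hS4⟩ := exists_linearIndepOn_extension
        (linearIndepOn_empty ℝ (rw0 j)) (Set.empty_subset {p : I2 n | p.1.1 = 0})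
      obtain ⟨e, he1, he2, he3⟩ := exists_rows_extend (fun c => (TW n (y j)).mulVec (M c))
        (li_mulVec (TW n (y j)) (TW_inj n (y j)) M hM) S₁ hS4
      refine ⟨(y j, e), ?_, he3⟩
      rw [hmemJ]
      refine ⟨⟨j, rfl⟩, he1, Or.inl ?_⟩
      refine lt_of_lt_of_le hj (Nat.mul_le_mul_left _ ?_)
      -- the rank is at most the number of zero rows used
      set F₁ : Finset (I2 n) := Finset.univ.filter (fun p => p ∈ S₁) with hF₁
      have h1 : finrank ℝ (Submodule.span ℝ (rw0 j '' {p | p.1.1 = 0})) ≤ F₁.card := by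
        have h2 : Submodule.span ℝ (rw0 j '' {p | p.1.1 = 0}) ≤
            Submodule.span ℝ ((F₁.image (rw0 j) : Finset (Fin r → ℝ)) : Set (Fin r → ℝ)) := by
          rw [Submodule.span_le]
          refine hS3.trans ?_
          apply Submodule.span_mono
          rintro _ ⟨p, hp, rfl⟩
          rw [Finset.coe_image]
          exact ⟨p, by rw [hF₁]; simp [hp], rfl⟩
        refine (Submodule.finrank_mono h2).trans ?_
        exact (finrank_span_finset_le_card _).trans Finset.card_image_le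
      refine h1.trans ?_
      have h3 : F₁ ⊆ (Finset.univ.filter (fun a => (e a).1.1 = 0)).image e := by
        intro p hp
        rw [hF₁, Finset.mem_filter] at hp
        obtain ⟨a, ha⟩ := he2 hp.2
        rw [Finset.mem_image]
        refine ⟨a, ?_, ha⟩
        rw [Finset.mem_filter]
        refine ⟨Finset.mem_univ _, ?_⟩
        rw [ha]
        exact hS1 hp.2
      exact (Finset.card_le_card h3).trans Finset.card_image_le
  obtain ⟨η, hη, hmain⟩ := weighted_nondiv (TW_poly n) hr0 J hJ1 hJ2 hδ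
  refine ⟨η, hη, ?_⟩
  intro θ Q hθ hθ1 hQ hQθ
  have hQ0 : 0 < Q := by linarith
  set k : I2 n → ℤ := fun p => if p.1.1 = 0 then (n : ℤ) - 1 else -2 with hk
  set uu : I2 n → ℝ := fun p => if p.1.1 = 0 ∧ ((p.1.2 : Fin (n + 1)) : ℕ) = 1
            then (θ ^ (D - 1))⁻¹ else θ with huu
  have huge : ∀ p, θ ≤ uu p := by
    intro p
    simp only [huu]
    split_ifs
    · have h1 : θ ^ (D - 1) ≤ 1 := pow_le_one₀ hθ.le hθ1
      have h2 : 1 ≤ (θ ^ (D - 1))⁻¹ := (one_le_inv₀ (by positivity)).mpr h1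
      linarith
    · exact le_refl _
  have hupos : ∀ p, 0 < uu p := fun p => lt_of_lt_of_le hθ (huge p)
  refine hmain (fun p => Q ^ (k p) * uu p) ?_
  intro r hr hrD j hj
  rw [← hD] at hrD
  obtain ⟨_, hinj, hcase⟩ := (hmemJ r j).mp hj
  rw [Finset.prod_mul_distrib, prod_zpow_sum _ _ hQ0.ne']
  rw [abs_of_pos (mul_pos (zpow_pos hQ0 _) (Finset.prod_pos (fun a _ => hupos _)))]
  rcases hcase with hcase | hcase
  · have hsum : 1 ≤ ∑ a, k (j.2 a) := by
      have h1 : ∑ a, k (j.2 a) =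
          ((Finset.univ.filter (fun a => (j.2 a).1.1 = 0)).card : ℤ) * ((n : ℤ) - 1) +
          ((Finset.univ.filter (fun a => ¬ (j.2 a).1.1 = 0)).card : ℤ) * (-2) := by
        simp only [hk]
        rw [Finset.sum_ite, Finset.sum_const, Finset.sum_const, nsmul_eq_mul, nsmul_eq_mul]
      have h2 := Finset.card_filter_add_card_filter_not (s := (Finset.univ : Finset (Fin r)))
        (fun a => (j.2 a).1.1 = 0)
      rw [Finset.card_univ, Fintype.card_fin] at h2
      rw [h1]
      set p0 := (Finset.univ.filter (fun a => (j.2 a).1.1 = 0)).card with hp0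
      set p1 := (Finset.univ.filter (fun a => ¬ (j.2 a).1.1 = 0)).card with hp1
      have h3 : (2 * (r : ℤ)) < ((n : ℤ) + 1) * p0 := by exact_mod_cast hcase
      have h4 : (p0 : ℤ) + p1 = r := by exact_mod_cast h2
      nlinarith
    have h5 : Q ≤ Q ^ (∑ a, k (j.2 a)) := by
      calc Q = Q ^ (1 : ℤ) := by simp
        _ ≤ Q ^ (∑ a, k (j.2 a)) := zpow_le_zpow_right₀ hQ hsum
    have h6 : θ ^ D ≤ ∏ a, uu (j.2 a) := by
      calc θ ^ D ≤ θ ^ r := pow_le_pow_of_le_one hθ.le hθ1 hrD
        _ = ∏ _a : Fin r, θ := by simp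
        _ ≤ ∏ a, uu (j.2 a) := Finset.prod_le_prod (fun _ _ => hθ.le) (fun a _ => huge _)
    calc 1 ≤ Q * θ ^ D := hQθ
      _ ≤ Q ^ (∑ a, k (j.2 a)) * ∏ a, uu (j.2 a) := by
          apply mul_le_mul h5 h6 (by positivity) (by positivity)
  · have hbij : Function.Bijective j.2 := by
      rw [Fintype.bijective_iff_injective_and_card]
      exact ⟨hinj, by rw [Fintype.card_fin, hcase]⟩
    have hs : ∑ a, k (j.2 a) = ∑ p, k p := hbij.sum_comp k
    have hp : ∏ a, uu (j.2 a) = ∏ p, uu p := hbij.prod_comp uu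
    rw [hs, hp]
    have h1 : ∑ p, k p = 0 := by
      simp only [hk]
      rw [Finset.sum_ite, Finset.sum_const, Finset.sum_const, nsmul_eq_mul, nsmul_eq_mul]
      have h2 := Finset.card_filter_add_card_filter_not (s := (Finset.univ : Finset (I2 n)))
        (fun p => p.1.1 = 0)
      rw [Finset.card_univ, ← hD, card_zero_rows] at h2
      rw [card_zero_rows]
      set p1 := (Finset.univ.filter (fun p : I2 n => ¬ p.1.1 = 0)).card with hp1
      have h3 : (n : ℤ) + p1 = D := by exact_mod_cast h2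
      have h4 : 2 * (D : ℤ) = ((n : ℤ) + 1) * n := by exact_mod_cast hcardI
      nlinarith
    have h2 : ∏ p, uu p = 1 := by
      set p₀ : I2 n := ⟨(0, ⟨1, by omega⟩), by rw [Fin.lt_def]; simp⟩ with hp₀
      rw [← Finset.mul_prod_erase Finset.univ uu (Finset.mem_univ p₀)]
      have h3 : ∀ p ∈ Finset.univ.erase p₀, uu p = θ := by
        intro p hp
        simp only [huu]
        rw [if_neg]
        rintro ⟨h4, h5⟩
        apply Finset.ne_of_mem_erase hp
        apply Subtype.ext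
        apply Prod.ext
        · exact h4
        · apply Fin.ext
          exact h5
      rw [Finset.prod_congr rfl h3, Finset.prod_const, Finset.card_erase_of_mem
        (Finset.mem_univ _), Finset.card_univ, ← hD]
      have h6 : uu p₀ = (θ ^ (D - 1))⁻¹ := by
        simp only [huu]
        rw [if_pos]
        exact ⟨rfl, rfl⟩
      rw [h6]
      exact inv_mul_cancel₀ (by positivity)
    rw [h1, h2]
    simp

/-- Second good property. -/
theorem G2_final (n : ℕ) (hn : 1 ≤ n) {y0 r0 : ℝ} (hr0 : 0 < r0) {δ : ℝ} (hδ : 0 < δ)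
    {K : ℝ} (hK : 0 < K) :
    ∃ ε Q₀ : ℝ, 0 < ε ∧ ∀ Q : ℝ, Q₀ ≤ Q →
      volume {x ∈ closedBall y0 r0 | ∃ v : I2 n → ℤ, v ≠ 0 ∧
        (∀ p : I2 n, |(v p : ℝ)| ≤ K * Q ^ 2) ∧
        (∀ k : Fin (n + 1), Q ^ (n - 1) * |AC x (toR v) k| ≤ K) ∧
        Q ^ (n - 1) * |W1 x (toR v)| ≤ ε} ≤ ENNReal.ofReal δ := by
  obtain ⟨η, hη, hmain⟩ := G2_all n hn hr0 hδ
  set D := Fintype.card (I2 n) with hD
  set θ : ℝ := min 1 (η / K) with hθ
  have hθ0 : 0 < θ := lt_min one_pos (by positivity)
  have hθ1 : θ ≤ 1 := min_le_left _ _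
  have hθK : θ * K ≤ η := by
    have : θ ≤ η / K := min_le_right _ _
    rwa [le_div_iff₀ hK] at this
  refine ⟨η * θ ^ (D - 1), max 1 (θ ^ D)⁻¹, by positivity, ?_⟩
  intro Q hQ
  have hQ1 : 1 ≤ Q := (le_max_left _ _).trans hQ
  have hQ0 : 0 < Q := by linarith
  have hQθ : 1 ≤ Q * θ ^ D := by
    have h1 : (θ ^ D)⁻¹ ≤ Q := (le_max_right _ _).trans hQ
    rwa [inv_le_iff_one_le_mul₀ (by positivity)] at h1
  refine le_trans (measure_mono ?_) (hmain θ Q hθ0 hθ1 hQ1 hQθ)
  rintro x ⟨hxB, v, hv, hv1, hv2, hv3⟩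
  refine ⟨hxB, v, hv, ?_⟩
  intro p
  have hnpow : Q ^ ((n : ℤ) - 1) = Q ^ (n - 1) := by
    rw [← zpow_natCast]
    congr 1
    omega
  by_cases hp1 : p.1.1 = 0
  · rw [if_pos hp1, hnpow]
    by_cases hp2 : ((p.1.2 : Fin (n + 1)) : ℕ) = 1
    · rw [if_pos ⟨hp1, hp2⟩, TW_one x _ hp1 hp2, abs_mul, abs_mul,
        abs_of_nonneg (by positivity : (0 : ℝ) ≤ Q ^ (n - 1)),
        abs_of_nonneg (by positivity : (0 : ℝ) ≤ (θ ^ (D - 1))⁻¹)]
      have h1 : Q ^ (n - 1) * (θ ^ (D - 1))⁻¹ * |W1 x (toR v)| =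
          (θ ^ (D - 1))⁻¹ * (Q ^ (n - 1) * |W1 x (toR v)|) := by ring
      rw [h1, inv_mul_le_iff₀ (by positivity), mul_comm (θ ^ (D - 1)) η]
      exact hv3
    · rw [if_neg (by tauto), TW_two x _ hp1 hp2, abs_mul, abs_mul,
        abs_of_nonneg (by positivity : (0 : ℝ) ≤ Q ^ (n - 1)), abs_of_pos hθ0]
      have h1 : Q ^ (n - 1) * θ * |AC x (toR v) p.1.2| =
          θ * (Q ^ (n - 1) * |AC x (toR v) p.1.2|) := by ring
      rw [h1]
      refine le_trans (mul_le_mul_of_nonneg_left (hv2 _) hθ0.le) hθK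
  · rw [if_neg hp1, if_neg (by tauto), TW_ne x _ hp1, abs_mul, abs_mul, abs_of_pos hθ0]
    have h1 : |Q ^ (-2 : ℤ)| = (Q ^ 2)⁻¹ := by
      rw [abs_of_nonneg (by positivity)]
      rw [zpow_neg]
      norm_cast
    rw [h1]
    have h2 : |toR v p| ≤ K * Q ^ 2 := hv1 p
    calc (Q ^ 2)⁻¹ * θ * |toR v p| ≤ (Q ^ 2)⁻¹ * θ * (K * Q ^ 2) := by
          apply mul_le_mul_of_nonneg_left h2 (by positivity)
      _ = θ * K := by field_simp
      _ ≤ η := hθK

end Pool.Agent.Helper88
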