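import Pool.Agent.Helper88.Second
import Pool.Agent.Helper88.Construct

set_option autoImplicit false

open Set Module Polynomial

namespace Pool.Agent.Helper88

/-- The integral wedge of two polynomials. -/
def wd (n : ℕ) (P R : ℤ[X]) : I2 n → ℤ := fun p =>
  P.coeff p.1.1 * R.coeff p.1.2 - P.coeff p.1.2 * R.coeff p.1.1

lemma alt_wd (n : ℕ) (P R : ℤ[X]) (i k : Fin (n + 1)) :
    alt (toR (wd n P R)) i k =
      (P.coeff i : ℝ) * (R.coeff k : ℝ) - (P.coeff k : ℝ) * (R.coeff i : ℝ) := by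
  rcases lt_trichotomy i k with h | h | h
  · rw [alt_of_lt _ h]
    simp only [toR, wd]
    push_cast
    ring
  · rw [h, alt_self]; ring
  · rw [alt_antisymm, alt_of_lt _ h]
    simp only [toR, wd]
    push_cast
    ring

lemma AC_wd (n : ℕ) (P R : ℤ[X]) (x : ℝ) (k : Fin (n + 1)) :
    AC x (toR (wd n P R)) k = ev (toR (cv n P)) x * (R.coeff k : ℝ) -
      (P.coeff k : ℝ) * ev (toR (cv n R)) x := by
  unfold AC ev
  rw [Finset.sum_mul, Finset.mul_sum, ← Finset.sum_sub_distrib]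
  apply Finset.sum_congr rfl
  intro i _
  rw [alt_wd]
  simp only [toR, cv]
  ring

lemma W1_wd (n : ℕ) (P R : ℤ[X]) (x : ℝ) :
    W1 x (toR (wd n P R)) = ev (toR (cv n P)) x * evd (toR (cv n R)) x -
      evd (toR (cv n P)) x * ev (toR (cv n R)) x := by
  unfold W1
  simp_rw [AC_wd]
  unfold evd
  rw [Finset.mul_sum, Finset.sum_mul, ← Finset.sum_sub_distrib]
  apply Finset.sum_congr rfl
  intro k _
  simp only [toR, cv]
  ring

lemma wd_ne_zero {n : ℕ} {P P₀ : ℤ[X]} {α β x : ℝ} (hP : IsPair n β P) (hP₀ : IsPair n α P₀)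
    (hne : β ≠ α) (hα : α ∈ Icc (x - 1) (x + 1)) (hβ : β ∈ Icc (x - 1) (x + 1))
    (hmono : StrictMonoOn (fun t : ℝ => aeval t P₀) (Icc (x - 1) (x + 1))) :
    wd n P P₀ ≠ 0 := by
  intro h
  have h1 : ∀ i k : Fin (n + 1), (P.coeff i : ℝ) * (P₀.coeff k : ℝ) =
      (P.coeff k : ℝ) * (P₀.coeff i : ℝ) := by
    intro i k
    have h2 := alt_wd n P P₀ i k
    rw [h] at h2
    have h3 : alt (toR (0 : I2 n → ℤ)) i k = 0 := by
      unfold alt toR
      simp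
    rw [h3] at h2
    linarith
  have hlead : (P₀.coeff n : ℝ) ≠ 0 := by
    have : P₀.leadingCoeff ≠ 0 := leadingCoeff_ne_zero.mpr hP₀.ne_zero
    rw [leadingCoeff, hP₀.deg] at this
    exact_mod_cast this
  have h4 : ev (toR (cv n P)) α * (P₀.coeff n : ℝ) = (P.coeff n : ℝ) * ev (toR (cv n P₀)) α := by
    unfold ev
    rw [Finset.sum_mul, Finset.mul_sum]
    apply Finset.sum_congr rfl
    intro i _
    have h5 := h1 i (Fin.last n)
    rw [Fin.val_last] at h5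
    simp only [toR, cv]
    linear_combination (α ^ (i : ℕ)) * h5
  rw [← aeval_eq_ev hP₀.deg.le, hP₀.root, mul_zero] at h4
  have h6 := (mul_eq_zero.mp h4).resolve_right hlead
  rw [← aeval_eq_ev hP.deg.le] at h6
  have h7 : IsPair n α P := ⟨hP.prim, hP.deg, h6, hP₀.mdeg⟩
  have h8 : aeval β P₀ = 0 := by
    rcases pair_unique h7 hP₀ with h9 | h9
    · rw [h9]; exact hP.root
    · rw [h9, map_neg, hP.root, neg_zero]
  apply hne
  apply hmono.injOn hβ hα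
  simp only
  rw [h8, hP₀.root]

/-- Roots of different small polynomials are separated near a good point. -/
theorem separation {n : ℕ} (hn : 2 ≤ n) {B K ε₁ ε₂ Q x α β : ℝ} {P P₀ : ℤ[X]} (hB : 1 ≤ B)
    (hx : |x| + 1 ≤ B) (hQ : 1 ≤ Q) (hQ2 : 2 * (Q ^ (n + 1))⁻¹ ≤ 1) (hK : 0 < K)
    (hε₁ : 0 < ε₁) (hε₁1 : ε₁ ≤ 1)
    (hα : |x - α| ≤ (Q ^ (n + 1))⁻¹) (hβ : |β - α| ≤ ε₁ * (Q ^ (n + 1))⁻¹)
    (hP : IsPair n β P) (hP₀ : IsPair n α P₀) (hne : β ≠ α)
    (hhP : (ht P : ℝ) ≤ K * Q) (hhP₀ : (ht P₀ : ℝ) ≤ K * Q)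
    (hmono : StrictMonoOn (fun t : ℝ => aeval t P₀) (Icc (x - 1) (x + 1)))
    (hG2 : ∀ v : I2 n → ℤ, v ≠ 0 → (∀ p : I2 n, |(v p : ℝ)| ≤ (4 * CB n B * K ^ 2) * Q ^ 2) →
      (∀ k : Fin (n + 1), Q ^ (n - 1) * |AC x (toR v) k| ≤ 4 * CB n B * K ^ 2) →
      ε₂ < Q ^ (n - 1) * |W1 x (toR v)|)
    (hsmall : (CB n B) ^ 2 * K ^ 2 * (ε₁ + 5 * (Q ^ (n + 1))⁻¹) ≤ ε₂) : False := by
  have hQ0 : 0 < Q := by linarith
  set h : ℝ := (Q ^ (n + 1))⁻¹ with hh
  have hh0 : 0 < h := by positivity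
  have hhQ : h * (Q ^ (n - 1) * Q ^ 2) = 1 := by
    rw [hh, ← pow_add]
    have : n - 1 + 2 = n + 1 := by omega
    rw [this]
    exact inv_mul_cancel₀ (by positivity)
  have hC1 := CB_pos n hB
  set C := CB n B with hC
  have hxB : |x| ≤ B := by linarith
  have hαx : |α - x| ≤ h := by rw [abs_sub_comm]; exact hα
  have hβx : |β - x| ≤ 2 * h := by
    calc |β - x| = |(β - α) + (α - x)| := by ring_nf
      _ ≤ |β - α| + |α - x| := abs_add_le _ _
      _ ≤ ε₁ * h + h := add_le_add hβ hαx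
      _ ≤ 2 * h := by nlinarith
  have hαI : α ∈ Icc (x - 1) (x + 1) := by
    have := abs_le.mp hαx
    constructor <;> linarith [this.1, this.2]
  have hβI : β ∈ Icc (x - 1) (x + 1) := by
    have := abs_le.mp hβx
    constructor <;> linarith [this.1, this.2]
  have hαB : |α| ≤ B := by
    calc |α| = |x + (α - x)| := by ring_nf
      _ ≤ |x| + |α - x| := abs_add_le _ _
      _ ≤ B := by linarith
  have hβB : |β| ≤ B := by
    calc |β| = |x + (β - x)| := by ring_nf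
      _ ≤ |x| + |β - x| := abs_add_le _ _
      _ ≤ B := by linarith
  have hKQ : 0 ≤ K * Q := by positivity
  -- coefficients
  have hcP : ∀ i : Fin (n + 1), |toR (cv n P) i| ≤ K * Q := fun i =>
    (abs_coeff_le_ht P i).trans hhP
  have hcP₀ : ∀ i : Fin (n + 1), |toR (cv n P₀) i| ≤ K * Q := fun i =>
    (abs_coeff_le_ht P₀ i).trans hhP₀
  -- values
  have hvP₀ : |ev (toR (cv n P₀)) x| ≤ C * (K * Q) * h := by
    have h1 := ev_diff hB hxB hαB hKQ (toR (cv n P₀)) (fun i _ => hcP₀ i)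
    rw [← aeval_eq_ev hP₀.deg.le α, hP₀.root, zero_sub, abs_neg, ← hC] at h1
    refine h1.trans ?_
    gcongr
  have hvP : |ev (toR (cv n P)) x| ≤ C * (K * Q) * (2 * h) := by
    have h1 := ev_diff hB hxB hβB hKQ (toR (cv n P)) (fun i _ => hcP i)
    rw [← aeval_eq_ev hP.deg.le β, hP.root, zero_sub, abs_neg, ← hC] at h1
    refine h1.trans ?_
    gcongr
  have htP₀ : |ev (toR (cv n P₀)) x - (x - α) * evd (toR (cv n P₀)) x| ≤
      C * (K * Q) * h ^ 2 := by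
    have h1 := ev_taylor hB hxB hαB hKQ (toR (cv n P₀)) (fun i _ => hcP₀ i)
    rw [← aeval_eq_ev hP₀.deg.le α, hP₀.root, ← hC] at h1
    have h2 : 0 - ev (toR (cv n P₀)) x - (α - x) * evd (toR (cv n P₀)) x =
        -(ev (toR (cv n P₀)) x - (x - α) * evd (toR (cv n P₀)) x) := by ring
    rw [h2, abs_neg] at h1
    refine h1.trans ?_
    gcongr
  have htP : |ev (toR (cv n P)) x - (x - β) * evd (toR (cv n P)) x| ≤
      C * (K * Q) * (2 * h) ^ 2 := by
    have h1 := ev_taylor hB hxB hβB hKQ (toR (cv n P)) (fun i _ => hcP i)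
    rw [← aeval_eq_ev hP.deg.le β, hP.root, ← hC] at h1
    have h2 : 0 - ev (toR (cv n P)) x - (β - x) * evd (toR (cv n P)) x =
        -(ev (toR (cv n P)) x - (x - β) * evd (toR (cv n P)) x) := by ring
    rw [h2, abs_neg] at h1
    refine h1.trans ?_
    gcongr
  have hdP₀ : |evd (toR (cv n P₀)) x| ≤ C * (K * Q) :=
    evd_le hB hxB hKQ (toR (cv n P₀)) (fun i _ => hcP₀ i)
  have hdP : |evd (toR (cv n P)) x| ≤ C * (K * Q) :=
    evd_le hB hxB hKQ (toR (cv n P)) (fun i _ => hcP i)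
  have hwne := wd_ne_zero hP hP₀ hne hαI hβI hmono
  have hfinal := hG2 (wd n P P₀) hwne ?_ ?_
  · -- the Wronskian is small
    have hW : |W1 x (toR (wd n P P₀))| ≤ C ^ 2 * K ^ 2 * Q ^ 2 * (ε₁ * h + 5 * h ^ 2) := by
      rw [W1_wd]
      set p := ev (toR (cv n P)) x
      set p₀ := ev (toR (cv n P₀)) x
      set d := evd (toR (cv n P)) x
      set d₀ := evd (toR (cv n P₀)) x
      have h1 : p * d₀ - d * p₀ = (p - (x - β) * d) * d₀ - d * (p₀ - (x - α) * d₀) +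
          (α - β) * (d * d₀) := by ring
      rw [h1]
      have h2 : |(p - (x - β) * d) * d₀| ≤ C * (K * Q) * (2 * h) ^ 2 * (C * (K * Q)) := by
        rw [abs_mul]
        exact mul_le_mul htP hdP₀ (abs_nonneg _) (by positivity)
      have h3 : |d * (p₀ - (x - α) * d₀)| ≤ C * (K * Q) * (C * (K * Q) * h ^ 2) := by
        rw [abs_mul]
        exact mul_le_mul hdP htP₀ (abs_nonneg _) (by positivity)
      have h4 : |(α - β) * (d * d₀)| ≤ ε₁ * h * (C * (K * Q) * (C * (K * Q))) := by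
        rw [abs_mul, abs_mul, abs_sub_comm]
        apply mul_le_mul hβ _ (by positivity) (by positivity)
        exact mul_le_mul hdP hdP₀ (abs_nonneg _) (by positivity)
      calc |(p - (x - β) * d) * d₀ - d * (p₀ - (x - α) * d₀) + (α - β) * (d * d₀)|
          ≤ |(p - (x - β) * d) * d₀ - d * (p₀ - (x - α) * d₀)| + |(α - β) * (d * d₀)| :=
            abs_add_le _ _
        _ ≤ |(p - (x - β) * d) * d₀| + |d * (p₀ - (x - α) * d₀)| + |(α - β) * (d * d₀)| := by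
            gcongr
            exact abs_sub _ _
        _ ≤ C * (K * Q) * (2 * h) ^ 2 * (C * (K * Q)) + C * (K * Q) * (C * (K * Q) * h ^ 2) +
            ε₁ * h * (C * (K * Q) * (C * (K * Q))) := by linarith
        _ = C ^ 2 * K ^ 2 * Q ^ 2 * (ε₁ * h + 5 * h ^ 2) := by ring
    have h5 : Q ^ (n - 1) * |W1 x (toR (wd n P P₀))| ≤ ε₂ := by
      calc Q ^ (n - 1) * |W1 x (toR (wd n P P₀))|
          ≤ Q ^ (n - 1) * (C ^ 2 * K ^ 2 * Q ^ 2 * (ε₁ * h + 5 * h ^ 2)) := by gcongr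
        _ = C ^ 2 * K ^ 2 * (ε₁ + 5 * h) * (h * (Q ^ (n - 1) * Q ^ 2)) := by ring
        _ = C ^ 2 * K ^ 2 * (ε₁ + 5 * h) := by rw [hhQ, mul_one]
        _ ≤ ε₂ := hsmall
    linarith
  · intro p
    have h1 : ((wd n P P₀ p : ℤ) : ℝ) = (P.coeff p.1.1 : ℝ) * (P₀.coeff p.1.2 : ℝ) -
        (P.coeff p.1.2 : ℝ) * (P₀.coeff p.1.1 : ℝ) := by
      simp only [wd]; push_cast; ring
    rw [h1]
    refine (abs_sub _ _).trans ?_
    rw [abs_mul, abs_mul]
    have h2 : |(P.coeff p.1.1 : ℝ)| * |(P₀.coeff p.1.2 : ℝ)| ≤ (K * Q) * (K * Q) :=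
      mul_le_mul (hcP p.1.1) (hcP₀ p.1.2) (abs_nonneg _) hKQ
    have h3 : |(P.coeff p.1.2 : ℝ)| * |(P₀.coeff p.1.1 : ℝ)| ≤ (K * Q) * (K * Q) :=
      mul_le_mul (hcP p.1.2) (hcP₀ p.1.1) (abs_nonneg _) hKQ
    have h4 : 0 ≤ K ^ 2 * Q ^ 2 := by positivity
    have h5 : 1 * (K ^ 2 * Q ^ 2) ≤ C * (K ^ 2 * Q ^ 2) := mul_le_mul_of_nonneg_right hC1 h4
    calc |(P.coeff p.1.1 : ℝ)| * |(P₀.coeff p.1.2 : ℝ)| +
          |(P.coeff p.1.2 : ℝ)| * |(P₀.coeff p.1.1 : ℝ)|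
        ≤ (K * Q) * (K * Q) + (K * Q) * (K * Q) := add_le_add h2 h3
      _ = 2 * (K ^ 2 * Q ^ 2) := by ring
      _ ≤ 4 * C * K ^ 2 * Q ^ 2 := by linarith
  · intro k
    rw [AC_wd]
    have h2 : |ev (toR (cv n P)) x * (P₀.coeff k : ℝ)| ≤ C * (K * Q) * (2 * h) * (K * Q) := by
      rw [abs_mul]
      exact mul_le_mul hvP (hcP₀ k) (abs_nonneg _) (by positivity)
    have h3 : |(P.coeff k : ℝ) * ev (toR (cv n P₀)) x| ≤ (K * Q) * (C * (K * Q) * h) := by
      rw [abs_mul]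
      exact mul_le_mul (hcP k) hvP₀ (abs_nonneg _) (by positivity)
    calc Q ^ (n - 1) * |ev (toR (cv n P)) x * (P₀.coeff k : ℝ) -
          (P.coeff k : ℝ) * ev (toR (cv n P₀)) x|
        ≤ Q ^ (n - 1) * (C * (K * Q) * (2 * h) * (K * Q) + (K * Q) * (C * (K * Q) * h)) := by
          gcongr
          exact (abs_sub _ _).trans (add_le_add h2 h3)
      _ = 3 * C * K ^ 2 * (h * (Q ^ (n - 1) * Q ^ 2)) := by ring
      _ = 3 * C * K ^ 2 := by rw [hhQ, mul_one]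
      _ ≤ 4 * C * K ^ 2 := by
          have : 0 ≤ C * K ^ 2 := by positivity
          linarith

end Pool.Agent.Helper88
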