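import Pool.Agent.Helper88.Local

set_option autoImplicit false

open Set Module Polynomial MeasureTheory Metric Filter Topology

namespace Pool.Agent.Helper88

lemma ev_F1 {n : ℕ} {w c₀ ε : ℝ} (hw : (n : ℝ) + 1 < w) (hc₀ : 0 < c₀) (hε : 0 < ε) :
    ∀ᶠ Q : ℝ in atTop, (c₀ * Q) ^ (-w) * Q ^ (n + 1) ≤ ε := by
  have h1 : Tendsto (fun Q : ℝ => c₀ ^ (-w) * Q ^ (-(w - (n + 1)))) atTop (𝓝 (c₀ ^ (-w) * 0)) :=
    (tendsto_rpow_neg_atTop (by linarith : 0 < w - (n + 1))).const_mul _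
  rw [mul_zero] at h1
  filter_upwards [h1.eventually (gt_mem_nhds hε), eventually_gt_atTop 0] with Q hQ hQ0
  have h2 : (c₀ * Q) ^ (-w) * Q ^ (n + 1) = c₀ ^ (-w) * Q ^ (-(w - (n + 1))) := by
    rw [Real.mul_rpow hc₀.le hQ0.le, mul_assoc, ← Real.rpow_natCast, ← Real.rpow_add hQ0]
    congr 2
    push_cast
    ring
  rw [h2]
  exact hQ.le

lemma ev_F2 {n : ℕ} {w t ε : ℝ} (hw : (n : ℝ) + 1 < t * w) (hε : 0 < ε) :
    ∀ᶠ Q : ℝ in atTop, (Q ^ t) ^ (-w) * Q ^ (n + 1) ≤ ε := by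
  have h1 : Tendsto (fun Q : ℝ => Q ^ (-(t * w - (n + 1)))) atTop (𝓝 0) :=
    tendsto_rpow_neg_atTop (by linarith : 0 < t * w - (n + 1))
  filter_upwards [h1.eventually (gt_mem_nhds hε), eventually_gt_atTop 0] with Q hQ hQ0
  have h2 : (Q ^ t) ^ (-w) * Q ^ (n + 1) = Q ^ (-(t * w - (n + 1))) := by
    rw [← Real.rpow_mul hQ0.le, ← Real.rpow_natCast, ← Real.rpow_add hQ0]
    congr 1
    push_cast
    ring
  rw [h2]
  exact hQ.le

lemma ev_F3 {n : ℕ} {t ε : ℝ} (ht0 : 0 < t) (ht1 : t < 1) (hε : 0 < ε) :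
    ∀ᶠ Q : ℝ in atTop, (2 * Q ^ t + 1) ^ (n + 1) * (Q ^ (n + 1))⁻¹ ≤ ε := by
  have h1 : Tendsto (fun Q : ℝ => 3 ^ (n + 1) * (Q ^ (-(1 - t))) ^ (n + 1)) atTop
      (𝓝 (3 ^ (n + 1) * 0 ^ (n + 1))) :=
    ((tendsto_rpow_neg_atTop (by linarith : 0 < 1 - t)).pow (n + 1)).const_mul _
  rw [zero_pow (by omega), mul_zero] at h1
  filter_upwards [h1.eventually (gt_mem_nhds hε), eventually_ge_atTop 1] with Q hQ hQ1
  have hQ0 : 0 < Q := by linarith
  have h2 : 1 ≤ Q ^ t := Real.one_le_rpow hQ1 ht0.le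
  have h3 : Q ^ (-(1 - t)) = Q ^ t * Q⁻¹ := by
    rw [← Real.rpow_neg_one, ← Real.rpow_add hQ0]
    congr 1
    ring
  refine le_trans ?_ hQ.le
  calc (2 * Q ^ t + 1) ^ (n + 1) * (Q ^ (n + 1))⁻¹
      ≤ (3 * Q ^ t) ^ (n + 1) * (Q ^ (n + 1))⁻¹ := by
        gcongr
        linarith
    _ = 3 ^ (n + 1) * (Q ^ (-(1 - t))) ^ (n + 1) := by
        rw [h3, mul_pow, mul_pow, inv_pow]
        ring

lemma ev_F4 (n : ℕ) {ε : ℝ} (hε : 0 < ε) :
    ∀ᶠ Q : ℝ in atTop, (Q ^ (n + 1))⁻¹ ≤ ε := by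
  have h1 : Tendsto (fun Q : ℝ => (Q ^ (n + 1))⁻¹) atTop (𝓝 0) :=
    tendsto_inv_atTop_zero.comp (tendsto_pow_atTop (by omega))
  filter_upwards [h1.eventually (gt_mem_nhds hε)] with Q hQ
  exact hQ.le

lemma ev_K {n : ℕ} {w c' K₅ c₄ ε : ℝ} (hw : (n : ℝ) + 1 < w) (hε : 0 < ε) :
    ∀ᶠ K : ℝ in atTop, (n * (2 * c') * K ^ (-w) * K₅ ^ w * (4 * K / c₄) ^ n) *
      (2 * SS n w) ≤ ε := by
  have h1 : Tendsto (fun K : ℝ => (n * (2 * c') * K₅ ^ w * (4 / c₄) ^ n * (2 * SS n w)) *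
      K ^ (-(w - n))) atTop (𝓝 ((n * (2 * c') * K₅ ^ w * (4 / c₄) ^ n * (2 * SS n w)) * 0)) :=
    (tendsto_rpow_neg_atTop (by linarith : 0 < w - n)).const_mul _
  rw [mul_zero] at h1
  filter_upwards [h1.eventually (gt_mem_nhds hε), eventually_gt_atTop 0] with K hK hK0
  have h2 : K ^ (-(w - n)) = K ^ (-w) * K ^ n := by
    rw [← Real.rpow_natCast, ← Real.rpow_add hK0]
    congr 1
    ring
  rw [h2] at hK
  refine le_trans (le_of_eq ?_) hK.le
  have h3 : 4 * K / c₄ = 4 / c₄ * K := by ring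
  rw [h3, mul_pow]
  ring

/-- The inductive step. -/
theorem step {n : ℕ} (hn : 2 ≤ n) {w : ℝ} (hw : (n : ℝ) + 1 < w) {c' c c₂ : ℝ} {H₀ : ℕ}
    (hc' : 0 < c') (hcc' : c' < c) (hcc₂ : c < c₂) {a b : ℝ}
    (hvol : 0 < volume (Fc n w c H₀ ∩ Icc a b)) (H : ℕ) :
    ∃ α P, IsPair n α P ∧ H ≤ ht P ∧ ∃ a' b' : ℝ, Icc a' b' ⊆ Icc a b ∧
      (∀ ξ ∈ Icc a' b', |ξ - α| < c₂ * (ht P : ℝ) ^ (-w)) ∧
      0 < volume (Fc n w c' H₀ ∩ Icc a' b') := by
  have hn0 : (0 : ℝ) ≤ n := Nat.cast_nonneg _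
  have hw0 : 0 < w := by linarith
  have hvfin : volume (Fc n w c H₀ ∩ Icc a b) ≠ ⊤ := by
    apply ne_top_of_le_ne_top _ (measure_mono inter_subset_right)
    rw [Real.volume_Icc]
    exact ENNReal.ofReal_ne_top
  set v : ℝ := (volume (Fc n w c H₀ ∩ Icc a b)).toReal with hv
  have hv0 : 0 < v := ENNReal.toReal_pos hvol.ne' hvfin
  have hvE : ENNReal.ofReal v = volume (Fc n w c H₀ ∩ Icc a b) := ENNReal.ofReal_toReal hvfin
  have hab : a < b := by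
    by_contra hcon
    push Not at hcon
    have h1 : volume (Fc n w c H₀ ∩ Icc a b) ≤ volume (Icc a b) := measure_mono inter_subset_right
    rw [Real.volume_Icc, ENNReal.ofReal_of_nonpos (by linarith)] at h1
    exact absurd hvol (not_lt.mpr h1)
  set y0 : ℝ := (a + b) / 2 with hy0
  set r0 : ℝ := (b - a) / 2 with hr0
  have hr0pos : 0 < r0 := by rw [hr0]; linarith
  have hball : closedBall y0 r0 = Icc a b := by
    rw [Real.closedBall_eq_Icc, hy0, hr0]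
    congr 1 <;> ring
  set δ : ℝ := v / 16 with hδ
  have hδ0 : 0 < δ := by positivity
  obtain ⟨cg, hcg, hG1⟩ := G1_all n hr0pos hδ0
  set B : ℝ := max |a| |b| + 3 with hB
  have hB1 : 1 ≤ B := by
    have : 0 ≤ max |a| |b| := le_trans (abs_nonneg a) (le_max_left _ _)
    linarith
  have hxB : ∀ x ∈ Icc a b, |x| + 3 ≤ B := by
    intro x hx
    have := abs_le_max_abs_abs hx.1 hx.2
    linarith
  obtain ⟨K₅, c₀, Q₁, hK₅, hc₀, hQ₁, hcons⟩ := construct hn hB1 hcg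
  have hCB := CB_pos n hB1
  set C := CB n B with hC
  set c₄ : ℝ := cg / (1 + C) with hc₄
  have hc₄0 : 0 < c₄ := by positivity
  set ca : ℝ := c' + (c₂ - c') / 3 with hca
  set cb : ℝ := c' + 2 * (c₂ - c') / 3 with hcb
  have hca1 : c' < ca := by rw [hca]; linarith
  have hcab : ca < cb := by rw [hca, hcb]; linarith
  have hcb2 : cb < c₂ := by rw [hcb]; linarith
  have hcb0 : 0 < cb := by linarith
  obtain ⟨K, hKsmall, hKK, hKc⟩ := ((ev_K (c' := c') (K₅ := K₅) (c₄ := c₄) hw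
    (by linarith : 0 < (cb - ca) / 4)).and
    ((eventually_ge_atTop K₅).and (eventually_ge_atTop c₄))).exists
  have hK0 : 0 < K := by linarith
  obtain ⟨ε₂, Q₂, hε₂, hG2⟩ := G2_final n (by omega) hr0pos hδ0
    (by positivity : 0 < 4 * C * K ^ 2)
  set ε₁ : ℝ := min 1 (ε₂ / (2 * C ^ 2 * K ^ 2)) with hε₁
  have hε₁0 : 0 < ε₁ := lt_min one_pos (by positivity)
  have hε₁1 : ε₁ ≤ 1 := min_le_left _ _
  have hε₁2 : C ^ 2 * K ^ 2 * ε₁ ≤ ε₂ / 2 := by
    have h1 : ε₁ ≤ ε₂ / (2 * C ^ 2 * K ^ 2) := min_le_right _ _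
    rw [le_div_iff₀ (by positivity)] at h1
    linarith
  set t : ℝ := (((n : ℝ) + 1) / w + 1) / 2 with htdef
  have ht3 : ((n : ℝ) + 1) / w < 1 := by rw [div_lt_one hw0]; exact hw
  have ht1 : t < 1 := by rw [htdef]; linarith
  have htlow : ((n : ℝ) + 1) / w < t := by rw [htdef]; linarith
  have ht0 : 0 < t := lt_trans (by positivity) htlow
  have htw : (n : ℝ) + 1 < t * w := by
    rw [div_lt_iff₀ hw0] at htlow
    exact htlow
  set κ : ℝ := n * (2 * c') * K ^ (-w) * K₅ ^ w * (4 * K / c₄) ^ n with hκ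
  have hκ0 : 0 ≤ κ := by positivity
  have hSS1 := SS_pos (m := n + 1) (w := w) (by push_cast; exact hw)
  set G : ℝ := κ * ((4 * C * cb * K / c₄) * SS (n + 1) w) with hG
  have hG0 : 0 ≤ G := by positivity
  set εF : ℝ := min (1 / cb) (min (ε₁ / (2 * cb)) ((cb - ca) / (4 * (G + 1)))) with hεF
  have hεF0 : 0 < εF := by
    have : 0 < cb - ca := by linarith
    apply lt_min (by positivity)
    apply lt_min (by positivity) (by positivity)
  have hcc0 : 0 < c - c' := by linarith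
  have hc0 : 0 < c := by linarith
  set K₁ : ℝ := 2 * c / (c - c') with hK₁
  have hK₁0 : 0 < K₁ := by positivity
  set ε4 : ℝ := min (1 / 2) (min (δ / 2) (ε₂ / (10 * C ^ 2 * K ^ 2))) with hε4
  have hε40 : 0 < ε4 := by
    apply lt_min (by norm_num)
    apply lt_min (by positivity) (by positivity)
  obtain ⟨Q, ⟨hQ1, hQ₁Q, hQ₂Q⟩, hQH, hF1, hF2, hF3, hF4⟩ :=
    (((eventually_ge_atTop (1 : ℝ)).and ((eventually_ge_atTop Q₁).and
      (eventually_ge_atTop Q₂))).and ((eventually_ge_atTop ((H : ℝ) / c₀)).and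
      ((ev_F1 hw hc₀ hεF0).and ((ev_F2 (n := n) htw
        (by positivity : 0 < ε₁ / (2 * c'))).and ((ev_F3 (n := n) ht0 ht1
        (by positivity : 0 < δ / (((n : ℝ) + 1) * (2 * K₁)))).and (ev_F4 n hε40)))))).exists
  have hQ0 : 0 < Q := by linarith
  have hQn : 0 < Q ^ (n + 1) := by positivity
  set h : ℝ := (Q ^ (n + 1))⁻¹ with hh
  have hh0 : 0 < h := by positivity
  have hhQ : h * Q ^ (n + 1) = 1 := inv_mul_cancel₀ hQn.ne'
  have hh1 : h ≤ 1 / 2 := hF4.trans (min_le_left _ _)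
  have hh2 : h ≤ δ / 2 := hF4.trans ((min_le_right _ _).trans (min_le_left _ _))
  have hh3 : h ≤ ε₂ / (10 * C ^ 2 * K ^ 2) :=
    hF4.trans ((min_le_right _ _).trans (min_le_right _ _))
  -- the bad sets
  set Bad1 : Set ℝ := {x ∈ closedBall y0 r0 | ∃ v : Fin (n + 1) → ℤ, v ≠ 0 ∧
        Q ^ n * |ev (toR v) x| ≤ cg ∧ ∀ i, i ≠ 0 → |(v i : ℝ)| ≤ cg * Q} with hBad1
  set Bad2 : Set ℝ := {x ∈ closedBall y0 r0 | ∃ v : I2 n → ℤ, v ≠ 0 ∧
        (∀ p : I2 n, |(v p : ℝ)| ≤ 4 * C * K ^ 2 * Q ^ 2) ∧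
        (∀ k : Fin (n + 1), Q ^ (n - 1) * |AC x (toR v) k| ≤ 4 * C * K ^ 2) ∧
        Q ^ (n - 1) * |W1 x (toR v)| ≤ ε₂} with hBad2
  set S3 : Set ℤ[X] := {P : ℤ[X] | P ≠ 0 ∧ P.natDegree ≤ n ∧ (ht P : ℝ) ≤ Q ^ t} with hS3
  set Bad3 : Set ℝ := {x : ℝ | ∃ P ∈ S3, ∃ β, aeval β P = 0 ∧ |x - β| < K₁ * h} with hBad3
  set Bad4 : Set ℝ := Icc a (a + δ) ∪ Icc (b - δ) b with hBad4
  have hm1 : volume Bad1 ≤ ENNReal.ofReal δ := hG1 Q hQ1
  have hm2 : volume Bad2 ≤ ENNReal.ofReal δ := hG2 Q hQ₂Q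
  have hm3 : volume Bad3 ≤ ENNReal.ofReal δ := by
    have hQt : 0 ≤ Q ^ t := Real.rpow_nonneg hQ0.le _
    have hct := count_trivial n hQt
    have hsub : S3 ⊆ {P : ℤ[X] | P.natDegree ≤ n ∧ (ht P : ℝ) ≤ Q ^ t} :=
      fun P hP => ⟨hP.2.1, hP.2.2⟩
    have hfin : S3.Finite := hct.2.subset hsub
    refine (volume_roots S3 hfin (n := n) (fun P hP => ⟨hP.1, hP.2.1⟩) (by positivity)).trans ?_
    apply ENNReal.ofReal_le_ofReal
    have h1 : ((S3.ncard : ℕ) : ℝ) ≤ (2 * Q ^ t + 1) ^ (n + 1) := by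
      refine le_trans ?_ hct.1
      exact_mod_cast Set.ncard_le_ncard hsub hct.2
    have h2 : (2 * Q ^ t + 1) ^ (n + 1) * h * (((n : ℝ) + 1) * (2 * K₁)) ≤ δ := by
      rw [le_div_iff₀ (by positivity)] at hF3
      exact hF3
    calc ((S3.ncard : ℕ) : ℝ) * n * (2 * (K₁ * h))
        ≤ (2 * Q ^ t + 1) ^ (n + 1) * (n + 1) * (2 * (K₁ * h)) := by
          gcongr
          linarith
      _ = (2 * Q ^ t + 1) ^ (n + 1) * h * (((n : ℝ) + 1) * (2 * K₁)) := by ring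
      _ ≤ δ := h2
  have hm4 : volume Bad4 ≤ ENNReal.ofReal (2 * δ) := by
    refine (measure_union_le _ _).trans ?_
    rw [Real.volume_Icc, Real.volume_Icc, ← ENNReal.ofReal_add (by linarith) (by linarith)]
    apply ENNReal.ofReal_le_ofReal
    linarith
  have hex : ∃ x ∈ Fc n w c H₀ ∩ Icc a b, x ∉ Bad1 ∧ x ∉ Bad2 ∧ x ∉ Bad3 ∧ x ∉ Bad4 := by
    by_contra hcon
    push Not at hcon
    have hsub : Fc n w c H₀ ∩ Icc a b ⊆ Bad1 ∪ Bad2 ∪ (Bad3 ∪ Bad4) := by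
      intro x hx
      by_cases h1 : x ∈ Bad1
      · exact Or.inl (Or.inl h1)
      · by_cases h2 : x ∈ Bad2
        · exact Or.inl (Or.inr h2)
        · by_cases h3 : x ∈ Bad3
          · exact Or.inr (Or.inl h3)
          · exact Or.inr (Or.inr (hcon x hx h1 h2 h3))
    have h1 : volume (Fc n w c H₀ ∩ Icc a b) ≤ ENNReal.ofReal (5 * δ) := by
      calc volume (Fc n w c H₀ ∩ Icc a b) ≤ volume (Bad1 ∪ Bad2 ∪ (Bad3 ∪ Bad4)) :=
            measure_mono hsub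
        _ ≤ (volume Bad1 + volume Bad2) + (volume Bad3 + volume Bad4) :=
            (measure_union_le _ _).trans (add_le_add (measure_union_le _ _)
              (measure_union_le _ _))
        _ ≤ (ENNReal.ofReal δ + ENNReal.ofReal δ) + (ENNReal.ofReal δ + ENNReal.ofReal (2 * δ)) :=
            add_le_add (add_le_add hm1 hm2) (add_le_add hm3 hm4)
        _ = ENNReal.ofReal (5 * δ) := by
            rw [← ENNReal.ofReal_add hδ0.le hδ0.le, ← ENNReal.ofReal_add hδ0.le (by positivity),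
              ← ENNReal.ofReal_add (by positivity) (by positivity)]
            congr 1; ring
    rw [← hvE, ENNReal.ofReal_le_ofReal_iff (by positivity)] at h1
    rw [hδ] at h1
    linarith
  obtain ⟨x, ⟨hxF, hxI⟩, hx1, hx2, hx3, hx4⟩ := hex
  have hxball : x ∈ closedBall y0 r0 := by rw [hball]; exact hxI
  have hxB' := hxB x hxI
  have hGood : Good1 n cg Q x := by
    intro v hv hev
    by_contra hcon
    push Not at hcon
    exact hx1 ⟨hxball, v, hv, hev, hcon⟩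
  obtain ⟨P₀, hP1, hP2, hP3, hht1, hht2, ⟨α, hα, hroot⟩, hmono⟩ :=
    hcons Q hQ₁Q x (by linarith) hGood
  have hpair : IsPair n α P₀ := isPair_of_irreducible hP1 hP2 hroot hP3
  have hhtpos : (0 : ℝ) < ht P₀ := lt_of_lt_of_le (by positivity) hht1
  set ρ : ℝ := (ht P₀ : ℝ) ^ (-w) with hρ
  have hρ0 : 0 < ρ := Real.rpow_pos_of_pos hhtpos _
  have hρQ : ρ * Q ^ (n + 1) ≤ εF := by
    refine le_trans ?_ hF1
    gcongr
    exact Real.rpow_le_rpow_of_nonpos (by positivity) hht1 (by linarith)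
  have hρ1 : cb * ρ ≤ h := by
    have h1 : ρ * Q ^ (n + 1) ≤ 1 / cb := hρQ.trans (min_le_left _ _)
    rw [le_div_iff₀ hcb0] at h1
    rw [hh, ← one_div, le_div_iff₀ hQn]
    linarith
  have hρ2 : cb * ρ ≤ ε₁ * h / 2 := by
    have h1 : ρ * Q ^ (n + 1) ≤ ε₁ / (2 * cb) := hρQ.trans ((min_le_right _ _).trans
      (min_le_left _ _))
    rw [le_div_iff₀ (by positivity)] at h1
    have h2 : ρ * Q ^ (n + 1) * (2 * cb) * h ≤ ε₁ * h := mul_le_mul_of_nonneg_right h1 hh0.le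
    have h3 : ρ * Q ^ (n + 1) * (2 * cb) * h = 2 * (cb * ρ) * (h * Q ^ (n + 1)) := by ring
    rw [h3, hhQ, mul_one] at h2
    linarith
  have hρ3 : c' * (Q ^ t) ^ (-w) ≤ ε₁ * h / 2 := by
    rw [le_div_iff₀ (by positivity)] at hF2
    have h2 : (Q ^ t) ^ (-w) * Q ^ (n + 1) * (2 * c') * h ≤ ε₁ * h :=
      mul_le_mul_of_nonneg_right hF2 hh0.le
    have h3 : (Q ^ t) ^ (-w) * Q ^ (n + 1) * (2 * c') * h =
        2 * (c' * (Q ^ t) ^ (-w)) * (h * Q ^ (n + 1)) := by ring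
    rw [h3, hhQ, mul_one] at h2
    linarith
  have hQsmall : κ * ((4 * C * cb * K / c₄) * SS (n + 1) w * (ρ * Q ^ (n + 1))) ≤
      (cb - ca) / 4 := by
    have h1 : ρ * Q ^ (n + 1) ≤ (cb - ca) / (4 * (G + 1)) := hρQ.trans ((min_le_right _ _).trans
      (min_le_right _ _))
    have h2 : κ * ((4 * C * cb * K / c₄) * SS (n + 1) w * (ρ * Q ^ (n + 1))) =
        G * (ρ * Q ^ (n + 1)) := by rw [hG]; ring
    rw [h2]
    calc G * (ρ * Q ^ (n + 1)) ≤ (G + 1) * ((cb - ca) / (4 * (G + 1))) := by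
          have : 0 ≤ ρ * Q ^ (n + 1) := by positivity
          apply mul_le_mul (by linarith) h1 this (by linarith)
      _ = (cb - ca) / 4 := by
          have : G + 1 ≠ 0 := by positivity
          field_simp
  have hαB : |α| ≤ B := by
    calc |α| = |x - (x - α)| := by ring_nf
      _ ≤ |x| + |x - α| := abs_sub _ _
      _ ≤ B := by linarith
  have hGα : Good1 n c₄ Q α := good1_transfer hB1 hcg hQ1 (by linarith) hαB hα hGood
  have hsep : ∀ β P, IsPair n β P → β ≠ α → (ht P : ℝ) ≤ K * Q → ε₁ * h < |β - α| := by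
    intro β P hP hne hhtP
    by_contra hcon
    push Not at hcon
    refine separation hn hB1 (by linarith : |x| + 1 ≤ B) hQ1 (by rw [← hh]; linarith) hK0 hε₁0
      hε₁1 hα hcon hP hpair hne hhtP (hht2.trans (by gcongr)) hmono (ε₂ := ε₂) ?_ ?_
    · intro v hv hv1 hv2
      by_contra hcon2
      push Not at hcon2
      exact hx2 ⟨hxball, v, hv, hv1, hv2, hcon2⟩
    · rw [← hh, ← hC]
      have h1 : C ^ 2 * K ^ 2 * (5 * h) ≤ ε₂ / 2 := by
        rw [le_div_iff₀ (by positivity)] at hh3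
        linarith
      linarith
  have hexc : ∀ β P, IsPair n β P → (ht P : ℝ) ≤ Q ^ t → K₁ * h ≤ |x - β| := by
    intro β P hP hhtP
    by_contra hcon
    push Not at hcon
    exact hx3 ⟨P, ⟨hP.ne_zero, hP.deg.le, hhtP⟩, β, hP.root, hcon⟩
  have hfinal := local_step hn hw hB1 hxB' hQ1 hc' hcc' hca1 hcab hc₄0 hK₅ hKc hε₁0 hα hpair hht2
    hKK hxF hGα hsep hexc hρ1 hρ2 hρ3 hKsmall hQsmall
  refine ⟨α, P₀, hpair, ?_, α + ca * ρ, α + cb * ρ, ?_, ?_, hfinal⟩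
  · have h1 : (H : ℝ) ≤ ht P₀ := by
      have h2 : (H : ℝ) / c₀ ≤ Q := hQH
      rw [div_le_iff₀ hc₀] at h2
      linarith
    exact_mod_cast h1
  · have hxa : a + δ < x := by
      by_contra hcon
      push Not at hcon
      exact hx4 (Or.inl ⟨hxI.1, hcon⟩)
    have hxb : x < b - δ := by
      by_contra hcon
      push Not at hcon
      exact hx4 (Or.inr ⟨hcon, hxI.2⟩)
    have h1 := abs_le.mp hα
    have hcaρ : 0 ≤ ca * ρ := by
      have : 0 < ca := by linarith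
      positivity
    intro ξ hξ
    constructor
    · linarith [hξ.1]
    · linarith [hξ.2]
  · intro ξ hξ
    have hcaρ : 0 ≤ ca * ρ := by
      have : 0 < ca := by linarith
      positivity
    have h1 : 0 ≤ ξ - α := by linarith [hξ.1]
    rw [abs_of_nonneg h1]
    have h2 : cb * ρ < c₂ * ρ := mul_lt_mul_of_pos_right hcb2 hρ0
    linarith [hξ.2]

end Pool.Agent.Helper88
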