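import Pool.Agent.Helper88.Weighted

set_option autoImplicit false

open Set Module MeasureTheory Metric

namespace Pool.Agent.Helper88

/-- Evaluation of the polynomial with given coefficients. -/
noncomputable def ev {N : ℕ} (v : Fin N → ℝ) (x : ℝ) : ℝ := ∑ i : Fin N, v i * x ^ (i : ℕ)

/-- Sample points. -/
noncomputable def pts (y0 r0 : ℝ) (m : ℕ) (k : Fin m) : ℝ := y0 + r0 * ((k : ℕ) : ℝ) / m

lemma pts_injective {y0 r0 : ℝ} (hr0 : 0 < r0) (m : ℕ) : Function.Injective (pts y0 r0 m) := by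
  intro k l h
  have hm : (0 : ℝ) < m := by
    have : 0 < m := by have := k.2; omega
    exact_mod_cast this
  unfold pts at h
  have h1 : r0 * ((k : ℕ) : ℝ) / m = r0 * ((l : ℕ) : ℝ) / m := by linarith
  have h2 : ((k : ℕ) : ℝ) = ((l : ℕ) : ℝ) := by
    field_simp at h1
    exact h1
  apply Fin.ext
  exact_mod_cast h2

lemma pts_mem {y0 r0 : ℝ} (hr0 : 0 < r0) (m : ℕ) (k : Fin m) :
    pts y0 r0 m k ∈ closedBall y0 r0 := by
  have hk := k.2
  have hm : (0 : ℝ) < m := by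
    have : 0 < m := by omega
    exact_mod_cast this
  have hk' : ((k : ℕ) : ℝ) ≤ m := by exact_mod_cast hk.le
  unfold pts
  rw [mem_closedBall, Real.dist_eq, add_sub_cancel_left, abs_of_nonneg (by positivity)]
  rw [div_le_iff₀ hm]
  nlinarith

/-- Vectors vanishing at enough points are zero. -/
lemma eq_zero_of_ev {N : ℕ} (y : Fin N → ℝ) (hy : Function.Injective y) (v : Fin N → ℝ)
    (h : ∀ k, ev v (y k) = 0) : v = 0 := by
  apply Matrix.eq_zero_of_mulVec_eq_zero (M := Matrix.vandermonde y)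
  · rw [Matrix.det_vandermonde_ne_zero_iff]
    exact hy
  · funext k
    have := h k
    unfold ev at this
    simp only [Matrix.mulVec, dotProduct, Matrix.vandermonde_apply, Pi.zero_apply]
    rw [← this]
    apply Finset.sum_congr rfl
    intro i _
    ring

/-- The matrix of the Veronese curve. -/
noncomputable def TV (n : ℕ) (x : ℝ) : Matrix (Fin (n + 1)) (Fin (n + 1)) ℝ :=
  Matrix.of fun i j => if i = 0 then x ^ (j : ℕ) else if i = j then 1 else 0

lemma TV_zero (n : ℕ) (x : ℝ) (v : Fin (n + 1) → ℝ) : (TV n x).mulVec v 0 = ev v x := by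
  simp only [TV, Matrix.mulVec, dotProduct, Matrix.of_apply, if_true, ev]
  apply Finset.sum_congr rfl
  intro i _
  ring

lemma TV_ne (n : ℕ) (x : ℝ) (v : Fin (n + 1) → ℝ) {i : Fin (n + 1)} (hi : i ≠ 0) :
    (TV n x).mulVec v i = v i := by
  simp only [TV, Matrix.mulVec, dotProduct, Matrix.of_apply, if_neg hi]
  simp

lemma TV_poly (n : ℕ) (i j : Fin (n + 1)) : PolyFn n (fun x => TV n x i j) := by
  by_cases hi : i = 0
  · refine ⟨Polynomial.X ^ (j : ℕ), ?_, ?_⟩
    · rw [Polynomial.natDegree_X_pow]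
      have := j.2
      omega
    · intro x
      simp [TV, hi]
  · refine ⟨Polynomial.C (if i = j then 1 else 0), ?_, ?_⟩
    · rw [Polynomial.natDegree_C]; omega
    · intro x
      simp only [TV, Matrix.of_apply, if_neg hi, Polynomial.eval_C]

lemma TV_inj (n : ℕ) (x : ℝ) (v : Fin (n + 1) → ℝ) (h : (TV n x).mulVec v = 0) : v = 0 := by
  have h1 : ∀ i, i ≠ 0 → v i = 0 := by
    intro i hi
    rw [← TV_ne n x v hi, h]; rfl
  have h2 : ev v x = 0 := by rw [← TV_zero, h]; rfl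
  unfold ev at h2
  rw [Fin.sum_univ_succ] at h2
  have h3 : ∑ i : Fin n, v i.succ * x ^ ((i.succ : Fin (n + 1)) : ℕ) = 0 := by
    apply Finset.sum_eq_zero
    intro i _
    rw [h1 _ (Fin.succ_ne_zero i), zero_mul]
  rw [h3] at h2
  funext i
  by_cases hi : i = 0
  · rw [hi]
    simpa using h2
  · exact h1 i hi

lemma li_mulVec {ι : Type*} [Fintype ι] {r : ℕ} (A : Matrix ι ι ℝ)
    (hA : ∀ v : ι → ℝ, A.mulVec v = 0 → v = 0) (M : Fin r → ι → ℝ)
    (hM : LinearIndependent ℝ M) : LinearIndependent ℝ (fun c => A.mulVec (M c)) := by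
  have h1 : LinearMap.ker A.mulVecLin = ⊥ := by
    rw [LinearMap.ker_eq_bot']
    intro v hv
    exact hA v hv
  exact hM.map' A.mulVecLin h1

/-- First good property: no small vectors for almost all points. -/
theorem G1_all (n : ℕ) {y0 r0 : ℝ} (hr0 : 0 < r0) {δ : ℝ} (hδ : 0 < δ) :
    ∃ c : ℝ, 0 < c ∧ ∀ Q : ℝ, 1 ≤ Q →
      volume {x ∈ closedBall y0 r0 | ∃ v : Fin (n + 1) → ℤ, v ≠ 0 ∧
        Q ^ n * |ev (toR v) x| ≤ c ∧ ∀ i, i ≠ 0 → |(v i : ℝ)| ≤ c * Q} ≤ ENNReal.ofReal δ := by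
  classical
  set J : ∀ r : ℕ, Finset (ℝ × (Fin r → Fin (n + 1))) := fun r =>
    (Finset.univ.image (pts y0 r0 (n + 1))) ×ˢ
      (Finset.univ.filter (fun e : Fin r → Fin (n + 1) => Function.Injective e ∧ ∃ a, e a = 0))
    with hJ
  have hmemJ : ∀ r (j : ℝ × (Fin r → Fin (n + 1))), j ∈ J r ↔
      (∃ k, pts y0 r0 (n + 1) k = j.1) ∧ Function.Injective j.2 ∧ ∃ a, j.2 a = 0 := by
    intro r j
    rw [hJ, Finset.mem_product, Finset.mem_image, Finset.mem_filter]
    simp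
  have hJ1 : ∀ r, ∀ j ∈ J r, j.1 ∈ closedBall y0 r0 := by
    intro r j hj
    obtain ⟨⟨k, hk⟩, _⟩ := (hmemJ r j).mp hj
    rw [← hk]
    exact pts_mem hr0 _ k
  have hJ2 : ∀ r, 1 ≤ r → ∀ M : Fin r → Fin (n + 1) → ℝ, LinearIndependent ℝ M →
      ∃ j ∈ J r, mnr (TV n j.1) M j.2 ≠ 0 := by
    intro r hr M hM
    have hMne : M ⟨0, by omega⟩ ≠ 0 := hM.ne_zero _
    have hex : ∃ k, ev (M ⟨0, by omega⟩) (pts y0 r0 (n + 1) k) ≠ 0 := by
      by_contra hcon
      push Not at hcon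
      exact hMne (eq_zero_of_ev _ (pts_injective hr0 _) _ hcon)
    obtain ⟨k, hk⟩ := hex
    set z := pts y0 r0 (n + 1) k with hz
    have hli := li_mulVec (TV n z) (TV_inj n z) M hM
    obtain ⟨e, he1, he2, he3⟩ := exists_rows_extend (fun c => (TV n z).mulVec (M c)) hli {0} (by
      rw [linearIndepOn_singleton_iff]
      intro h
      apply hk
      have := congrFun h ⟨0, by omega⟩
      simp only [Pi.zero_apply] at this
      rw [← TV_zero]
      exact this)
    refine ⟨(z, e), ?_, he3⟩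
    rw [hmemJ]
    exact ⟨⟨k, rfl⟩, he1, he2 (mem_singleton 0)⟩
  obtain ⟨η, hη, hmain⟩ := weighted_nondiv (TV_poly n) hr0 J hJ1 hJ2 hδ
  refine ⟨η, hη, ?_⟩
  intro Q hQ
  have hQ0 : 0 < Q := by linarith
  set w : Fin (n + 1) → ℝ := fun i => if i = 0 then Q ^ n else Q⁻¹ with hw
  refine le_trans (measure_mono ?_) (hmain w ?_)
  · rintro x ⟨hxB, v, hv, hv0, hvi⟩
    refine ⟨hxB, v, hv, ?_⟩
    intro i
    by_cases hi : i = 0
    · rw [hi, TV_zero, hw]
      simp only [if_true]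
      rw [abs_mul, abs_of_nonneg (by positivity : (0 : ℝ) ≤ Q ^ n)]
      exact hv0
    · rw [TV_ne n x _ hi, hw]
      simp only [if_neg hi]
      rw [abs_mul, abs_of_nonneg (by positivity : (0 : ℝ) ≤ Q⁻¹)]
      rw [inv_mul_le_iff₀ hQ0, mul_comm]
      exact hvi i hi
  · intro r hr hrn j hj
    rw [Fintype.card_fin] at hrn
    obtain ⟨_, hinj, a₀, ha₀⟩ := (hmemJ r j).mp hj
    rw [← Finset.mul_prod_erase Finset.univ (fun a => w (j.2 a)) (Finset.mem_univ a₀)]
    have h1 : ∏ a ∈ Finset.univ.erase a₀, w (j.2 a) = (Q⁻¹) ^ (r - 1) := by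
      have h2 : ∀ a ∈ Finset.univ.erase a₀, w (j.2 a) = Q⁻¹ := by
        intro a ha
        have hne : j.2 a ≠ 0 := by
          intro h
          exact (Finset.ne_of_mem_erase ha) (hinj (h.trans ha₀.symm))
        simp only [hw, if_neg hne]
      rw [Finset.prod_congr rfl h2, Finset.prod_const, Finset.card_erase_of_mem
        (Finset.mem_univ _), Finset.card_univ, Fintype.card_fin]
    rw [h1]
    simp only [hw, ha₀, if_true]
    have h3 : Q ^ n * Q⁻¹ ^ (r - 1) = Q ^ (n - (r - 1)) := by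
      rw [inv_pow]
      exact (pow_sub₀ Q hQ0.ne' (by omega : r - 1 ≤ n)).symm
    rw [h3, abs_of_nonneg (by positivity)]
    exact one_le_pow₀ hQ

end Pool.Agent.Helper88
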