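import Pool.Agent.Helper88.Veronese

set_option autoImplicit false

open Set Module MeasureTheory Metric

namespace Pool.Agent.Helper88

lemma PolyFn.const (d : ℕ) (a : ℝ) : PolyFn d (fun _ => a) :=
  ⟨Polynomial.C a, by rw [Polynomial.natDegree_C]; omega, fun x => by simp⟩

lemma PolyFn.pow' {d m : ℕ} (h : m ≤ d) : PolyFn d (fun x => x ^ m) :=
  ⟨Polynomial.X ^ m, by rw [Polynomial.natDegree_X_pow]; omega, fun x => by simp⟩

lemma PolyFn.mul' {d₁ d₂ : ℕ} {f g : ℝ → ℝ} (hf : PolyFn d₁ f) (hg : PolyFn d₂ g) :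
    PolyFn (d₁ + d₂) (fun x => f x * g x) := by
  obtain ⟨p, hp1, hp2⟩ := hf
  obtain ⟨q, hq1, hq2⟩ := hg
  refine ⟨p * q, Polynomial.natDegree_mul_le.trans (add_le_add hp1 hq1), fun x => ?_⟩
  rw [Polynomial.eval_mul, ← hp2, ← hq2]

lemma PolyFn.sum' {κ : Type*} (s : Finset κ) {d : ℕ} {f : κ → ℝ → ℝ}
    (hf : ∀ k, PolyFn d (f k)) : PolyFn d (fun x => ∑ k ∈ s, f k x) := by
  choose p hp1 hp2 using hf
  refine ⟨∑ k ∈ s, p k, Polynomial.natDegree_sum_le_of_forall_le _ _ (fun k _ => hp1 k), ?_⟩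
  intro x
  rw [Polynomial.eval_finsetSum]
  exact Finset.sum_congr rfl (fun k _ => hp2 k x)

/-- Index set of the exterior square. -/
abbrev I2 (n : ℕ) := {p : Fin (n + 1) × Fin (n + 1) // p.1 < p.2}

/-- Signs. -/
noncomputable def sg {n : ℕ} (q : I2 n) (i k : Fin (n + 1)) : ℝ :=
  (if q.1 = (i, k) then 1 else 0) - (if q.1 = (k, i) then 1 else 0)

/-- The antisymmetric extension. -/
noncomputable def alt {n : ℕ} (v : I2 n → ℝ) (i k : Fin (n + 1)) : ℝ := ∑ q, v q * sg q i k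

lemma sg_antisymm {n : ℕ} (q : I2 n) (i k : Fin (n + 1)) : sg q i k = -sg q k i := by
  unfold sg; ring

lemma alt_antisymm {n : ℕ} (v : I2 n → ℝ) (i k : Fin (n + 1)) : alt v i k = -alt v k i := by
  unfold alt
  rw [← Finset.sum_neg_distrib]
  apply Finset.sum_congr rfl
  intro q _
  rw [sg_antisymm q i k]; ring

lemma alt_self {n : ℕ} (v : I2 n → ℝ) (i : Fin (n + 1)) : alt v i i = 0 := by
  have := alt_antisymm v i i
  linarith

lemma alt_apply {n : ℕ} (v : I2 n → ℝ) (p : I2 n) : alt v p.1.1 p.1.2 = v p := by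
  unfold alt
  rw [Finset.sum_eq_single p]
  · unfold sg
    have h1 : p.1 = (p.1.1, p.1.2) := rfl
    have h2 : ¬ p.1 = (p.1.2, p.1.1) := by
      intro h
      have h3 : p.1.1 = p.1.2 := congrArg Prod.fst h
      exact absurd h3 (ne_of_lt p.2)
    rw [if_pos h1, if_neg h2]; ring
  · intro q _ hq
    unfold sg
    have h1 : ¬ q.1 = (p.1.1, p.1.2) := by
      intro h
      exact hq (Subtype.ext h)
    have h2 : ¬ q.1 = (p.1.2, p.1.1) := by
      intro h
      have h3 : q.1.1 = p.1.2 := congrArg Prod.fst h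
      have h4 : q.1.2 = p.1.1 := congrArg Prod.snd h
      have h5 := q.2
      have h6 := p.2
      rw [h3, h4] at h5
      exact absurd h5 (not_lt.mpr h6.le)
    rw [if_neg h1, if_neg h2]; ring
  · intro h
    exact absurd (Finset.mem_univ p) h

lemma alt_of_lt {n : ℕ} (v : I2 n → ℝ) {i k : Fin (n + 1)} (h : i < k) :
    alt v i k = v ⟨(i, k), h⟩ := alt_apply v ⟨(i, k), h⟩

/-- The forms `A_k`. -/
noncomputable def AC {n : ℕ} (x : ℝ) (v : I2 n → ℝ) (k : Fin (n + 1)) : ℝ :=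
  ∑ i : Fin (n + 1), x ^ (i : ℕ) * alt v i k

/-- The Wronskian form. -/
noncomputable def W1 {n : ℕ} (x : ℝ) (v : I2 n → ℝ) : ℝ :=
  ∑ k : Fin (n + 1), ((k : ℕ) : ℝ) * x ^ ((k : ℕ) - 1) * AC x v k

/-- The matrix on the exterior square. -/
noncomputable def TW (n : ℕ) (x : ℝ) : Matrix (I2 n) (I2 n) ℝ :=
  Matrix.of fun p q => if p.1.1 ≠ 0 then (if p = q then 1 else 0) else
    if ((p.1.2 : Fin (n + 1)) : ℕ) = 1 then
      ∑ k : Fin (n + 1), ((k : ℕ) : ℝ) * x ^ ((k : ℕ) - 1) *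
        ∑ i : Fin (n + 1), x ^ (i : ℕ) * sg q i k
    else ∑ i : Fin (n + 1), x ^ (i : ℕ) * sg q i p.1.2

lemma AC_eq {n : ℕ} (x : ℝ) (v : I2 n → ℝ) (k : Fin (n + 1)) :
    AC x v k = ∑ q, (∑ i : Fin (n + 1), x ^ (i : ℕ) * sg q i k) * v q := by
  unfold AC alt
  simp_rw [Finset.sum_mul, Finset.mul_sum]
  rw [Finset.sum_comm]
  apply Finset.sum_congr rfl
  intro q _
  apply Finset.sum_congr rfl
  intro i _
  ring

lemma TW_ne {n : ℕ} (x : ℝ) (v : I2 n → ℝ) {p : I2 n} (hp : p.1.1 ≠ 0) :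
    (TW n x).mulVec v p = v p := by
  simp only [TW, Matrix.mulVec, dotProduct, Matrix.of_apply]
  simp [hp]

lemma TW_one {n : ℕ} (x : ℝ) (v : I2 n → ℝ) {p : I2 n} (hp : p.1.1 = 0)
    (hp2 : ((p.1.2 : Fin (n + 1)) : ℕ) = 1) :
    (TW n x).mulVec v p = W1 x v := by
  simp only [TW, Matrix.mulVec, dotProduct, Matrix.of_apply]
  simp only [hp, ne_eq, not_true_eq_false, if_false, hp2, if_true]
  unfold W1
  simp_rw [AC_eq, Finset.mul_sum, Finset.sum_mul]
  rw [Finset.sum_comm]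
  apply Finset.sum_congr rfl
  intro k _
  apply Finset.sum_congr rfl
  intro q _
  rw [Finset.mul_sum]
  apply Finset.sum_congr rfl
  intro i _
  ring

lemma TW_two {n : ℕ} (x : ℝ) (v : I2 n → ℝ) {p : I2 n} (hp : p.1.1 = 0)
    (hp2 : ((p.1.2 : Fin (n + 1)) : ℕ) ≠ 1) :
    (TW n x).mulVec v p = AC x v p.1.2 := by
  simp only [TW, Matrix.mulVec, dotProduct, Matrix.of_apply]
  simp only [hp, ne_eq, not_true_eq_false, if_false, hp2]
  rw [AC_eq]

lemma TW_poly (n : ℕ) (p q : I2 n) : PolyFn (2 * n) (fun x => TW n x p q) := by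
  by_cases h1 : p.1.1 ≠ 0
  · have : (fun x => TW n x p q) = fun _ => (if p = q then (1 : ℝ) else 0) := by
      funext x
      simp only [TW, Matrix.of_apply, if_pos h1]
    rw [this]
    exact PolyFn.const _ _
  · by_cases h2 : ((p.1.2 : Fin (n + 1)) : ℕ) = 1
    · have : (fun x => TW n x p q) = fun x => ∑ k : Fin (n + 1), ((k : ℕ) : ℝ) *
          x ^ ((k : ℕ) - 1) * ∑ i : Fin (n + 1), x ^ (i : ℕ) * sg q i k := by
        funext x
        simp only [TW, Matrix.of_apply, if_neg h1, if_pos h2]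
      rw [this]
      apply PolyFn.sum'
      intro k
      have h3 : PolyFn (0 + n) (fun x => ((k : ℕ) : ℝ) * x ^ ((k : ℕ) - 1)) :=
        (PolyFn.const 0 _).mul' (PolyFn.pow' (by have := k.2; omega))
      have h4 : PolyFn n (fun x => ∑ i : Fin (n + 1), x ^ (i : ℕ) * sg q i k) := by
        apply PolyFn.sum'
        intro i
        exact (PolyFn.mul' (PolyFn.pow' (by have := i.2; omega : (i : ℕ) ≤ n))
          (PolyFn.const 0 _)).mono (by omega)
      exact (h3.mul' h4).mono (by omega)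
    · have : (fun x => TW n x p q) = fun x => ∑ i : Fin (n + 1), x ^ (i : ℕ) * sg q i p.1.2 := by
        funext x
        simp only [TW, Matrix.of_apply, if_neg h1, if_neg h2]
      rw [this]
      apply PolyFn.sum'
      intro i
      exact (PolyFn.mul' (PolyFn.pow' (by have := i.2; omega : (i : ℕ) ≤ n))
          (PolyFn.const 0 _)).mono (by omega)

/-- If the coordinates without index zero vanish, `A_k` is one coordinate. -/
lemma AC_of_zero {n : ℕ} (x : ℝ) (v : I2 n → ℝ) (h : ∀ p : I2 n, p.1.1 ≠ 0 → v p = 0)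
    {k : Fin (n + 1)} (hk : k ≠ 0) : AC x v k = alt v 0 k := by
  unfold AC
  rw [Finset.sum_eq_single 0]
  · simp
  · intro i _ hi
    have : alt v i k = 0 := by
      rcases lt_trichotomy i k with h1 | h1 | h1
      · rw [alt_of_lt v h1]
        exact h _ hi
      · rw [h1]; exact alt_self v k
      · rw [alt_antisymm, alt_of_lt v h1, h _ hk, neg_zero]
    rw [this, mul_zero]
  · intro h; exact absurd (Finset.mem_univ _) h

lemma TW_inj (n : ℕ) (x : ℝ) (v : I2 n → ℝ) (h : (TW n x).mulVec v = 0) : v = 0 := by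
  have h1 : ∀ p : I2 n, p.1.1 ≠ 0 → v p = 0 := by
    intro p hp
    rw [← TW_ne x v hp, h]; rfl
  have h2 : ∀ p : I2 n, p.1.1 = 0 → ((p.1.2 : Fin (n + 1)) : ℕ) ≠ 1 → v p = 0 := by
    intro p hp hp2
    have h3 : AC x v p.1.2 = 0 := by rw [← TW_two x v hp hp2, h]; rfl
    have hp2' : p.1.2 ≠ 0 := by
      intro h4
      have := p.2
      rw [hp, h4] at this
      exact lt_irrefl _ this
    rw [AC_of_zero x v h1 hp2'] at h3
    rw [← alt_apply v p, hp]
    exact h3
  have h3 : ∀ p : I2 n, p.1.1 = 0 → ((p.1.2 : Fin (n + 1)) : ℕ) = 1 → v p = 0 := by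
    intro p hp hp2
    have h4 : W1 x v = 0 := by rw [← TW_one x v hp hp2, h]; rfl
    unfold W1 at h4
    rw [Finset.sum_eq_single p.1.2] at h4
    · rw [hp2] at h4
      have hp2' : p.1.2 ≠ 0 := by
        intro h5
        have := p.2
        rw [hp, h5] at this
        exact lt_irrefl _ this
      rw [AC_of_zero x v h1 hp2'] at h4
      rw [← alt_apply v p, hp]
      simpa using h4
    · intro k _ hk
      by_cases hk0 : k = 0
      · rw [hk0]; simp
      · have hk1 : (k : ℕ) ≠ 1 := by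
          intro h5
          apply hk
          apply Fin.ext
          rw [h5, hp2]
        have hk0' : (0 : Fin (n + 1)) < k := Fin.pos_iff_ne_zero.mpr hk0
        rw [AC_of_zero x v h1 hk0, alt_of_lt v hk0', h2 ⟨(0, k), hk0'⟩ rfl hk1, mul_zero]
    · intro h; exact absurd (Finset.mem_univ _) h
  funext p
  by_cases hp : p.1.1 = 0
  · by_cases hp2 : ((p.1.2 : Fin (n + 1)) : ℕ) = 1
    · exact h3 p hp hp2
    · exact h2 p hp hp2
  · exact h1 p hp

/-- Antisymmetry kills the diagonal evaluation. -/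
lemma sum_AC_zero {n : ℕ} (x : ℝ) (v : I2 n → ℝ) :
    ∑ k : Fin (n + 1), x ^ (k : ℕ) * AC x v k = 0 := by
  have h1 : ∑ k : Fin (n + 1), x ^ (k : ℕ) * AC x v k =
      ∑ k : Fin (n + 1), ∑ i : Fin (n + 1), x ^ (k : ℕ) * x ^ (i : ℕ) * alt v i k := by
    apply Finset.sum_congr rfl
    intro k _
    unfold AC
    rw [Finset.mul_sum]
    apply Finset.sum_congr rfl
    intro i _
    ring
  have h2 : ∑ k : Fin (n + 1), ∑ i : Fin (n + 1), x ^ (k : ℕ) * x ^ (i : ℕ) * alt v i k =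
      -∑ k : Fin (n + 1), ∑ i : Fin (n + 1), x ^ (k : ℕ) * x ^ (i : ℕ) * alt v i k := by
    conv_lhs => rw [Finset.sum_comm]
    rw [← Finset.sum_neg_distrib]
    apply Finset.sum_congr rfl
    intro k _
    rw [← Finset.sum_neg_distrib]
    apply Finset.sum_congr rfl
    intro i _
    rw [alt_antisymm v i k]
    ring
  rw [h1]
  linarith

/-- The two-point form. -/
noncomputable def Phi {n : ℕ} (x y : ℝ) (v : I2 n → ℝ) : ℝ :=
  ∑ k : Fin (n + 1), y ^ (k : ℕ) * AC x v k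

lemma Phi_eq {n : ℕ} (x y : ℝ) (v : I2 n → ℝ) :
    Phi x y v = ∑ k : Fin (n + 1), ∑ i : Fin (n + 1), y ^ (k : ℕ) * x ^ (i : ℕ) * alt v i k := by
  unfold Phi AC
  apply Finset.sum_congr rfl
  intro k _
  rw [Finset.mul_sum]
  apply Finset.sum_congr rfl
  intro i _
  ring

lemma Phi_antisymm {n : ℕ} (x y : ℝ) (v : I2 n → ℝ) : Phi x y v = -Phi y x v := by
  rw [Phi_eq, Phi_eq]
  conv_lhs => rw [Finset.sum_comm]
  rw [← Finset.sum_neg_distrib]
  apply Finset.sum_congr rfl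
  intro k _
  rw [← Finset.sum_neg_distrib]
  apply Finset.sum_congr rfl
  intro i _
  rw [alt_antisymm v k i]
  ring

/-- The two-point forms determine the vector. -/
lemma eq_zero_of_Phi {n : ℕ} (y : Fin (n + 1) → ℝ) (hy : Function.Injective y) (v : I2 n → ℝ)
    (h : ∀ j l, Phi (y j) (y l) v = 0) : v = 0 := by
  have h1 : ∀ l, (fun i => ∑ k : Fin (n + 1), y l ^ (k : ℕ) * alt v i k) = 0 := by
    intro l
    apply eq_zero_of_ev y hy
    intro j
    rw [← h j l, Phi_eq]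
    unfold ev
    rw [Finset.sum_comm]
    apply Finset.sum_congr rfl
    intro k _
    rw [Finset.sum_mul]
    apply Finset.sum_congr rfl
    intro i _
    ring
  have h2 : ∀ i, (fun k => alt v i k) = 0 := by
    intro i
    apply eq_zero_of_ev y hy
    intro l
    have h3 := congrFun (h1 l) i
    simp only [Pi.zero_apply] at h3
    rw [← h3]
    unfold ev
    apply Finset.sum_congr rfl
    intro k _
    ring
  funext p
  rw [← alt_apply v p]
  have := congrFun (h2 p.1.1) p.1.2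
  simpa using this

end Pool.Agent.Helper88
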