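import Pool.Agent.Helper88.ND
import Pool.Agent.Helper88.Compact

set_option autoImplicit false

open Set Module MeasureTheory Metric

namespace Pool.Agent.Helper88

lemma exists_pos_lower (c : ℕ → ℝ) (D : ℕ) (hc : ∀ r, 1 ≤ r → 0 < c r) :
    ∃ ρ : ℝ, 0 < ρ ∧ ρ ≤ 1 ∧ ∀ r, 1 ≤ r → r ≤ D → ρ ≤ c r := by
  induction D with
  | zero => exact ⟨1, one_pos, le_refl _, fun r h1 h2 => by omega⟩
  | succ D ih =>
    obtain ⟨ρ, h1, h2, h3⟩ := ih
    refine ⟨min ρ (c (D + 1)), lt_min h1 (hc _ (by omega)), (min_le_left _ _).trans h2, ?_⟩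
    intro r hr hr2
    rcases Nat.lt_or_ge r (D + 1) with h | h
    · exact (min_le_left _ _).trans (h3 r hr (by omega))
    · have : r = D + 1 := by omega
      rw [this]
      exact min_le_right _ _

variable {ι : Type*} [Fintype ι] [DecidableEq ι]

omit [DecidableEq ι] in
lemma mnr_weight {r : ℕ} (w : ι → ℝ) (A : Matrix ι ι ℝ) (b : Fin r → ι → ℝ) (e : Fin r → ι) :
    mnr (Matrix.of fun i j => w i * A i j) b e = (∏ a, w (e a)) * mnr A b e := by
  unfold mnr
  rw [← Matrix.det_mul_column]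
  congr 1
  ext a c
  simp only [Matrix.of_apply, Matrix.mulVec, dotProduct]
  rw [Finset.mul_sum]
  apply Finset.sum_congr rfl
  intro j _
  ring

omit [DecidableEq ι] in
lemma mulVec_weight (w : ι → ℝ) (A : Matrix ι ι ℝ) (v : ι → ℝ) (i : ι) :
    (Matrix.of fun i j => w i * A i j).mulVec v i = w i * A.mulVec v i := by
  simp only [Matrix.of_apply, Matrix.mulVec, dotProduct]
  rw [Finset.mul_sum]
  apply Finset.sum_congr rfl
  intro j _
  ring

/-- Nondivergence with weights: the constant does not depend on the weights. -/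
theorem weighted_nondiv {T : ℝ → Matrix ι ι ℝ} {d : ℕ} (hT : ∀ i j, PolyFn d (fun x => T x i j))
    {y0 r0 : ℝ} (hr0 : 0 < r0) (J : ∀ r : ℕ, Finset (ℝ × (Fin r → ι)))
    (hJB : ∀ r, ∀ j ∈ J r, j.1 ∈ closedBall y0 r0)
    (hJ : ∀ r, 1 ≤ r → ∀ M : Fin r → ι → ℝ, LinearIndependent ℝ M →
      ∃ j ∈ J r, mnr (T j.1) M j.2 ≠ 0) {δ : ℝ} (hδ : 0 < δ) :
    ∃ η : ℝ, 0 < η ∧ ∀ w : ι → ℝ,
      (∀ r, 1 ≤ r → r ≤ Fintype.card ι → ∀ j ∈ J r, 1 ≤ |∏ a, w (j.2 a)|) →
      volume {x ∈ closedBall y0 r0 | ∃ v : ι → ℤ, v ≠ 0 ∧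
        ∀ i, |w i * (T x).mulVec (toR v) i| ≤ η} ≤ ENNReal.ofReal δ := by
  obtain ⟨M, τ, hτ, hM⟩ := HasBesicovitchCovering.no_satelliteConfig (α := ℝ)
  set D := Fintype.card ι with hD
  have h1 : ∀ r : ℕ, ∃ c : ℝ, 1 ≤ r → (0 < c ∧ ∀ b : Fin r → ι → ℤ,
      LinearIndependent ℝ (fun c => toR (b c)) →
      ∃ j ∈ J r, c ≤ |mnr (T j.1) (fun c => toR (b c)) j.2|) := by
    intro r
    by_cases hr : 1 ≤ r
    · obtain ⟨c, hc, h⟩ := compact_lower T (J r) (hJ r hr)
      exact ⟨c, fun _ => ⟨hc, h⟩⟩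
    · exact ⟨1, fun h => absurd h hr⟩
  choose c hc using h1
  obtain ⟨ρ, hρ, hρ1, hρc⟩ := exists_pos_lower c D (fun r hr => (hc r hr).1)
  have hak := akm_nonneg M D
  set δ' : ℝ := δ / ((akm M D + 1) * r0) with hδ'
  have hδ'pos : 0 < δ' := by positivity
  set D' : ℝ := max (D : ℝ) 1 with hD'
  have hD'1 : 1 ≤ D' := le_max_right _ _
  set ε : ℝ := min ρ (ρ / (D : ℝ) ^ D * kappa (D * d) δ') with hε
  have hDD : (0 : ℝ) < (D : ℝ) ^ D := by
    rcases Nat.eq_zero_or_pos D with h | h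
    · rw [h]; simp
    · have : (0 : ℝ) < D := by exact_mod_cast h
      positivity
  have hkap := kappa_pos (D * d) hδ'pos
  have hεpos : 0 < ε := lt_min hρ (by positivity)
  refine ⟨ε / (2 * D' ^ 2), by positivity, ?_⟩
  intro w hw
  set H : ℝ → Matrix ι ι ℝ := fun x => Matrix.of fun i j => w i * T x i j with hH
  have hHpoly : ∀ i j, PolyFn d (fun x => H x i j) := by
    intro i j
    obtain ⟨p, hp1, hp2⟩ := hT i j
    refine ⟨Polynomial.C (w i) * p, (Polynomial.natDegree_C_mul_le _ _).trans hp1, ?_⟩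
    intro x
    rw [Polynomial.eval_mul, Polynomial.eval_C, ← hp2 x]
    rfl
  have hη : (Fintype.card ι : ℝ) ^ 2 * (ε / (2 * D' ^ 2)) < ε := by
    rw [← hD]
    have h2 : (D : ℝ) ≤ D' := le_max_left _ _
    have h3 : (D : ℝ) ^ 2 ≤ D' ^ 2 := by
      apply pow_le_pow_left₀ (Nat.cast_nonneg _) h2
    calc (D : ℝ) ^ 2 * (ε / (2 * D' ^ 2)) ≤ D' ^ 2 * (ε / (2 * D' ^ 2)) := by
          apply mul_le_mul_of_nonneg_right h3 (by positivity)
      _ = ε / 2 := by field_simp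
      _ < ε := by linarith
  have key := nondiv hτ hM (H := H) (d := d) hHpoly (ρ := ρ) (δ := δ') (ε := ε)
    (η := ε / (2 * D' ^ 2)) (y0 := y0) (r0 := r0) hρ hρ1 hδ'pos hr0 (min_le_left _ _)
    (min_le_right _ _) hη ?_
  · refine le_trans (measure_mono ?_) (key.trans (ENNReal.ofReal_le_ofReal ?_))
    · rintro x ⟨hxB, v, hv, hvη⟩
      refine ⟨hxB, v, hv, ?_⟩
      intro i
      rw [hH]
      simp only
      rw [mulVec_weight]
      exact hvη i
    · rw [hδ', ← hD]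
      have h4 : akm M D * (δ / ((akm M D + 1) * r0)) * r0 = δ * (akm M D / (akm M D + 1)) := by
        field_simp
      rw [h4]
      have h5 : akm M D / (akm M D + 1) ≤ 1 := by
        rw [div_le_one (by linarith)]; linarith
      nlinarith
  · intro r b hr hli
    have hrD : r ≤ D := by
      have := hli.fintype_card_le_finrank
      rw [Fintype.card_fin, Module.finrank_fintype_fun_eq_card] at this
      exact this
    obtain ⟨j, hj, hjc⟩ := (hc r hr).2 b hli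
    refine ⟨j.1, hJB r j hj, j.2, ?_⟩
    rw [hH]
    simp only
    rw [mnr_weight, abs_mul]
    have h6 := hw r hr hrD j hj
    have h7 := hρc r hr hrD
    have h8 : 0 ≤ |mnr (T j.1) (fun c => toR (b c)) j.2| := abs_nonneg _
    nlinarith

end Pool.Agent.Helper88
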